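import Mathlib

/-!
# Kernels which are invariant under a group that is doubly homogeneous on pairs

`A` is an integral valued kernel on a set `X` with an involution `c` without fixed points (the set of
the embeddings of a CM field over an embedding of a subfield), symmetric and odd; a group which is
doubly homogeneous on the pairs preserves it. If four rows have the sum zero, the number of pairs is
`4`, `10`, `16` or `28`.
-/

set_option linter.unusedSectionVars false

namespace Pool.Agent.V7H82.TG.Kern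

open Finset Module

/-- The trace of a matrix with `M ^ 2 = μ M`. -/
theorem trace_rank {X : Type*} [Fintype X] [DecidableEq X] (M : Matrix X X ℚ) {μ : ℚ}
    (hμ : μ ≠ 0) (hM : M * M = μ • M) :
    M.trace = μ * (finrank ℚ (LinearMap.range (Matrix.toLin' M)) : ℚ) := by
  let P : Matrix X X ℚ := μ⁻¹ • M
  have hP : P * P = P := by
    simp only [P]
    rw [smul_mul_smul_comm, hM, smul_smul]
    congr 1
    field_simp
  have h1 : IsIdempotentElem (Matrix.toLin' P) := by
    unfold IsIdempotentElem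
    rw [Module.End.mul_eq_comp, ← Matrix.toLin'_mul, hP]
  have h2 := (LinearMap.IsIdempotentElem.isProj_range (Matrix.toLin' P) h1).trace
  rw [Matrix.trace_toLin'_eq] at h2
  have h3 : LinearMap.range (Matrix.toLin' P) = LinearMap.range (Matrix.toLin' M) := by
    have h4 : Matrix.toLin' P = μ⁻¹ • Matrix.toLin' M := by
      simp only [P]
      rw [map_smul]
    rw [h4]
    exact LinearMap.range_smul _ _ (inv_ne_zero hμ)
  rw [h3] at h2
  have h5 : P.trace = μ⁻¹ * M.trace := by
    simp only [P]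
    rw [Matrix.trace_smul, smul_eq_mul]
  rw [h5] at h2
  rw [← h2]
  field_simp

/-- A symmetric kernel of rank `r` whose squares are `9 α ^ 2` on the diagonal and `α ^ 2` outside has
at most `r (r + 1) / 2` rows. -/
theorem gerzon {I : Type*} [Fintype I] [DecidableEq I] (M : Matrix I I ℚ) {α : ℚ} (hα : α ≠ 0)
    (hd : ∀ i, M i i ^ 2 = 9 * α ^ 2) (ho : ∀ i j, i ≠ j → M i j ^ 2 = α ^ 2) {r : ℕ}
    (U : I → Fin r → ℚ) (V : Fin r → I → ℚ) (hM : ∀ i j, M i j = ∑ k, U i k * V k j) :
    Fintype.card I ≤ (r + 1).choose 2 := by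
  classical
  by_contra hlt
  push Not at hlt
  let W : (I → ℚ) →ₗ[ℚ] (Sym2 (Fin r) → ℚ) :=
    { toFun := fun w s => ∑ j, (Sym2.lift ⟨fun k l => V k j * V l j, fun _ _ => mul_comm _ _⟩ s) * w j
      map_add' := fun w w' => by
        funext s
        simp only [Pi.add_apply, mul_add, Finset.sum_add_distrib]
      map_smul' := fun a w => by
        funext s
        simp only [Pi.smul_apply, smul_eq_mul, RingHom.id_apply, Finset.mul_sum]
        exact Finset.sum_congr rfl fun j _ => by ring }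
  have hker : LinearMap.ker W ≠ ⊥ := by
    apply LinearMap.ker_ne_bot_of_finrank_lt
    rw [finrank_fintype_fun_eq_card, finrank_fintype_fun_eq_card, Sym2.card, Fintype.card_fin]
    exact hlt
  obtain ⟨w, hw, hw0⟩ := (Submodule.ne_bot_iff _).1 hker
  have hWs : ∀ k l : Fin r, ∑ j, V k j * V l j * w j = 0 := by
    intro k l
    have h1 := congrFun (LinearMap.mem_ker.1 hw) s(k, l)
    exact h1
  have hN : ∀ i, ∑ j, M i j ^ 2 * w j = 0 := by
    intro i
    have h1 : ∀ j, M i j ^ 2 * w j = ∑ k, ∑ l, U i k * U i l * (V k j * V l j * w j) := by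
      intro j
      rw [hM, sq, Finset.sum_mul_sum, Finset.sum_mul]
      refine Finset.sum_congr rfl fun k _ => ?_
      rw [Finset.sum_mul]
      exact Finset.sum_congr rfl fun l _ => by ring
    rw [Finset.sum_congr rfl fun j _ => h1 j, Finset.sum_comm]
    refine Finset.sum_eq_zero fun k _ => ?_
    rw [Finset.sum_comm]
    refine Finset.sum_eq_zero fun l _ => ?_
    rw [← Finset.mul_sum, hWs, mul_zero]
  have hN' : ∀ i, 8 * w i = - ∑ j, w j := by
    intro i
    have h1 := hN i
    rw [← Finset.add_sum_erase _ _ (Finset.mem_univ i), hd] at h1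
    have h2 : ∑ j ∈ Finset.univ.erase i, M i j ^ 2 * w j =
        α ^ 2 * ∑ j ∈ Finset.univ.erase i, w j := by
      rw [Finset.mul_sum]
      exact Finset.sum_congr rfl fun j hj => by rw [ho i j (Finset.ne_of_mem_erase hj).symm]
    have h3 := Finset.add_sum_erase (Finset.univ : Finset I) w (Finset.mem_univ i)
    rw [h2] at h1
    have h4 : α ^ 2 * (9 * w i + ∑ j ∈ Finset.univ.erase i, w j) = 0 := by
      linear_combination h1
    have h5 := (mul_eq_zero.1 h4).resolve_left (pow_ne_zero 2 hα)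
    linear_combination h5 - h3
  have hS : ∑ j, w j = 0 := by
    have h1 : ∑ i, 8 * w i = ∑ _i : I, - ∑ j, w j := Finset.sum_congr rfl fun i _ => hN' i
    rw [← Finset.mul_sum, Finset.sum_const, Finset.card_univ, nsmul_eq_mul] at h1
    have h2 : (8 + (Fintype.card I : ℚ)) * ∑ j, w j = 0 := by linear_combination h1
    refine (mul_eq_zero.1 h2).resolve_left ?_
    positivity
  apply hw0
  funext i
  have h1 := hN' i
  rw [hS] at h1
  simp only [Pi.zero_apply]
  linarith

/-- The factorization of a matrix through its range. -/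
theorem exists_factor {X : Type*} [Fintype X] [DecidableEq X] (M : Matrix X X ℚ) {r : ℕ}
    (hr : finrank ℚ (LinearMap.range (Matrix.toLin' M)) = r) :
    ∃ (U : X → Fin r → ℚ) (V : Fin r → X → ℚ), ∀ i j, M i j = ∑ k, U i k * V k j := by
  let b : Basis (Fin r) ℚ (LinearMap.range (Matrix.toLin' M)) := finBasisOfFinrankEq ℚ _ hr
  let w : X → LinearMap.range (Matrix.toLin' M) := fun j =>
    ⟨Matrix.toLin' M (Pi.single j 1), ⟨_, rfl⟩⟩
  refine ⟨fun i k => (b k : X → ℚ) i, fun k j => b.repr (w j) k, fun i j => ?_⟩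
  have h1 := b.sum_repr (w j)
  have h2 := congrArg (fun v : LinearMap.range (Matrix.toLin' M) => (v : X → ℚ) i) h1
  have h3 : ((w j : LinearMap.range (Matrix.toLin' M)) : X → ℚ) i = M i j := by
    change Matrix.toLin' M (Pi.single j 1) i = M i j
    rw [Matrix.toLin'_apply, Matrix.mulVec_single_one]
    rfl
  have h4 : ((∑ k, b.repr (w j) k • b k : LinearMap.range (Matrix.toLin' M)) : X → ℚ) i =
      ∑ k, b.repr (w j) k * (b k : X → ℚ) i := by
    rw [Submodule.coe_sum, Finset.sum_apply]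
    rfl
  calc M i j = ((w j : LinearMap.range (Matrix.toLin' M)) : X → ℚ) i := h3.symm
    _ = ∑ k, b.repr (w j) k * (b k : X → ℚ) i := h2.symm.trans h4
    _ = _ := Finset.sum_congr rfl fun k _ => mul_comm _ _

section main

variable {X : Type*} [Fintype X] [DecidableEq X] {c : X → X} (hc : ∀ x, c (c x) = x)
  (hcx : ∀ x, c x ≠ x)

/-- `y` is not in the pair of `x`. -/
def NP (c : X → X) (x y : X) : Prop := y ≠ x ∧ y ≠ c x

include hc hcx in
/-- Representatives of the pairs. -/
theorem exists_reps : ∃ (I : Type) (_ : Fintype I) (_ : DecidableEq I) (t : I → X),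
    (∀ i j, i ≠ j → NP c (t i) (t j)) ∧ Fintype.card X = 2 * Fintype.card I := by
  classical
  let S : Setoid X :=
    { r := fun x y => y = x ∨ y = c x
      iseqv :=
        { refl := fun x => Or.inl rfl
          symm := by
            rintro x y (rfl | rfl)
            · exact Or.inl rfl
            · exact Or.inr (hc x).symm
          trans := by
            rintro x y z (rfl | rfl) (rfl | rfl)
            · exact Or.inl rfl
            · exact Or.inr rfl
            · exact Or.inr rfl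
            · exact Or.inl (hc x) } }
  let e := Fintype.equivFin (Quotient S)
  refine ⟨Fin (Fintype.card (Quotient S)), inferInstance, inferInstance,
    fun i => (e.symm i).out, fun i j hij => ?_, ?_⟩
  · constructor
    · intro h
      apply hij
      apply e.symm.injective
      have h1 := congrArg (Quotient.mk S) h
      rw [Quotient.out_eq, Quotient.out_eq] at h1
      exact h1.symm
    · intro h
      apply hij
      apply e.symm.injective
      have h1 : Quotient.mk S (e.symm i).out = Quotient.mk S (e.symm j).out :=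
        Quotient.sound (Or.inr h)
      rw [Quotient.out_eq, Quotient.out_eq] at h1
      exact h1
  · rw [Fintype.card_fin]
    have h1 : Fintype.card X = ∑ q : Quotient S, (univ.filter fun x => Quotient.mk S x = q).card := by
      rw [← Finset.card_univ]
      exact Finset.card_eq_sum_card_fiberwise (fun x _ => Finset.mem_univ _)
    rw [h1, Finset.sum_congr rfl (g := fun _ => 2), Finset.sum_const, Finset.card_univ,
      smul_eq_mul, mul_comm]
    intro q _
    obtain ⟨x, rfl⟩ := Quotient.exists_rep q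
    have h2 : (univ.filter fun y => Quotient.mk S y = Quotient.mk S x) = {x, c x} := by
      ext y
      rw [Finset.mem_filter, Finset.mem_insert, Finset.mem_singleton]
      constructor
      · rintro ⟨-, h⟩
        exact Quotient.exact h.symm
      · intro h
        exact ⟨Finset.mem_univ _, (Quotient.sound (s := S) (show x ≈ y from h)).symm⟩
    rw [h2, Finset.card_pair (hcx x).symm]

variable {A : X → X → ℤ} (hsymm : ∀ x y, A x y = A y x) (hodd : ∀ x y, A (c x) y = - A x y)
  {β : ℤ} (hdiag : ∀ x, A x x = β) (hlt : ∀ x y, NP c x y → |A x y| < β)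
  (hhom : ∀ x y x' y', NP c x y → NP c x' y' → ∃ ε : ℤ, (ε = 1 ∨ ε = -1) ∧
    A x y = ε * A x' y' ∧ ∑ z, A x z * A z y = ε * ∑ z, A x' z * A z y')
  {x₀ x₁ x₂ x₃ : X} (h01 : NP c x₀ x₁) (h02 : NP c x₀ x₂) (h03 : NP c x₀ x₃) (h12 : NP c x₁ x₂)
  (h13 : NP c x₁ x₃) (h23 : NP c x₂ x₃) (hrel : ∀ y, A x₀ y + A x₁ y + A x₂ y + A x₃ y = 0)

include hsymm hdiag hlt hhom h01 h02 h03 h12 h13 h23 hrel in
/-- The signs are negative. -/
theorem signs : ∃ α : ℤ, 0 < α ∧ β = 3 * α ∧ (∀ x y, NP c x y → |A x y| = α) ∧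
    A x₀ x₁ = -α ∧ A x₀ x₂ = -α ∧ A x₀ x₃ = -α ∧ A x₁ x₂ = -α ∧ A x₁ x₃ = -α ∧
    A x₂ x₃ = -α := by
  have habs : ∀ x y, NP c x y → |A x y| = |A x₀ x₁| := by
    intro x y h
    obtain ⟨ε, hε, h1, -⟩ := hhom x y x₀ x₁ h h01
    rw [h1, abs_mul]
    rcases hε with rfl | rfl <;> simp
  set α := |A x₀ x₁| with hα
  have hα0 : 0 ≤ α := abs_nonneg _
  have hαβ : α < β := hlt x₀ x₁ h01
  have key : ∀ x y, NP c x y → A x y = α ∨ A x y = -α := fun x y h =>
    (abs_eq hα0).1 (habs x y h)
  have k01 := key _ _ h01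
  have k02 := key _ _ h02
  have k03 := key _ _ h03
  have k12 := key _ _ h12
  have k13 := key _ _ h13
  have k23 := key _ _ h23
  have r0 := hrel x₀
  have r1 := hrel x₁
  have r2 := hrel x₂
  have r3 := hrel x₃
  rw [hdiag, hsymm x₁ x₀, hsymm x₂ x₀, hsymm x₃ x₀] at r0
  rw [hdiag, hsymm x₂ x₁, hsymm x₃ x₁] at r1
  rw [hdiag, hsymm x₃ x₂] at r2
  rw [hdiag] at r3
  clear_value α
  refine ⟨α, ?_, ?_, habs, ?_, ?_, ?_, ?_, ?_, ?_⟩ <;>
    (rcases k01 with k01 | k01 <;> rcases k02 with k02 | k02 <;> rcases k03 with k03 | k03 <;>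
      rcases k12 with k12 | k12 <;> rcases k13 with k13 | k13 <;> rcases k23 with k23 | k23 <;>
      omega)

include hsymm hodd in
theorem odd_right (x y : X) : A x (c y) = - A x y := by
  rw [hsymm, hodd, hsymm]

include hc hcx hsymm hodd hdiag hlt hhom h01 h02 h03 h12 h13 h23 hrel in
/-- The kernel is proportional to its square. -/
theorem square_prop : ∃ α : ℤ, 0 < α ∧ β = 3 * α ∧ (∀ x y, NP c x y → |A x y| = α) ∧
    (∀ x y, 3 * ∑ z, A x z * A z y = (Fintype.card X + 16) * α * A x y) := by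
  obtain ⟨α, hα, hβ, habs, s01, s02, s03, s12, s13, s23⟩ :=
    signs hsymm hdiag hlt hhom h01 h02 h03 h12 h13 h23 hrel
  refine ⟨α, hα, hβ, habs, ?_⟩
  have hself : ∀ x, ∑ z, A x z * A z x = (Fintype.card X + 16) * α ^ 2 := by
    intro x
    have h1 : ∀ z, A x z * A z x = α ^ 2 + (if z = x then 8 * α ^ 2 else 0) +
        (if z = c x then 8 * α ^ 2 else 0) := by
      intro z
      rw [hsymm z x]
      by_cases hz : z = x
      · have h2 : ¬ (x = c x) := (hcx x).symm
        rw [hz, if_pos rfl, if_neg h2, hdiag, hβ]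
        ring
      · by_cases hz' : z = c x
        · rw [hz', if_neg (hcx x), if_pos rfl, odd_right hsymm hodd, hdiag, hβ]
          ring
        · rw [if_neg hz, if_neg hz']
          have h2 := habs x z ⟨hz, hz'⟩
          rw [← h2, sq_abs]
          ring
    rw [Finset.sum_congr rfl fun z _ => h1 z, Finset.sum_add_distrib, Finset.sum_add_distrib,
      Finset.sum_ite_eq', Finset.sum_ite_eq', if_pos (Finset.mem_univ _),
      if_pos (Finset.mem_univ _), Finset.sum_const, Finset.card_univ, nsmul_eq_mul]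
    ring
  have h2rel : ∑ z, A x₀ z * A z x₀ + ∑ z, A x₁ z * A z x₀ + ∑ z, A x₂ z * A z x₀ +
      ∑ z, A x₃ z * A z x₀ = 0 := by
    rw [← Finset.sum_add_distrib, ← Finset.sum_add_distrib, ← Finset.sum_add_distrib]
    refine Finset.sum_eq_zero fun z _ => ?_
    have := hrel z
    linear_combination (A z x₀) * this
  have hNP : ∀ x y, NP c x y → NP c y x := by
    intro x y h
    exact ⟨h.1.symm, fun h' => h.2 (by rw [h', hc])⟩
  have hε : ∀ y, NP c y x₀ → A y x₀ = -α → ∑ z, A y z * A z x₀ = ∑ z, A x₁ z * A z x₀ := by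
    intro y hy hs
    obtain ⟨ε, hε, e1, e2⟩ := hhom y x₀ x₁ x₀ hy (hNP _ _ h01)
    rw [hs, hsymm x₁ x₀, s01] at e1
    have h3 : ε = 1 := by
      rcases hε with h | h
      · exact h
      · rw [h] at e1
        omega
    rw [e2, h3, one_mul]
  have k2 := hε x₂ (hNP _ _ h02) (by rw [hsymm, s02])
  have k3 := hε x₃ (hNP _ _ h03) (by rw [hsymm, s03])
  rw [hself, k2, k3] at h2rel
  have hκ : 3 * ∑ z, A x₁ z * A z x₀ = - ((Fintype.card X + 16) * α ^ 2) := by
    linear_combination h2rel
  intro x y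
  by_cases hy : y = x
  · rw [hy, hself, hdiag, hβ]
    ring
  by_cases hy' : y = c x
  · have h3 : ∑ z, A x z * A z (c x) = - ∑ z, A x z * A z x := by
      rw [← Finset.sum_neg_distrib]
      exact Finset.sum_congr rfl fun z _ => by rw [odd_right hsymm hodd]; ring
    rw [hy', h3, hself, odd_right hsymm hodd, hdiag, hβ]
    ring
  · obtain ⟨ε, hε, e1, e2⟩ := hhom x y x₁ x₀ ⟨hy, hy'⟩ (hNP _ _ h01)
    rw [e2, e1, hsymm x₁ x₀, s01]
    linear_combination ε * hκ

include hc hcx hsymm hodd hdiag hlt hhom h01 h02 h03 h12 h13 h23 hrel in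
/-- The number of pairs is four, ten, sixteen or twenty-eight. -/
theorem card_pairs : Fintype.card X = 8 ∨ Fintype.card X = 20 ∨ Fintype.card X = 32 ∨
    Fintype.card X = 56 := by
  classical
  obtain ⟨α, hα, hβ, habs, hsq⟩ :=
    square_prop hc hcx hsymm hodd hdiag hlt hhom h01 h02 h03 h12 h13 h23 hrel
  obtain ⟨I, _, _, t, ht, hcard⟩ := exists_reps hc hcx
  let M : Matrix X X ℚ := fun x y => (A x y : ℚ)
  have hαq : (α : ℚ) ≠ 0 := by exact_mod_cast hα.ne'
  set μ : ℚ := ((Fintype.card X : ℚ) + 16) * α / 3 with hμdef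
  have hμ : μ ≠ 0 := by
    have h1 : (0 : ℚ) < α := by exact_mod_cast hα
    positivity
  have hM : M * M = μ • M := by
    ext x y
    rw [Matrix.mul_apply, Matrix.smul_apply, smul_eq_mul]
    have h1 := congrArg (fun z : ℤ => (z : ℚ)) (hsq x y)
    push_cast at h1
    simp only [M]
    rw [hμdef]
    linear_combination (1 / 3 : ℚ) * h1
  have htr := trace_rank M hμ hM
  have htr' : M.trace = (Fintype.card X : ℚ) * (3 * α) := by
    unfold Matrix.trace
    have h1 : ∀ x, M.diag x = 3 * α := by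
      intro x
      rw [Matrix.diag_apply]
      simp only [M]
      rw [hdiag, hβ]
      push_cast
      ring
    rw [Finset.sum_congr rfl fun x _ => h1 x, Finset.sum_const, Finset.card_univ, nsmul_eq_mul]
  set r := finrank ℚ (LinearMap.range (Matrix.toLin' M)) with hr
  set n := Fintype.card I with hn
  rw [htr', hμdef, hcard] at htr
  push_cast at htr
  have hq : (9 * n : ℚ) = (n + 8) * r := by
    apply mul_left_cancel₀ hαq
    linear_combination (3 / 2 : ℚ) * htr
  have hN : 9 * n = (n + 8) * r := by exact_mod_cast hq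
  have hn4 : 4 ≤ n := by
    have h1 : ({x₀, c x₀, x₁, c x₁, x₂, c x₂, x₃, c x₃} : Finset X).card = 8 := by
      have inj : ∀ x y, c x = c y → x = y := fun x y h => by rw [← hc x, h, hc]
      have n0 := (hcx x₀).symm
      have n1 := (hcx x₁).symm
      have n2 := (hcx x₂).symm
      have n3 := (hcx x₃).symm
      have f : ∀ x y, NP c x y → x ≠ y ∧ x ≠ c y ∧ c x ≠ y ∧ c x ≠ c y := fun x y h =>
        ⟨h.1.symm, fun h' => h.2 (by rw [h', hc]), h.2.symm, fun h' => h.1 (inj _ _ h').symm⟩
      obtain ⟨a1, a2, a3, a4⟩ := f _ _ h01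
      obtain ⟨b1, b2, b3, b4⟩ := f _ _ h02
      obtain ⟨c1, c2, c3, c4⟩ := f _ _ h03
      obtain ⟨d1, d2, d3, d4⟩ := f _ _ h12
      obtain ⟨e1, e2, e3, e4⟩ := f _ _ h13
      obtain ⟨f1, f2, f3, f4⟩ := f _ _ h23
      repeat rw [Finset.card_insert_of_notMem]
      · rw [Finset.card_singleton]
      all_goals simp [*]
    have h2 := Finset.card_le_univ ({x₀, c x₀, x₁, c x₁, x₂, c x₂, x₃, c x₃} : Finset X)
    rw [h1, hcard] at h2
    omega
  have hr9 : r ≤ 8 := by
    by_contra h
    push Not at h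
    nlinarith
  have hdvd : (n + 8) * (9 - r) = 72 := by
    obtain ⟨s, hs⟩ : ∃ s, 9 = r + s := ⟨9 - r, by omega⟩
    have h1 : 9 - r = s := by omega
    rw [h1]
    nlinarith
  have hn64 : n ≤ 64 := by
    by_contra h
    push Not at h
    have : 1 ≤ 9 - r := by omega
    nlinarith
  have hcases : n = 4 ∨ n = 10 ∨ n = 16 ∨ n = 28 ∨ (n = 64 ∧ r = 8) := by
    interval_cases r <;> omega
  have h64 : ¬ (n = 64 ∧ r = 8) := by
    rintro ⟨h1, h2⟩
    obtain ⟨U, V, hUV⟩ := exists_factor M h2
    have h3 := gerzon (I := I) (fun i j => M (t i) (t j)) hαq (fun i => ?_) (fun i j hij => ?_)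
      (fun i k => U (t i) k) (fun k j => V k (t j)) (fun i j => hUV _ _)
    · rw [← hn, h1] at h3
      revert h3
      decide
    · simp only [M]
      rw [hdiag, hβ]
      push_cast
      ring
    · simp only [M]
      have h4 := habs _ _ (ht i j hij)
      have h5 : (A (t i) (t j)) ^ 2 = α ^ 2 := by rw [← h4, sq_abs]
      exact_mod_cast h5
  omega

end main

/-- Permutations which preserve the kernel give the homogeneity. -/
theorem hom_of_perm {Y : Type*} [Fintype Y] {c : Y → Y} {B : Y → Y → ℤ}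
    (hsymm : ∀ x y, B x y = B y x) (hodd : ∀ x y, B (c x) y = - B x y) {x y x' y' : Y}
    (τ : Y → Y) (hτ : Function.Injective τ) (hB : ∀ z w, B (τ z) (τ w) = B z w)
    (h : ((τ x = x' ∨ τ x = c x') ∧ (τ y = y' ∨ τ y = c y')) ∨
      ((τ x = y' ∨ τ x = c y') ∧ (τ y = x' ∨ τ y = c x'))) :
    ∃ ε : ℤ, (ε = 1 ∨ ε = -1) ∧ B x y = ε * B x' y' ∧
      ∑ z, B x z * B z y = ε * ∑ z, B x' z * B z y' := by
  have hbij : Function.Bijective τ := Finite.injective_iff_bijective.1 hτ
  have hsum : ∑ z, B x z * B z y = ∑ z, B (τ x) z * B z (τ y) := by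
    rw [← hbij.sum_comp (fun z => B (τ x) z * B z (τ y))]
    exact Finset.sum_congr rfl fun z _ => by rw [hB, hB]
  have hodd' : ∀ x y, B x (c y) = - B x y := fun x y => by rw [hsymm, hodd, hsymm]
  have hl : ∀ {u v : Y}, (u = v ∨ u = c v) → ∃ ε : ℤ, (ε = 1 ∨ ε = -1) ∧
      (∀ w, B u w = ε * B v w) ∧ ∀ w, B w u = ε * B w v := by
    rintro u v (rfl | rfl)
    · exact ⟨1, Or.inl rfl, fun w => (one_mul _).symm, fun w => (one_mul _).symm⟩
    · exact ⟨-1, Or.inr rfl, fun w => by rw [hodd]; ring, fun w => by rw [hodd']; ring⟩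
  have hxy : B x y = B (τ x) (τ y) := (hB x y).symm
  rw [hsum, hxy]
  rcases h with ⟨h1, h2⟩ | ⟨h1, h2⟩
  · obtain ⟨ε₁, e1, l1, r1⟩ := hl h1
    obtain ⟨ε₂, e2, l2, r2⟩ := hl h2
    refine ⟨ε₁ * ε₂, ?_, ?_, ?_⟩
    · rcases e1 with rfl | rfl <;> rcases e2 with rfl | rfl <;> simp
    · rw [l1, r2]; ring
    · rw [Finset.mul_sum]
      exact Finset.sum_congr rfl fun z _ => by rw [l1, r2]; ring
  · obtain ⟨ε₁, e1, l1, r1⟩ := hl h1
    obtain ⟨ε₂, e2, l2, r2⟩ := hl h2
    refine ⟨ε₁ * ε₂, ?_, ?_, ?_⟩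
    · rcases e1 with rfl | rfl <;> rcases e2 with rfl | rfl <;> simp
    · rw [l1, r2, hsymm y' x']; ring
    · rw [Finset.mul_sum]
      refine Finset.sum_congr rfl fun z _ => ?_
      rw [l1, r2, hsymm y' z, hsymm z x']; ring

end Pool.Agent.V7H82.TG.Kern
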