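import Mathlib
import Pool.Agent.W516.Four2

/-!
# An element without nontrivial relations of length four inside the blocks of eigenvectors

The eigenvectors of `ρ γ` are divided into blocks by the eigenvalues of the endomorphisms that commute
with a subgroup of finite index. If there are no nontrivial relations of length four inside the
blocks, the Lie algebra killing all Tate forms contains the symplectic Lie algebras of all blocks.
-/

set_option linter.unusedSectionVars false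

namespace Pool.Agent.V7H82.TG

open Module Pool.Agent.H204R3.CM Pool.Agent.H204R3.SP Pool.Agent.H204R3.GP Pool.Agent.W516.FT

noncomputable section

variable {Ω : Type*} [Field Ω] [CharZero Ω] {V : Type*} [AddCommGroup V] [Module Ω V]
  {R : Type*} [Fintype R] [DecidableEq R] (e : Basis R Ω V) {inv : R → R} {jj : R → Ω}
  (hinv : ∀ x, inv (inv x) = x) (hne : ∀ x, inv x ≠ x)
  (hjj : ∀ x, jj (inv x) = -jj x) (hj0 : ∀ x, jj x ≠ 0)
  (ω : V →ₗ[Ω] V →ₗ[Ω] Ω) (hω : ∀ x y, ω (e x) (e y) = JJ inv jj x y)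
  {Γ : Type*} [Group Γ] (ρ : Representation Ω Γ V) (χ : Γ →* Ω)

/-- Two eigenvectors in one block: all diagonal almost equivariant endomorphisms have the same
eigenvalues on them. -/
def SameBlock (x y : R) : Prop := ∀ c : R → Ω, AlmostEquivariant ρ (dg e c) → c x = c y

/-- Projections on the blocks. -/
def PrimProj (P : Module.End Ω V) : Prop :=
  AlmostEquivariant ρ P ∧ P * P = P ∧ ∀ T, AlmostEquivariant ρ T → ∃ c : Ω, T * P = c • P

theorem ae_conj (s : Γ) {P : Module.End Ω V} (hP : AlmostEquivariant ρ P) :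
    AlmostEquivariant ρ (ρ s⁻¹ * P * ρ s) := by
  obtain ⟨Δ, hΔ, hP⟩ := hP
  refine ⟨Δ.comap (MulAut.conj s).toMonoidHom, ⟨by
    rw [Subgroup.index_comap_of_surjective _ (MulAut.conj s).surjective]
    exact hΔ.index_ne_zero⟩, fun t ht v => ?_⟩
  have h1 : s * t * s⁻¹ ∈ Δ := by
    rw [Subgroup.mem_comap] at ht
    exact ht
  have h2 := hP _ h1 (ρ s v)
  have h3 : ∀ v, ρ (s * t * s⁻¹) (ρ s v) = ρ s (ρ t v) := by
    intro v
    rw [map_mul, map_mul, Module.End.mul_apply, Module.End.mul_apply, rho_inv]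
  rw [h3] at h2
  rw [Module.End.mul_apply, Module.End.mul_apply, Module.End.mul_apply, Module.End.mul_apply,
    h2, map_mul, map_mul, Module.End.mul_apply, Module.End.mul_apply, rho_inv]

theorem rho_mul_inv (s : Γ) : ρ s * ρ s⁻¹ = 1 := by rw [← map_mul, mul_inv_cancel, map_one]

theorem rho_inv_mul (s : Γ) : ρ s⁻¹ * ρ s = 1 := by rw [← map_mul, inv_mul_cancel, map_one]

theorem prim_conj (s : Γ) {P : Module.End Ω V} (hP : PrimProj ρ P) :
    PrimProj ρ (ρ s⁻¹ * P * ρ s) := by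
  obtain ⟨h1, h2, h3⟩ := hP
  refine ⟨ae_conj ρ s h1, ?_, fun T hT => ?_⟩
  · calc ρ s⁻¹ * P * ρ s * (ρ s⁻¹ * P * ρ s) = ρ s⁻¹ * P * (ρ s * ρ s⁻¹) * P * ρ s := by
          noncomm_ring
      _ = ρ s⁻¹ * (P * P) * ρ s := by rw [rho_mul_inv, mul_one, mul_assoc (ρ s⁻¹) P P]
      _ = ρ s⁻¹ * P * ρ s := by rw [h2]
  · have hT' : AlmostEquivariant ρ (ρ s * T * ρ s⁻¹) := by
      have := ae_conj ρ s⁻¹ hT
      rwa [inv_inv] at this
    obtain ⟨c, hc⟩ := h3 _ hT'
    refine ⟨c, ?_⟩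
    calc T * (ρ s⁻¹ * P * ρ s) = (ρ s⁻¹ * ρ s) * T * (ρ s⁻¹ * P * ρ s) := by
          rw [rho_inv_mul, one_mul]
      _ = ρ s⁻¹ * (ρ s * T * ρ s⁻¹ * P) * ρ s := by noncomm_ring
      _ = c • (ρ s⁻¹ * P * ρ s) := by
          rw [hc, mul_smul_comm, smul_mul_assoc]

/-- The infinitesimal isometries which normalize the projections to the blocks of the Lie algebra
killing all Tate forms, and commute with all almost equivariant endomorphisms. -/
def nB : Submodule Ω (Module.End Ω V) where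
  carrier := {Y | (∀ u w, ω (Y u) w + ω u (Y w) = 0) ∧
    (∀ P, PrimProj ρ P → ∀ X ∈ lieT ρ χ, ∃ Z ∈ lieT ρ χ, P * (Y * X - X * Y) = P * Z) ∧
    ∀ P, AlmostEquivariant ρ P → Y * P = P * Y}
  zero_mem' := by
    refine ⟨fun u w => ?_, fun P _ X _ => ⟨0, Submodule.zero_mem _, ?_⟩, fun P _ => ?_⟩
    · simp
    · simp
    · simp
  add_mem' := by
    rintro Y Z ⟨hY1, hY2, hY3⟩ ⟨hZ1, hZ2, hZ3⟩
    refine ⟨fun u w => ?_, fun P hP X hX => ?_, fun P hP => ?_⟩
    · have h1 := hY1 u w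
      have h2 := hZ1 u w
      rw [LinearMap.add_apply, LinearMap.add_apply, map_add, map_add, LinearMap.add_apply]
      linear_combination h1 + h2
    · obtain ⟨A, hA, hA'⟩ := hY2 P hP X hX
      obtain ⟨B, hB, hB'⟩ := hZ2 P hP X hX
      refine ⟨A + B, Submodule.add_mem _ hA hB, ?_⟩
      have h1 : (Y + Z) * X - X * (Y + Z) = (Y * X - X * Y) + (Z * X - X * Z) := by
        rw [add_mul, mul_add]
        abel
      rw [h1, mul_add, hA', hB', mul_add]
    · rw [add_mul, mul_add, hY3 P hP, hZ3 P hP]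
  smul_mem' := by
    rintro c Y ⟨hY1, hY2, hY3⟩
    refine ⟨fun u w => ?_, fun P hP X hX => ?_, fun P hP => ?_⟩
    · have h1 := hY1 u w
      rw [LinearMap.smul_apply, LinearMap.smul_apply, map_smul, map_smul, LinearMap.smul_apply,
        smul_eq_mul, smul_eq_mul]
      linear_combination c * h1
    · obtain ⟨A, hA, hA'⟩ := hY2 P hP X hX
      refine ⟨c • A, Submodule.smul_mem _ _ hA, ?_⟩
      rw [smul_mul_assoc, mul_smul_comm, ← smul_sub, mul_smul_comm, hA', mul_smul_comm]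
    · rw [smul_mul_assoc, mul_smul_comm, hY3 P hP]

theorem nB_bracket : ∀ X ∈ nB ω ρ χ, ∀ Y ∈ nB ω ρ χ, X * Y - Y * X ∈ nB ω ρ χ := by
  rintro Y ⟨hY1, hY2, hY3⟩ Z ⟨hZ1, hZ2, hZ3⟩
  refine ⟨fun u w => ?_, fun P hP X hX => ?_, fun P hP => ?_⟩
  · have h1 := hY1 (Z u) w
    have h2 := hZ1 u (Y w)
    have h3 := hZ1 (Y u) w
    have h4 := hY1 u (Z w)
    rw [LinearMap.sub_apply, LinearMap.sub_apply, Module.End.mul_apply, Module.End.mul_apply,
      Module.End.mul_apply, Module.End.mul_apply, map_sub, map_sub, LinearMap.sub_apply]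
    linear_combination h1 - h2 - h3 + h4
  · obtain ⟨A, hA, hA'⟩ := hZ2 P hP X hX
    obtain ⟨A₂, hA₂, hA₂'⟩ := hY2 P hP A hA
    obtain ⟨B, hB, hB'⟩ := hY2 P hP X hX
    obtain ⟨B₂, hB₂, hB₂'⟩ := hZ2 P hP B hB
    refine ⟨A₂ - B₂, Submodule.sub_mem _ hA₂ hB₂, ?_⟩
    have hYP := hY3 P hP.1
    have hZP := hZ3 P hP.1
    have h1 : P * ((Y * Z - Z * Y) * X - X * (Y * Z - Z * Y)) =
        ((P * Y) * (Z * X - X * Z) - (P * (Z * X - X * Z)) * Y) -
        ((P * Z) * (Y * X - X * Y) - (P * (Y * X - X * Y)) * Z) := by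
      noncomm_ring
    rw [h1, ← hYP, ← hZP, mul_assoc Y P, mul_assoc Z P, hA', hB', ← mul_assoc Y P, ← mul_assoc Z P,
      hYP, hZP, mul_sub, ← hA₂', ← hB₂']
    noncomm_ring
  · have hYP := hY3 P hP
    have hZP := hZ3 P hP
    have e1 : Y * Z * P = P * (Y * Z) := by
      rw [mul_assoc, hZP, ← mul_assoc, hYP, mul_assoc]
    have e2 : Z * Y * P = P * (Z * Y) := by
      rw [mul_assoc, hYP, ← mul_assoc, hZP, mul_assoc]
    rw [sub_mul, mul_sub, e1, e2]

theorem nB_sp : ∀ X ∈ nB ω ρ χ, ∀ u w, ω (X u) w + ω u (X w) = 0 :=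
  fun _ hX => hX.1

theorem nB_comm (Δ : Subgroup Γ) (hΔ : Δ.FiniteIndex) (P : Module.End Ω V)
    (hP : ∀ s ∈ Δ, ∀ v, P (ρ s v) = ρ s (P v)) :
    ∀ X ∈ nB ω ρ χ, ∀ v, X (P v) = P (X v) := fun _ hX v =>
  congrArg (fun T : Module.End Ω V => T v) (hX.2.2 P ⟨Δ, hΔ, hP⟩)

theorem nB_conj (hωρ : ∀ s u v, ω (ρ s u) (ρ s v) = χ s * ω u v) (s : Γ) (Y : Module.End Ω V)
    (hY : Y ∈ nB ω ρ χ) : ρ s * Y * ρ s⁻¹ ∈ nB ω ρ χ := by
  obtain ⟨hY1, hY2, hY3⟩ := hY
  refine ⟨fun u w => ?_, fun P hP X hX => ?_, fun P hP => ?_⟩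
  · have h1 := hY1 (ρ s⁻¹ u) (ρ s⁻¹ w)
    have h2 := hωρ s (Y (ρ s⁻¹ u)) (ρ s⁻¹ w)
    have h3 := hωρ s (ρ s⁻¹ u) (Y (ρ s⁻¹ w))
    rw [rho_inv'] at h2 h3
    rw [Module.End.mul_apply, Module.End.mul_apply, Module.End.mul_apply, Module.End.mul_apply,
      h2, h3]
    linear_combination χ s * h1
  · have h1 := lieT_conj ρ χ s⁻¹ hX
    rw [inv_inv] at h1
    obtain ⟨Z, hZ, hZ'⟩ := hY2 _ (prim_conj ρ s hP) _ h1
    refine ⟨_, lieT_conj ρ χ s hZ, ?_⟩
    have h3 := rho_mul_inv ρ s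
    have h4 := congrArg (fun T => ρ s * T * ρ s⁻¹) hZ'
    have h5 : ρ s * (ρ s⁻¹ * P * ρ s * (Y * (ρ s⁻¹ * X * ρ s) - ρ s⁻¹ * X * ρ s * Y)) * ρ s⁻¹ =
        (ρ s * ρ s⁻¹) * P * (ρ s * Y * ρ s⁻¹ * X * (ρ s * ρ s⁻¹) -
          (ρ s * ρ s⁻¹) * X * (ρ s * Y * ρ s⁻¹)) := by
      noncomm_ring
    have h6 : ρ s * (ρ s⁻¹ * P * ρ s * Z) * ρ s⁻¹ = (ρ s * ρ s⁻¹) * P * (ρ s * Z * ρ s⁻¹) := by
      noncomm_ring
    rw [h5, h6, h3, one_mul, mul_one, one_mul] at h4
    exact h4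
  · have h1 := hY3 _ (ae_conj ρ s hP)
    have h2 := congrArg (fun T => ρ s * T * ρ s⁻¹) h1
    have h3 := rho_mul_inv ρ s
    have h4 : ρ s * (Y * (ρ s⁻¹ * P * ρ s)) * ρ s⁻¹ =
        ρ s * Y * ρ s⁻¹ * P * (ρ s * ρ s⁻¹) := by noncomm_ring
    have h5 : ρ s * (ρ s⁻¹ * P * ρ s * Y) * ρ s⁻¹ =
        (ρ s * ρ s⁻¹) * P * (ρ s * Y * ρ s⁻¹) := by noncomm_ring
    rw [h4, h5, h3, mul_one, one_mul] at h2
    exact h2

variable {γ : Γ} {a : R → Ω} (hγ : ∀ x, ρ γ (e x) = a x • e x)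
  {q : Ω} (hq0 : q ≠ 0) (hq : ∀ x, a x * a (inv x) = q) (hχ : χ γ = q)
  (hωρ : ∀ s u v, ω (ρ s u) (ρ s v) = χ s * ω u v) (hss : HasProj ρ)
  (hdist : ∀ M : ℕ, 0 < M → ∀ x y, a x ^ M = a y ^ M → x = y)
  (hsq : ∀ x y z, a y * a z = a x * a x → y = x)
  (hblk : ∀ x y z w : R, SameBlock e ρ x y → SameBlock e ρ x z → SameBlock e ρ x w →
    a x * a y * a z * a w = q ^ 2 →
    (y = inv x ∧ w = inv z) ∨ (z = inv x ∧ w = inv y) ∨ (w = inv x ∧ z = inv y))
  (hsym : ∀ B : V →ₗ[Ω] V →ₗ[Ω] Ω, (∀ u w, B u w = B w u) → IsTate2 ρ χ B → B = 0)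

include hγ hdist in
/-- Almost equivariant endomorphisms are diagonal. -/
theorem ae_diag {P : Module.End Ω V} (hP : AlmostEquivariant ρ P) :
    P = dg e (fun x => e.repr (P (e x)) x) := by
  refine e.ext fun x => e.repr.injective (Finsupp.ext fun z => ?_)
  rw [dg_basis, map_smul, Finsupp.smul_apply, e.repr_self, Finsupp.single_apply, smul_eq_mul]
  by_cases h : x = z
  · subst h
    rw [if_pos rfl, mul_one]
  · rw [if_neg h, mul_zero]
    by_contra h0
    exact h (diag_of_almost e ρ hγ hdist hP h0).symm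

theorem dg_repr (c : R → Ω) (v : V) (z : R) : e.repr (dg e c v) z = c z * e.repr v z := by
  conv_lhs => rw [← e.sum_repr v]
  rw [map_sum, map_sum, Finsupp.finsetSum_apply, Finset.sum_eq_single z]
  · rw [map_smul, dg_basis, map_smul, map_smul, e.repr_self, Finsupp.smul_apply,
      Finsupp.smul_apply, Finsupp.single_eq_same, smul_eq_mul, smul_eq_mul]
    ring
  · intro b _ hb
    rw [map_smul, dg_basis, map_smul, map_smul, e.repr_self, Finsupp.smul_apply,
      Finsupp.smul_apply, Finsupp.single_eq_of_ne hb.symm, smul_zero, smul_zero]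
  · intro h
    exact absurd (Finset.mem_univ _) h

theorem sameBlock_refl (x : R) : SameBlock e ρ x x := fun _ _ => rfl

theorem SameBlock.symm' {x y : R} (h : SameBlock e ρ x y) : SameBlock e ρ y x :=
  fun c hc => (h c hc).symm

theorem SameBlock.trans' {x y z : R} (h : SameBlock e ρ x y) (h' : SameBlock e ρ y z) :
    SameBlock e ρ x z := fun c hc => (h c hc).trans (h' c hc)

include hωρ hsym hω hinv hjj in
/-- Almost equivariant endomorphisms are self-adjoint. -/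
theorem ae_self {T : Module.End Ω V} (hT : AlmostEquivariant ρ T) (u v : V) :
    ω (T u) v = ω u (T v) := by
  let B : V →ₗ[Ω] V →ₗ[Ω] Ω := ω.comp T - ω.compl₂ T
  have hB : ∀ u v, B u v = ω (T u) v - ω u (T v) := fun _ _ => rfl
  have h1 : B = 0 := by
    refine hsym B (fun u w => ?_) ?_
    · rw [hB, hB, om_anti e hinv hjj ω hω (T w) u, om_anti e hinv hjj ω hω w (T u)]
      ring
    · obtain ⟨Δ, hΔ, h⟩ := hT
      refine ⟨Δ, hΔ, fun s hs u v => ?_⟩
      rw [hB, hB, h s hs, h s hs, hωρ, hωρ]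
      ring
  have h2 := hB u v
  rw [h1, LinearMap.zero_apply, LinearMap.zero_apply] at h2
  exact sub_eq_zero.1 h2.symm

include hωρ hsym hω hinv hjj hj0 in
theorem sameBlock_inv (x : R) : SameBlock e ρ x (inv x) := by
  intro c hc
  have h1 := ae_self e hinv hjj ω hω ρ χ hωρ hsym hc (e x) (e (inv x))
  rw [dg_basis, dg_basis, map_smul, map_smul, LinearMap.smul_apply, hω, smul_eq_mul,
    smul_eq_mul] at h1
  have h2 : JJ inv jj x (inv x) ≠ 0 := by
    unfold JJ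
    rw [if_pos rfl]
    exact hj0 x
  exact mul_right_cancel₀ h2 h1

include hinv hq hblk hωρ hsym hω hjj hj0 hne in
theorem blk_ratio (t : R) (x z x' z' : R) (hxz : SameBlock e ρ x z) (hxx : SameBlock e ρ x x')
    (hxz' : SameBlock e ρ x z') (ha : ∀ x, a x ≠ 0) (h : a z / a x = a z' / a x') :
    (dd inv t z - dd inv t x : Ω) = dd inv t z' - dd inv t x' := by
  have hneg : ∀ y, (dd inv t (inv y) : Ω) = -dd inv t y := by
    intro y
    have e1 : (inv y = t) ↔ (y = inv t) :=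
      ⟨fun h => by rw [← h, hinv], fun h => by rw [h, hinv]⟩
    have e2 : (inv y = inv t) ↔ (y = t) :=
      ⟨fun h => by rw [← hinv y, h, hinv], fun h => by rw [h]⟩
    unfold dd
    simp only [e1, e2]
    ring
  have h1 : a z * a x' = a z' * a x := by
    rw [div_eq_div_iff (ha x) (ha x')] at h
    exact h
  have h2 : a z * a x' * a (inv z') * a (inv x) = q ^ 2 := by
    rw [h1]
    have e1 := hq z'
    have e2 := hq x
    linear_combination (a x * a (inv x)) * e1 + q * e2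
  have hI := sameBlock_inv e hinv hjj hj0 ω hω ρ χ hωρ hsym
  rcases hblk _ _ _ _ ((hxz.symm').trans' e ρ hxx)
    (((hxz.symm').trans' e ρ hxz').trans' e ρ (hI z'))
    ((hxz.symm').trans' e ρ (hI x)) h2 with h | h | h
  · obtain ⟨h5, h6⟩ := h
    have h7 : z' = inv x := by rw [h6, hinv]
    rw [h5, h7, hneg, hneg]
    ring
  · obtain ⟨h5, h6⟩ := h
    have h7 : z = z' := by rw [← hinv z, ← h5, hinv]
    have h8 : x = x' := by rw [← hinv x, h6, hinv]
    rw [h7, h8]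
  · obtain ⟨h5, h6⟩ := h
    have h7 : z = x := by rw [← hinv z, ← h5, hinv]
    have h8 : z' = x' := by rw [← hinv z', h6, hinv]
    rw [h7, h8]
    ring

end

end Pool.Agent.V7H82.TG
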