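import Mathlib
import Pool.Agent.V7H82.TG.Blk

/-!
# The Lie algebra contains the symplectic Lie algebras of the blocks
-/

set_option linter.unusedSectionVars false

namespace Pool.Agent.V7H82.TG

open Module Pool.Agent.H204R3.CM Pool.Agent.H204R3.SP Pool.Agent.H204R3.GP Pool.Agent.W516.FT

noncomputable section

variable {Ω : Type*} [Field Ω] [CharZero Ω] {V : Type*} [AddCommGroup V] [Module Ω V]
  {R : Type*} [Fintype R] [DecidableEq R] (e : Basis R Ω V) {inv : R → R} {jj : R → Ω}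
  (hinv : ∀ x, inv (inv x) = x) (hne : ∀ x, inv x ≠ x)
  (hjj : ∀ x, jj (inv x) = -jj x) (hj0 : ∀ x, jj x ≠ 0)
  (ω : V →ₗ[Ω] V →ₗ[Ω] Ω) (hω : ∀ x y, ω (e x) (e y) = JJ inv jj x y)
  {Γ : Type*} [Group Γ] (ρ : Representation Ω Γ V) (χ : Γ →* Ω)
  {γ : Γ} {a : R → Ω} (hγ : ∀ x, ρ γ (e x) = a x • e x)
  {q : Ω} (hq0 : q ≠ 0) (hq : ∀ x, a x * a (inv x) = q) (hχ : χ γ = q)
  (hωρ : ∀ s u v, ω (ρ s u) (ρ s v) = χ s * ω u v) (hss : HasProj ρ)
  (hdist : ∀ M : ℕ, 0 < M → ∀ x y, a x ^ M = a y ^ M → x = y)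
  (hsq : ∀ x y z, a y * a z = a x * a x → y = x)
  (hblk : ∀ x y z w : R, SameBlock e ρ x y → SameBlock e ρ x z → SameBlock e ρ x w →
    a x * a y * a z * a w = q ^ 2 →
    (y = inv x ∧ w = inv z) ∨ (z = inv x ∧ w = inv y) ∨ (w = inv x ∧ z = inv y))
  (hsym : ∀ B : V →ₗ[Ω] V →ₗ[Ω] Ω, (∀ u w, B u w = B w u) → IsTate2 ρ χ B → B = 0)

theorem dg_inj {c c' : R → Ω} (h : dg e c = dg e c') : c = c' := by
  funext x
  have h1 := congrArg (fun T : Module.End Ω V => e.repr (T (e x)) x) h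
  simp only [dg_repr, e.repr_self, Finsupp.single_eq_same, mul_one] at h1
  exact h1

theorem dg_mul (c c' : R → Ω) : dg e c * dg e c' = dg e (fun x => c x * c' x) := by
  refine e.ext fun x => ?_
  rw [Module.End.mul_apply, dg_basis, map_smul, dg_basis, dg_basis, smul_smul, mul_comm]

theorem dg_smul (k : Ω) (c : R → Ω) : k • dg e c = dg e (fun x => k * c x) := by
  refine e.ext fun x => ?_
  rw [LinearMap.smul_apply, dg_basis, dg_basis, smul_smul]

include hγ hdist in
/-- The structure of the projections on the blocks. -/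
theorem prim_struct {P : Module.End Ω V} (hP : PrimProj ρ P) :
    ∃ c : R → Ω, P = dg e c ∧ (∀ x, c x = 0 ∨ c x = 1) ∧
      ∀ x y, c x = 1 → c y = 1 → SameBlock e ρ x y := by
  obtain ⟨h1, h2, h3⟩ := hP
  refine ⟨_, ae_diag e ρ hγ hdist h1, fun x => ?_, fun x y hx hy t ht => ?_⟩
  · have h4 := h2
    rw [ae_diag e ρ hγ hdist h1, dg_mul] at h4
    have h5 := congrFun (dg_inj e h4) x
    have h6 : e.repr (P (e x)) x * (e.repr (P (e x)) x - 1) = 0 := by linear_combination h5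
    rcases mul_eq_zero.1 h6 with h | h
    · exact Or.inl h
    · exact Or.inr (sub_eq_zero.1 h)
  · obtain ⟨k, hk⟩ := h3 _ ht
    rw [ae_diag e ρ hγ hdist h1, dg_mul, dg_smul] at hk
    have h4 := congrFun (dg_inj e hk) x
    have h5 := congrFun (dg_inj e hk) y
    rw [hx, mul_one, mul_one] at h4
    rw [hy, mul_one, mul_one] at h5
    rw [h4, h5]

include hωρ hω hinv hjj hj0 in
/-- The Lie algebra is compatible with the blocks. -/
theorem lieT_comm {X : Module.End Ω V} (hX : X ∈ lieT ρ χ) {P : Module.End Ω V}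
    (hP : AlmostEquivariant ρ P) : X * P = P * X := by
  have hnd : ∀ u, (∀ w, ω u w = 0) → u = 0 := by
    intro u hu
    rw [← LinearEquiv.map_eq_zero_iff e.repr]
    ext z
    have h1 := hu (e (inv z))
    rw [← e.sum_repr u, map_sum, LinearMap.sum_apply, Finset.sum_eq_single z] at h1
    · rw [map_smul, LinearMap.smul_apply, hω, smul_eq_mul] at h1
      refine (mul_eq_zero.1 h1).resolve_right ?_
      unfold JJ
      rw [if_pos rfl]
      exact hj0 z
    · intro b _ hb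
      rw [map_smul, LinearMap.smul_apply, hω, smul_eq_mul]
      unfold JJ
      rw [if_neg, mul_zero]
      intro h
      exact hb (by rw [← hinv b, ← h, hinv])
    · intro h
      exact absurd (Finset.mem_univ _) h
  have h := (lieT_le_nrm ω ρ χ hωρ hnd hX).2.2 P hP
  exact LinearMap.ext fun v => h v

include hωρ hω hinv hjj hj0 in
theorem lieT_block {X : Module.End Ω V} (hX : X ∈ lieT ρ χ) {c : R → Ω}
    (hc : AlmostEquivariant ρ (dg e c)) {x z : R} (h : e.repr (X (e x)) z ≠ 0) : c x = c z := by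
  have h1 := lieT_comm e hinv hjj hj0 ω hω ρ χ hωρ hX hc
  have h2 := congrArg (fun T : Module.End Ω V => e.repr (T (e x)) z) h1
  simp only [Module.End.mul_apply, dg_basis, map_smul, Finsupp.smul_apply, smul_eq_mul,
    dg_repr] at h2
  exact mul_right_cancel₀ h h2

include hinv hne hjj hj0 hω hγ hq0 hq hωρ hdist hblk hsym in
/-- The diagonal torus is in the normalizer. -/
theorem DD_nB (y : R) : DD e inv y ∈ nB ω ρ χ := by
  classical
  refine ⟨DD_sp e hinv hjj ω hω y, fun P hP X hX => ?_, fun P hP => ?_⟩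
  · obtain ⟨c, rfl, hc01, hcb⟩ := prim_struct e ρ hγ hdist hP
    have ha := eig_ne_zero e ρ hγ
    let r : {s : R × R // c s.1 = 1 ∧ c s.2 = 1} → Ω := fun s => a s.1.2 / a s.1.1
    let v : {s : R × R // c s.1 = 1 ∧ c s.2 = 1} → Ω := fun s => dd inv y s.1.2 - dd inv y s.1.1
    let f : Ω → Ω := Function.extend r v 0
    have hf : ∀ x z, c x = 1 → c z = 1 → f (a z / a x) = dd inv y z - dd inv y x := by
      intro x z hx hz
      have h1 : Function.FactorsThrough v r := by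
        intro s s' h
        exact blk_ratio e hinv hne hjj hj0 ω hω ρ χ hq hωρ hblk hsym y _ _ _ _
          (hcb _ _ s.2.1 s.2.2) (hcb _ _ s.2.1 s'.2.1) (hcb _ _ s.2.1 s'.2.2) ha h
      exact h1.extend_apply 0 ⟨(x, z), hx, hz⟩
    obtain ⟨Y, hY, hY'⟩ := ratio_mem e ρ χ hγ (fun x z => f (a z / a x))
      (fun x z x' z' h => by rw [h]) X hX
    refine ⟨Y, hY, ?_⟩
    refine e.ext fun x => e.repr.injective (Finsupp.ext fun z => ?_)
    rw [Module.End.mul_apply, Module.End.mul_apply, dg_repr, dg_repr, hY', LinearMap.sub_apply,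
      Module.End.mul_apply, Module.End.mul_apply, map_sub, Finsupp.sub_apply, DD_repr, DD_basis,
      map_smul, map_smul, Finsupp.smul_apply, smul_eq_mul]
    rcases hc01 z with hz | hz
    · rw [hz, zero_mul, zero_mul]
    · by_cases h0 : e.repr (X (e x)) z = 0
      · rw [h0]
        ring
      · have hx : c x = 1 := by
          rw [← hz]
          exact lieT_block e hinv hjj hj0 ω hω ρ χ hωρ hX hP.1 h0
        rw [hf x z hx hz]
        ring
  · rw [ae_diag e ρ hγ hdist hP]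
    refine e.ext fun x => ?_
    rw [Module.End.mul_apply, Module.End.mul_apply, dg_basis, map_smul, DD_basis, map_smul,
      dg_basis, smul_comm]

include hinv hne hjj hj0 hω hγ hq0 hq hωρ hdist hblk hsym hss in
theorem bCC_symm {x z : R} (hz : z ∈ CC e (nB ω ρ χ) ω inv x) : x ∈ CC e (nB ω ρ χ) ω inv z :=
  CC_symm e (nB ω ρ χ) (nB_bracket ω ρ χ)
    (DD_nB e hinv hne hjj hj0 ω hω ρ χ hγ hq0 hq hωρ hdist hblk hsym) hinv hne
    hjj hj0 ω hω (nB_sp ω ρ χ) ρ (nB_conj ω ρ χ hωρ) hss (nB_comm ω ρ χ) hz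

include hinv hne hjj hj0 hω hγ hq0 hq hωρ hdist hblk hsym in
theorem bCC_trans {x z w : R} (hz : z ∈ CC e (nB ω ρ χ) ω inv x)
    (hw : w ∈ CC e (nB ω ρ χ) ω inv z) : w ∈ CC e (nB ω ρ χ) ω inv x :=
  CC_trans e (nB ω ρ χ) (nB_bracket ω ρ χ)
    (DD_nB e hinv hne hjj hj0 ω hω ρ χ hγ hq0 hq hωρ hdist hblk hsym) hinv hne
    hjj hj0 ω hω (nB_sp ω ρ χ) hz hw

include hinv hne hjj hj0 hω hγ hq0 hq hωρ hdist hblk hsym in
/-- Diagonal endomorphisms that are constant on the classes are almost equivariant. -/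
theorem bdg_almost (c : R → Ω) (hc : ∀ y, ∀ z ∈ CC e (nB ω ρ χ) ω inv y, c z = c y) :
    AlmostEquivariant ρ (dg e c) := by
  have hD := DD_nB e hinv hne hjj hj0 ω hω ρ χ hγ hq0 hq hωρ hdist hblk hsym
  choose Δx hΔx hΔx' using fun x : R => exists_stabilizer e (nB ω ρ χ) hD hne ρ
    (nB_conj ω ρ χ hωρ) (Submodule.span Ω (e '' CC e (nB ω ρ χ) ω inv x))
    (UU_stable e (nB ω ρ χ) (nB_bracket ω ρ χ) hD hinv hne hjj hj0 ω hω (nB_sp ω ρ χ) x)
  have h0 : ∀ (y : R), ∀ v ∈ Submodule.span Ω (e '' CC e (nB ω ρ χ) ω inv y),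
      dg e c v = c y • v := by
    intro y v hv
    induction hv using Submodule.span_induction with
    | mem v hv =>
      obtain ⟨z, hz, rfl⟩ := hv
      rw [dg_basis, hc y z hz]
    | zero => rw [map_zero, smul_zero]
    | add a b _ _ ha hb => rw [map_add, ha, hb, smul_add]
    | smul c' a _ ha => rw [map_smul, ha, smul_comm]
  refine ⟨⨅ x, Δx x, Subgroup.finiteIndex_iInf hΔx, fun s hs v => ?_⟩
  have h2 : (dg e c).comp (ρ s) = (ρ s).comp (dg e c) := by
    refine e.ext fun y => ?_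
    rw [LinearMap.comp_apply, LinearMap.comp_apply, h0 y (ρ s (e y)) (hΔx' y s
      ((Subgroup.mem_iInf.1 hs) y) _ (Submodule.subset_span ⟨y, Or.inl rfl, rfl⟩)), dg_basis,
      map_smul]
  exact congrArg (fun T : Module.End Ω V => T v) h2

open Classical in
/-- The indicator function of a class. -/
def ind (ω : V →ₗ[Ω] V →ₗ[Ω] Ω) (inv : R → R) (χ : Γ →* Ω) (x : R) : R → Ω :=
  fun z => if z ∈ CC e (nB ω ρ χ) ω inv x then 1 else 0

include hinv hne hjj hj0 hω hγ hq0 hq hωρ hdist hblk hsym hss in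
theorem ind_ae (x : R) : AlmostEquivariant ρ (dg e (ind e ρ ω inv χ x)) := by
  refine bdg_almost e hinv hne hjj hj0 ω hω ρ χ hγ hq0 hq hωρ hdist hblk hsym _ fun y z hz => ?_
  have hiff : z ∈ CC e (nB ω ρ χ) ω inv x ↔ y ∈ CC e (nB ω ρ χ) ω inv x := by
    constructor
    · intro h
      exact bCC_trans e hinv hne hjj hj0 ω hω ρ χ hγ hq0 hq hωρ hdist hblk hsym h
        (bCC_symm e hinv hne hjj hj0 ω hω ρ χ hγ hq0 hq hωρ hss hdist hblk hsym hz)
    · intro h
      exact bCC_trans e hinv hne hjj hj0 ω hω ρ χ hγ hq0 hq hωρ hdist hblk hsym h hz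
  unfold ind
  rw [hiff]

include hinv hne hjj hj0 hω hγ hq0 hq hωρ hdist hblk hsym hss in
/-- Blocks are contained in classes. -/
theorem mem_CC_of_block {x z : R} (h : SameBlock e ρ x z) : z ∈ CC e (nB ω ρ χ) ω inv x := by
  have h1 := h _ (ind_ae e hinv hne hjj hj0 ω hω ρ χ hγ hq0 hq hωρ hss hdist hblk hsym x)
  have h2 : ind e ρ ω inv χ x x = 1 := if_pos (mem_CC_self e (nB ω ρ χ) ω x)
  rw [h2] at h1
  by_contra h3
  have h4 : ind e ρ ω inv χ x z = 0 := if_neg h3
  rw [h4] at h1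
  exact one_ne_zero h1

include hinv hne hjj hj0 hω hγ hq0 hq hωρ hdist hblk hsym hss in
/-- Classes are contained in blocks. -/
theorem block_of_mem_CC {x z : R} (h : z ∈ CC e (nB ω ρ χ) ω inv x) : SameBlock e ρ x z := by
  rcases h with h | h
  · rw [h]
    exact sameBlock_refl e ρ x
  by_cases hzx : z = x
  · rw [hzx]
    exact sameBlock_refl e ρ x
  intro c hc
  have h1 := h.2.2 _ hc
  have h2 := congrArg (fun T : Module.End Ω V => e.repr (T (e x)) z) h1
  simp only [Module.End.mul_apply, dg_basis, map_smul, Finsupp.smul_apply, smul_eq_mul,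
    dg_repr] at h2
  exact mul_right_cancel₀ (coeff_ne e hinv hjj hj0 ω hω hzx) h2

include hinv hne hjj hj0 hω hγ hq0 hq hωρ hdist hblk hsym hss in
theorem ind_prim (x : R) : PrimProj ρ (dg e (ind e ρ ω inv χ x)) := by
  refine ⟨ind_ae e hinv hne hjj hj0 ω hω ρ χ hγ hq0 hq hωρ hss hdist hblk hsym x, ?_,
    fun T hT => ?_⟩
  · rw [dg_mul]
    congr 1
    funext z
    unfold ind
    split_ifs <;> simp
  · have h1 := ae_diag e ρ hγ hdist hT
    refine ⟨e.repr (T (e x)) x, ?_⟩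
    rw [h1, dg_mul, dg_smul]
    congr 1
    funext z
    rw [dg_basis, map_smul, Finsupp.smul_apply, e.repr_self, Finsupp.single_eq_same, smul_eq_mul,
      mul_one]
    by_cases hz : z ∈ CC e (nB ω ρ χ) ω inv x
    · have h2 : ind e ρ ω inv χ x z = 1 := if_pos hz
      rw [h2, mul_one, mul_one]
      rw [h1] at hT
      exact (block_of_mem_CC e hinv hne hjj hj0 ω hω ρ χ hγ hq0 hq hωρ hss hdist hblk hsym
        hz _ hT).symm
    · have h2 : ind e ρ ω inv χ x z = 0 := if_neg hz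
      rw [h2, mul_zero, mul_zero]

end

end Pool.Agent.V7H82.TG
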