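import Mathlib
import Pool.Agent.V7H82.TG.Blk2

/-!
# Tate forms are generated in degree two if there are no nontrivial relations inside the blocks
-/

set_option linter.unusedSectionVars false

namespace Pool.Agent.V7H82.TG

open Module Pool.Agent.H204R3.CM Pool.Agent.H204R3.SP Pool.Agent.H204R3.GP Pool.Agent.W516.FT

noncomputable section

variable {Ω : Type*} [Field Ω] [CharZero Ω] {V : Type*} [AddCommGroup V] [Module Ω V]
  {R : Type*} [Fintype R] [DecidableEq R] (e : Basis R Ω V) {inv : R → R} {jj : R → Ω}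
  (hinv : ∀ x, inv (inv x) = x) (hne : ∀ x, inv x ≠ x)
  (hjj : ∀ x, jj (inv x) = -jj x) (hj0 : ∀ x, jj x ≠ 0)
  (ω : V →ₗ[Ω] V →ₗ[Ω] Ω) (hω : ∀ x y, ω (e x) (e y) = JJ inv jj x y)
  {Γ : Type*} [Group Γ] (ρ : Representation Ω Γ V) (χ : Γ →* Ω)
  {γ : Γ} {a : R → Ω} (hγ : ∀ x, ρ γ (e x) = a x • e x)
  {q : Ω} (hq0 : q ≠ 0) (hq : ∀ x, a x * a (inv x) = q) (hχ : χ γ = q)
  (hωρ : ∀ s u v, ω (ρ s u) (ρ s v) = χ s * ω u v) (hss : HasProj ρ)
  (hdist : ∀ M : ℕ, 0 < M → ∀ x y, a x ^ M = a y ^ M → x = y)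
  (hsq : ∀ x y z, a y * a z = a x * a x → y = x)
  (hblk : ∀ x y z w : R, SameBlock e ρ x y → SameBlock e ρ x z → SameBlock e ρ x w →
    a x * a y * a z * a w = q ^ 2 →
    (y = inv x ∧ w = inv z) ∨ (z = inv x ∧ w = inv y) ∨ (w = inv x ∧ z = inv y))
  (hsym : ∀ B : V →ₗ[Ω] V →ₗ[Ω] Ω, (∀ u w, B u w = B w u) → IsTate2 ρ χ B → B = 0)

include hinv hne hjj hj0 hω hγ hq0 hq hχ hωρ hdist hblk hsym hss in
/-- The root vectors of a block are the components of elements of the Lie algebra. -/
theorem exists_lift_root {b c : R} (hbc : SameBlock e ρ b c) (hcb : c ≠ inv b) :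
    ∃ Z ∈ lieT ρ χ, ∀ x z, SameBlock e ρ b z →
      e.repr (Z (e x)) z = e.repr (SS ω (e b) (e c) (e x)) z := by
  have hI := sameBlock_inv e hinv hjj hj0 ω hω ρ χ hωρ hsym
  have ha := eig_ne_zero e ρ hγ
  have hmem : c ∈ CC e (nB ω ρ χ) ω inv (inv b) :=
    mem_CC_of_block e hinv hne hjj hj0 ω hω ρ χ hγ hq0 hq hωρ hss hdist hblk hsym
      (((hI b).symm').trans' e ρ hbc)
  have hSS : SS ω (e b) (e c) ∈ nB ω ρ χ := by
    rcases hmem with h | h
    · exact absurd h hcb
    · rwa [hinv] at h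
  have ht0 : a b * a c / q ≠ 0 := div_ne_zero (mul_ne_zero (ha b) (ha c)) hq0
  obtain ⟨F, hF, hFt⟩ := exists_log ht0 (by
    intro M hM h1
    apply hcb
    rw [div_pow, div_eq_one_iff_eq (pow_ne_zero _ hq0)] at h1
    apply hdist M hM
    have h2 : a b ^ M ≠ 0 := pow_ne_zero _ (ha b)
    apply mul_left_cancel₀ h2
    rw [← mul_pow, ← mul_pow, h1, hq])
  obtain ⟨Z, hZ, hZ'⟩ := hSS.2.1 _
    (ind_prim e hinv hne hjj hj0 ω hω ρ χ hγ hq0 hq hωρ hss hdist hblk hsym b) _
    (log_mem e ρ χ hγ hq0 hq hχ hF)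
  rw [SS_dg e hinv ω hω _ (by
    intro y
    have h2 := hF _ _ (ha y) (ha (inv y))
    rw [hq] at h2
    linear_combination -h2)] at hZ'
  have h3 : F (a b * a c / q) = F (a b) + F (a c) - F q := by
    have h4 := hF (a b * a c / q) q ht0 hq0
    rw [div_mul_cancel₀ _ hq0, hF _ _ (ha b) (ha c)] at h4
    linear_combination -h4
  set k : Ω := -(F (a b) - F q / 2 + (F (a c) - F q / 2)) with hk
  have hk0 : k ≠ 0 := by
    intro h5
    apply hFt
    rw [h3]
    linear_combination -h5
  refine ⟨k⁻¹ • Z, Submodule.smul_mem _ _ hZ, fun x z hz => ?_⟩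
  have h5 := congrArg (fun T : Module.End Ω V => e.repr (T (e x)) z) hZ'
  simp only [Module.End.mul_apply, dg_repr, LinearMap.smul_apply, map_smul, Finsupp.smul_apply,
    smul_eq_mul] at h5
  have h6 : ind e ρ ω inv χ b z = 1 := if_pos
    (mem_CC_of_block e hinv hne hjj hj0 ω hω ρ χ hγ hq0 hq hωρ hss hdist hblk hsym hz)
  rw [h6, one_mul, one_mul] at h5
  rw [LinearMap.smul_apply, map_smul, Finsupp.smul_apply, smul_eq_mul, ← h5, ← mul_assoc,
    inv_mul_cancel₀ hk0, one_mul]

include hinv hne hjj hj0 hω hγ hq0 hq hχ hωρ hdist hblk hsym hss hsq in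
/-- The long root vectors are in the Lie algebra. -/
theorem long_mem (b : R) : SS ω (e b) (e b) ∈ lieT ρ χ := by
  classical
  have ha := eig_ne_zero e ρ hγ
  obtain ⟨Z, hZ, hZ'⟩ := exists_lift_root e hinv hne hjj hj0 ω hω ρ χ hγ hq0 hq hχ hωρ hss hdist
    hblk hsym (sameBlock_refl e ρ b) (hne b).symm
  obtain ⟨Y, hY, hY'⟩ := ratio_mem e ρ χ hγ
    (fun x z => if a z / a x = a b / a (inv b) then 1 else 0) (fun x z x' z' h => by rw [h]) Z hZ
  have h1 : SS ω (e b) (e b) = Y := by
    refine e.ext fun x => e.repr.injective (Finsupp.ext fun z => ?_)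
    rw [hY']
    by_cases hxz : z = b ∧ x = inv b
    · obtain ⟨rfl, rfl⟩ := hxz
      rw [if_pos rfl, one_mul, hZ' _ _ (sameBlock_refl e ρ _)]
    · have h2 : ¬ (a z / a x = a b / a (inv b)) := by
        intro h
        apply hxz
        rw [div_eq_div_iff (ha x) (ha (inv b))] at h
        have h3 : a z * a (inv x) = a b * a b := by
          apply mul_right_cancel₀ hq0
          have e1 := hq b
          have e2 := hq x
          calc a z * a (inv x) * q = (a z * a (inv b)) * (a b * a (inv x)) := by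
                rw [← e1]; ring
            _ = a b * a b * (a x * a (inv x)) := by rw [h]; ring
            _ = a b * a b * q := by rw [e2]
        refine ⟨hsq _ _ _ h3, ?_⟩
        rw [mul_comm] at h3
        rw [← hsq _ _ _ h3, hinv]
      rw [if_neg h2, zero_mul, SS_repr e ω hω]
      unfold JJ
      by_cases hx : x = inv b
      · have hz : ¬ b = z := fun h => hxz ⟨h.symm, hx⟩
        rw [if_neg hz]
        ring
      · rw [if_neg hx]
        ring
  rw [h1]
  exact hY

include hinv hne hjj hj0 hω hγ hq0 hq hχ hωρ hdist hblk hsym hss hsq in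
/-- The diagonal torus is in the Lie algebra. -/
theorem DD_lieT (b : R) : DD e inv b ∈ lieT ρ χ := by
  have h2 := long_mem e hinv hne hjj hj0 ω hω ρ χ hγ hq0 hq hχ hωρ hss hdist hsq hblk hsym b
  have h1 := long_mem e hinv hne hjj hj0 ω hω ρ χ hγ hq0 hq hχ hωρ hss hdist hsq hblk hsym (inv b)
  have h3 := lieT_bracket ρ χ h2 h1
  rw [SS_bracket ω (om_anti e hinv hjj ω hω)] at h3
  have h4 : ω (e b) (e (inv b)) = jj b := by
    rw [hω]
    unfold JJ
    rw [if_pos rfl]
  rw [h4, SS_comm ω (e (inv b)) (e b), SS_DD e hinv hne hjj ω hω] at h3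
  have h5 : jj b • (-jj b) • DD e inv b + jj b • (-jj b) • DD e inv b +
      jj b • (-jj b) • DD e inv b + jj b • (-jj b) • DD e inv b =
      (-4 * (jj b * jj b)) • DD e inv b := by
    module
  rw [h5] at h3
  exact (Submodule.smul_mem_iff _ (mul_ne_zero (by norm_num) (mul_ne_zero (hj0 b) (hj0 b)))).1 h3

include hinv hne hjj hj0 hω hγ hq0 hq hχ hωρ hdist hblk hsym hss hsq in
/-- The symplectic Lie algebras of the blocks are contained in the Lie algebra. -/
theorem SS_lieT' {b c : R} (hbc : SameBlock e ρ b c) : SS ω (e b) (e c) ∈ lieT ρ χ := by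
  classical
  have hD := DD_lieT e hinv hne hjj hj0 ω hω ρ χ hγ hq0 hq hχ hωρ hss hdist hsq hblk hsym b
  have hI := sameBlock_inv e hinv hjj hj0 ω hω ρ χ hωρ hsym
  by_cases hc1 : c = inv b
  · subst hc1
    rw [SS_DD e hinv hne hjj ω hω]
    exact Submodule.smul_mem _ _ hD
  by_cases hc2 : c = b
  · subst hc2
    exact long_mem e hinv hne hjj hj0 ω hω ρ χ hγ hq0 hq hχ hωρ hss hdist hsq hblk hsym c
  obtain ⟨Z, hZ, hZ'⟩ := exists_lift_root e hinv hne hjj hj0 ω hω ρ χ hγ hq0 hq hχ hωρ hss hdist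
    hblk hsym hbc hc1
  have h1 := lieT_bracket ρ χ hD hZ
  have h2 : DD e inv b * Z - Z * DD e inv b = SS ω (e b) (e c) := by
    refine e.ext fun x => e.repr.injective (Finsupp.ext fun z => ?_)
    have h3 : e.repr ((DD e inv b * Z - Z * DD e inv b) (e x)) z =
        (dd inv b z - dd inv b x) * e.repr (Z (e x)) z := by
      rw [LinearMap.sub_apply, Module.End.mul_apply, Module.End.mul_apply, map_sub,
        Finsupp.sub_apply, DD_repr, DD_basis, map_smul, map_smul, Finsupp.smul_apply, smul_eq_mul]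
      ring
    rw [h3]
    have hcinv : inv c ≠ b := fun h => hc1 (by rw [← h, hinv])
    have hcinv' : inv c ≠ inv b := fun h => hc2 (by rw [← hinv c, h, hinv])
    by_cases hz : SameBlock e ρ b z
    · rw [hZ' _ _ hz, SS_repr e ω hω]
      unfold JJ
      by_cases hx1 : x = inv b
      · subst hx1
        rw [if_pos rfl, if_neg (fun h : inv b = inv c => hcinv' h.symm), zero_mul, add_zero,
          dd_inv hne]
        by_cases hz1 : c = z
        · subst hz1
          rw [if_pos rfl, dd_other hc2 hc1]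
          ring
        · rw [if_neg hz1]
          ring
      · rw [if_neg hx1, zero_mul, zero_add]
        by_cases hx2 : x = inv c
        · subst hx2
          rw [if_pos rfl, dd_other hcinv hcinv']
          by_cases hz1 : b = z
          · subst hz1
            rw [if_pos rfl, dd_self hne]
            ring
          · rw [if_neg hz1]
            ring
        · rw [if_neg hx2]
          ring
    · have hzb : z ≠ b := by
        rintro rfl
        exact hz (sameBlock_refl e ρ z)
      have hzb' : z ≠ inv b := by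
        rintro rfl
        exact hz (hI b)
      rw [dd_other hzb hzb']
      have h4 : e.repr (SS ω (e b) (e c) (e x)) z = 0 := by
        rw [SS_repr e ω hω, if_neg hzb.symm, if_neg (by rintro rfl; exact hz hbc)]
        ring
      rw [h4]
      by_cases hx : x = b ∨ x = inv b
      · have hxb : SameBlock e ρ b x := by
          rcases hx with rfl | rfl
          · exact sameBlock_refl e ρ x
          · exact hI b
        have h5 : e.repr (Z (e x)) z = 0 := by
          by_contra h6
          apply hz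
          refine hxb.trans' e ρ fun t ht => ?_
          exact lieT_block e hinv hjj hj0 ω hω ρ χ hωρ hZ ht h6
        rw [h5, mul_zero]
      · push Not at hx
        rw [dd_other hx.1 hx.2]
        ring
  rw [← h2]
  exact h1

include hinv hne hjj hj0 hω hγ hq0 hq hχ hωρ hdist hblk hsym hss hsq in
/-- Tate forms are linear combinations of products of Tate forms of degree two. -/
theorem block_mem {m : ℕ} (φ : MultilinearMap Ω (fun _ : Fin m × Fin 2 => V) Ω)
    (hφ : IsTate ρ χ m φ) : φ ∈ Submodule.span Ω (PT ρ χ m) := by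
  have hI := sameBlock_inv e hinv hjj hj0 ω hω ρ χ hωρ hsym
  refine tateN_mem e hinv hne hjj hj0 ω hω ρ χ (nB ω ρ χ) (nB_bracket ω ρ χ)
    (DD_nB e hinv hne hjj hj0 ω hω ρ χ hγ hq0 hq hωρ hdist hblk hsym)
    (nB_sp ω ρ χ) (nB_conj ω ρ χ hωρ) (nB_comm ω ρ χ) hωρ hss φ fun b c hc => ?_
  have h1 := block_of_mem_CC e hinv hne hjj hj0 ω hω ρ χ hγ hq0 hq hωρ hss hdist hblk hsym hc
  exact SS_lieT' e hinv hne hjj hj0 ω hω ρ χ hγ hq0 hq hχ hωρ hss hdist hsq hblk hsym
    ((hI b).trans' e ρ h1) m φ hφ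

end

end Pool.Agent.V7H82.TG
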