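import Mathlib
import Pool.Agent.W527.TateDefs

/-!
# Fields of endomorphisms, Weil numbers and linked embeddings: definitions
-/

namespace Pool.Agent.V7H82.TG

open NumberField Module Pool.Agent.W527.TateRing

/-- The endomorphism `T` of the Tate module commutes with a subgroup of finite index of the Galois
group. By the theorem of Faltings it is then a linear combination of endomorphisms of the abelian
variety over the algebraic closure. -/
def IsEndo {k V Γ : Type*} [Field k] [AddCommGroup V] [Module k V] [Group Γ]
    (ρ : Representation k Γ V) (T : Module.End k V) : Prop :=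
  ∃ Δ : Subgroup Γ, Δ.FiniteIndex ∧ ∀ s ∈ Δ, ∀ v, T (ρ s v) = ρ s (T v)

section embeddings

variable {K : Type*} [Field K]

/-- The composition of the embedding `x` with the automorphism `σ` of the complex numbers. -/
def move (σ : ℂ ≃+* ℂ) (x : K →+* ℂ) : K →+* ℂ := (σ : ℂ →+* ℂ).comp x

/-- The two embeddings are equal or complex conjugate. -/
def SamePair (x y : K →+* ℂ) : Prop := x = y ∨ x = ComplexEmbedding.conjugate y

/-- The embeddings are *flipped*: some automorphism of the complex numbers fixes `x` and conjugates
`y`, or moves `x` to `y` and `y` to the conjugate of `x`. -/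
def Flipped (x y : K →+* ℂ) : Prop :=
  ∃ σ : ℂ ≃+* ℂ, (move σ x = x ∧ move σ y = ComplexEmbedding.conjugate y) ∨
    (move σ x = y ∧ move σ y = ComplexEmbedding.conjugate x)

variable [NumberField K] (E : IntermediateField ℚ K)

/-- The embeddings agree on the subfield `E`. -/
def AgreeOn (x y : K →+* ℂ) : Prop := ∀ t ∈ E, x t = y t

/-- The equivalence relation generated by agreeing on `E` and not being flipped. Its classes
consist of embeddings which agree on `E`. -/
def Linked : (K →+* ℂ) → (K →+* ℂ) → Prop :=
  Relation.EqvGen fun x y => AgreeOn E x y ∧ ¬ Flipped x y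

/-- Any two pairs of conjugate embeddings in the class of `x` can be moved to any two others. -/
def HomClass (x : K →+* ℂ) : Prop :=
  ∀ x₁ x₂ y₁ y₂ : K →+* ℂ, Linked E x x₁ → Linked E x x₂ → Linked E x y₁ → Linked E x y₂ →
    ¬ SamePair x₁ x₂ → ¬ SamePair y₁ y₂ → ∃ σ : ℂ ≃+* ℂ,
      (SamePair (move σ x₁) y₁ ∧ SamePair (move σ x₂) y₂) ∨
      (SamePair (move σ x₁) y₂ ∧ SamePair (move σ x₂) y₁)

/-- The number of embeddings in the class of `x`. -/
noncomputable def classCard (x : K →+* ℂ) : ℕ := Nat.card {y // Linked E x y}

end embeddings

/-- For any two different fields `K i`, `K j` and any two embeddings of them, some automorphism of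
the complex numbers fixes the first one and conjugates the second one. -/
def PairwiseFlipped {p m : ℕ} {ι : Type} (X : ι → WeilNumber p m) : Prop :=
  ∀ i j, i ≠ j → ∀ (x : (X i).K →+* ℂ) (y : (X j).K →+* ℂ), ∃ σ : ℂ ≃+* ℂ,
    move σ x = x ∧ move σ y = ComplexEmbedding.conjugate y

section conditions

variable {K : Type*} [Field K] [NumberField K]

/-- All positive powers of `π` generate `K`. -/
def GeneratedByPowers (π : K) : Prop := ∀ M : ℕ, 0 < M → IntermediateField.adjoin ℚ {π ^ M} = ⊤

/-- Each class of linked embeddings (relative to `E`) consists of a prime number of pairs of conjugate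
embeddings, or any two pairs in the class can be moved to any two others and the number of pairs is
not `10`, `16` or `28`. -/
def GoodClasses (E : IntermediateField ℚ K) : Prop :=
  ∀ x : K →+* ℂ, (∃ b : ℕ, b.Prime ∧ classCard E x = 2 * b) ∨
    (HomClass E x ∧ classCard E x ≠ 20 ∧ classCard E x ≠ 32 ∧ classCard E x ≠ 56)

variable [IsCMField K]

/-- The subfield `F` of the CM field `K` is real. -/
def IsReal (F : IntermediateField ℚ K) : Prop := ∀ t ∈ F, IsCMField.complexConj K t = t

/-- The number `c` is the norm of `π` to a subfield `F` which contains `E`, is not real and satisfies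
`[K : F] = 4`. -/
def IsNormFrom (c : ℕ) (π : K) (E : IntermediateField ℚ K) : Prop :=
  ∃ F : IntermediateField ℚ K, E ≤ F ∧ finrank F K = 4 ∧ ¬ IsReal F ∧ Algebra.norm F π = c

/-- The conditions on a Weil `q`-number `π` of the CM field `K` and a subfield `E` of `K`: `E` is real,
all powers of `π` generate `K`, the classes of linked embeddings are good, and `q ^ 2` is not the norm
of `π` to a subfield `F` containing `E` with `[K : F] = 4` which is not real. -/
structure IsAdmissible (q : ℕ) (π : K) (E : IntermediateField ℚ K) : Prop where
  real : IsReal E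
  gen : GeneratedByPowers π
  cls : GoodClasses E
  norm : ¬ IsNormFrom (q ^ 2) π E

end conditions

/-- `γ` acts on the Tate module like the Frobenius element at a place with residue field of
`p ^ m` elements at which the Frobenius polynomial is the product of the minimal polynomials of the
Weil numbers `π i`, and every element `t` of `E i` is of the form `Q (π i)` for a polynomial `Q` with
rational coefficients such that `Q (ρ γ)` is an endomorphism of the abelian variety: `E i` acts on the
abelian variety. -/
structure IsFrobenius {k V Γ : Type*} [Field k] [CharZero k] [AddCommGroup V] [Module k V]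
    [FiniteDimensional k V] [Group Γ] (ρ : Representation k Γ V) (χ : Γ →* k) {p m : ℕ} {ι : Type} [Fintype ι]
    (X : ι → WeilNumber p m) (E : ∀ i, IntermediateField ℚ (X i).K) (γ : Γ) : Prop where
  cyclotomic : χ γ = (p ^ m : ℕ)
  charpoly : (ρ γ).charpoly = (∏ i, minpoly ℚ (X i).π).map (algebraMap ℚ k)
  endo : ∀ i, ∀ t ∈ E i, ∃ Q : Polynomial ℚ, Polynomial.aeval (X i).π Q = t ∧
    IsEndo ρ (Polynomial.aeval (ρ γ) (Q.map (algebraMap ℚ k)))

end Pool.Agent.V7H82.TG
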