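import Mathlib
import Pool.Agent.V7H82.TG.Blk3
import Pool.Agent.V7H82.TG.Defs
import Pool.Agent.TH776.FL.Main

/-!
# Tate classes from one Frobenius element without relations of length four inside the blocks
-/

set_option linter.unusedSectionVars false

namespace Pool.Agent.V7H82.TG

open Module TensorProduct Polynomial Pool.Agent.H204R3.CM Pool.Agent.H204R3.SP
  Pool.Agent.H204R3.GP Pool.Agent.W516.FT Pool.Agent.TH776.FM Pool.Agent.TH776.FL

noncomputable section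

/-- The relations between the roots of `P` which are used. -/
structure NoRelations (P : Polynomial ℚ) (q : ℕ) (𝒬 : Set (Polynomial ℚ)) : Prop where
  dist : ∀ M : ℕ, 0 < M → ∀ a ∈ P.rootSet ℂ, ∀ b ∈ P.rootSet ℂ, a ^ M = b ^ M → a = b
  square : ∀ a ∈ P.rootSet ℂ, ∀ b ∈ P.rootSet ℂ, ∀ c ∈ P.rootSet ℂ, b * c = a * a → b = a
  four : ∀ a ∈ P.rootSet ℂ, ∀ b ∈ P.rootSet ℂ, ∀ c ∈ P.rootSet ℂ, ∀ d ∈ P.rootSet ℂ,
    (∀ Q ∈ 𝒬, aeval a Q = aeval b Q ∧ aeval a Q = aeval c Q ∧ aeval a Q = aeval d Q) →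
    a * b * c * d = (q : ℂ) ^ 2 →
      (a * b = q ∧ c * d = q) ∨ (a * c = q ∧ b * d = q) ∨ (a * d = q ∧ b * c = q)

/-- Transfer to another field. -/
theorem exists_transfer {P : Polynomial ℚ} (hP : P ≠ 0) (Ω : Type*) [Field Ω] [CharZero Ω] :
    ∃ (E : IntermediateField ℚ Ω) (σ : E →ₐ[ℚ] ℂ), (∀ x ∈ P.rootSet Ω, x ∈ E) ∧
      ∀ (x : Ω) (hx : x ∈ E), x ∈ P.rootSet Ω → σ ⟨x, hx⟩ ∈ P.rootSet ℂ := by
  classical
  let E := IntermediateField.adjoin ℚ (P.rootSet Ω)
  have hE : Algebra.IsAlgebraic ℚ E := IntermediateField.isAlgebraic_adjoin (fun x hx => by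
    rw [Polynomial.mem_rootSet] at hx
    exact (isAlgebraic_iff_isIntegral).1 ⟨P, hx.1, hx.2⟩)
  let σ : E →ₐ[ℚ] ℂ := IsAlgClosed.lift
  have hmem : ∀ x ∈ P.rootSet Ω, x ∈ E := fun x hx => IntermediateField.subset_adjoin _ _ hx
  refine ⟨E, σ, hmem, fun x hxE hx => ?_⟩
  rw [Polynomial.mem_rootSet]
  refine ⟨hP, ?_⟩
  rw [Polynomial.aeval_algHom_apply]
  have h1 : Polynomial.aeval (⟨x, hxE⟩ : E) P = 0 := by
    apply (algebraMap E Ω).injective
    rw [map_zero, ← Polynomial.aeval_algebraMap_apply]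
    exact (Polynomial.mem_rootSet.1 hx).2
  rw [h1, map_zero]

theorem aeval_dg {Ω : Type*} [Field Ω] [CharZero Ω] {W : Type*} [AddCommGroup W] [Module Ω W]
    {R : Type*} [Fintype R] [DecidableEq R] (e : Basis R Ω W) (T : Module.End Ω W)
    (x : R → Ω) (hT : ∀ i, T (e i) = x i • e i) (Q : Polynomial ℚ) :
    aeval T (Q.map (algebraMap ℚ Ω)) = dg e (fun i => aeval (x i) Q) := by
  refine e.ext fun i => ?_
  rw [dg_basis]
  induction Q using Polynomial.induction_on with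
  | C c =>
    rw [Polynomial.map_C, aeval_C, aeval_C, Module.algebraMap_end_apply]
  | add p q hp hq =>
    rw [Polynomial.map_add, map_add, map_add, LinearMap.add_apply, hp, hq, add_smul]
  | monomial n c ih =>
    rw [pow_succ, ← mul_assoc, Polynomial.map_mul, Polynomial.map_X, map_mul, map_mul, aeval_X,
      aeval_X, Module.End.mul_apply, hT, map_smul, ih, smul_smul, mul_comm]

/-- The main theorem for forms over the field of coefficients. -/
theorem tate_of_blocks {k V Γ : Type} [Field k] [CharZero k] [AddCommGroup V] [Module k V]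
    [FiniteDimensional k V] [Group Γ] {ρ : Representation k Γ V} {χ : Γ →* k}
    {ω : V →ₗ[k] V →ₗ[k] k} (h : IsTateModule ρ χ ω) (hR : RosatiTrivial ρ ω)
    {γ : Γ} {q : ℕ} (hχ : χ γ = q) {P : Polynomial ℚ} (hP : P.Separable)
    (hγ : (ρ γ).charpoly = P.map (algebraMap ℚ k)) {𝒬 : Set (Polynomial ℚ)}
    (h𝒬 : ∀ Q ∈ 𝒬, IsEndo ρ (aeval (ρ γ) (Q.map (algebraMap ℚ k)))) (h4 : NoRelations P q 𝒬)
    {m : ℕ} (φ : MultilinearMap k (fun _ : Fin m × Fin 2 => V) k) (hφ : IsTate ρ χ m φ) :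
    φ ∈ Submodule.span k (PT ρ χ m) := by
  classical
  have halt := h.alt
  have hnd := h.nondeg
  have hωρ := h.similitude
  have hss : ∀ Δ : Subgroup Γ, Δ.FiniteIndex → SemiUnder (ρ '' (Δ : Set Γ)) := by
    intro Δ hΔ U hU
    obtain ⟨U', h1, h2⟩ := h.semisimple Δ hΔ U (fun s hs u hu => hU _ ⟨s, hs, rfl⟩ u hu)
    refine ⟨U', ?_, h2⟩
    rintro _ ⟨s, hs, rfl⟩ u hu
    exact h1 s hs u hu
  have hq0' : (χ γ) ≠ 0 := by
    intro h
    have h1 : χ γ * χ γ⁻¹ = 1 := by rw [← map_mul, mul_inv_cancel, map_one]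
    rw [h, zero_mul] at h1
    exact zero_ne_one h1
  let Ω := (P.map (algebraMap ℚ k)).SplittingField
  have _ : CharZero Ω := charZero_of_injective_algebraMap (algebraMap k Ω).injective
  have hanti : ∀ u v, ω u v = -ω v u := by
    intro u v
    have h1 := halt (u + v)
    simp only [map_add, LinearMap.add_apply, halt, zero_add, add_zero] at h1
    exact eq_neg_of_add_eq_zero_left (by rw [← h1]; ring)
  have hnd' : ∀ u, (∀ v, ω u v = 0) → u = 0 := by
    intro u hu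
    apply hnd
    intro v
    rw [hanti, hu, neg_zero]
  let b := Module.finBasis k V
  have hmap : (P.map (algebraMap ℚ k)).map (algebraMap k Ω) = P.map (algebraMap ℚ Ω) := by
    rw [Polynomial.map_map]
    congr 1
  have hTchar : (bcr ρ Ω γ).charpoly = P.map (algebraMap ℚ Ω) := by
    change ((ρ γ).baseChange Ω).charpoly = _
    rw [LinearMap.charpoly_baseChange, hγ, hmap]
  have hsplit : (P.map (algebraMap ℚ Ω)).Splits := by
    rw [← hmap]
    exact Polynomial.SplittingField.splits _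
  have hcard : Fintype.card (P.rootSet Ω) = finrank Ω (Ω ⊗[k] V) := by
    rw [Polynomial.card_rootSet_eq_natDegree hP hsplit, ← LinearMap.charpoly_natDegree (bcr ρ Ω γ),
      hTchar, Polynomial.natDegree_map]
  obtain ⟨e, he⟩ := exists_eigenbasis (bcr ρ Ω γ) (P.rootSet Ω) (fun x hx => by
    rw [hTchar, Polynomial.IsRoot.def, Polynomial.eval_map_algebraMap]
    exact (Polynomial.mem_rootSet.1 hx).2) hcard
  have hq : bcc χ Ω γ = (q : Ω) := by
    rw [bcc_apply, hχ, map_natCast]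
  have hq0 : (q : Ω) ≠ 0 := by
    rw [← hq, bcc_apply]
    exact fun h => hq0' ((algebraMap k Ω).injective (by rw [h, map_zero]))
  have hantiΩ : ∀ u v, bcb Ω ω u v = -bcb Ω ω v u := by
    have h1 : bcb Ω ω = -(bcb Ω ω).flip := by
      refine (b.baseChange Ω).ext fun i => (b.baseChange Ω).ext fun l => ?_
      rw [LinearMap.neg_apply, LinearMap.neg_apply, LinearMap.flip_apply, Basis.baseChange_apply,
        Basis.baseChange_apply, bcb_one, bcb_one, hanti, map_neg]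
    intro u v
    exact congrArg (fun F : (Ω ⊗[k] V) →ₗ[Ω] (Ω ⊗[k] V) →ₗ[Ω] Ω => F u v) h1
  -- the involution
  have hprod : ∀ x y : P.rootSet Ω, bcb Ω ω (e x) (e y) ≠ 0 → (x : Ω) * y = q := by
    intro x y h0
    have h1 := bcb_inv ρ χ (Ω := Ω) ω hωρ γ (e x) (e y)
    rw [he, he, map_smul, map_smul, LinearMap.smul_apply, smul_eq_mul, smul_eq_mul, hq,
      ← mul_assoc] at h1
    have h2 := mul_right_cancel₀ h0 h1
    rw [← h2, mul_comm]
  have hex : ∀ x : P.rootSet Ω, ∃ y, bcb Ω ω (e x) (e y) ≠ 0 := by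
    intro x
    by_contra hcon
    push Not at hcon
    apply e.ne_zero x
    apply bcb_nondeg b ω hnd hnd'
    intro v
    rw [hantiΩ, ← e.sum_repr v, map_sum, neg_eq_zero]
    refine Finset.sum_eq_zero fun y _ => ?_
    rw [map_smul, hcon, smul_zero]
  choose inv hinv0 using hex
  have hxinv : ∀ x : P.rootSet Ω, (x : Ω) * inv x = q := fun x => hprod x _ (hinv0 x)
  have hx0 : ∀ x : P.rootSet Ω, (x : Ω) ≠ 0 := by
    intro x h
    apply hq0
    rw [← hxinv x, h, zero_mul]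
  have huniq : ∀ x y : P.rootSet Ω, (x : Ω) * y = q → y = inv x := by
    intro x y h
    apply Subtype.coe_injective
    apply mul_left_cancel₀ (hx0 x)
    rw [h, hxinv]
  have hinv : ∀ x, inv (inv x) = x := fun x =>
    (huniq (inv x) x (by rw [mul_comm, hxinv])).symm
  have hne : ∀ x, inv x ≠ x := by
    intro x h
    have h1 := hantiΩ (e x) (e x)
    have h2 : bcb Ω ω (e x) (e x) = 0 := by
      have h3 : (2 : Ω) * bcb Ω ω (e x) (e x) = 0 := by linear_combination h1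
      exact (mul_eq_zero.1 h3).resolve_left two_ne_zero
    apply hinv0 x
    rw [h, h2]
  let jj : P.rootSet Ω → Ω := fun x => bcb Ω ω (e x) (e (inv x))
  have hjj : ∀ x, jj (inv x) = -jj x := by
    intro x
    simp only [jj, hinv]
    exact hantiΩ _ _
  have hj0 : ∀ x, jj x ≠ 0 := hinv0
  have hω : ∀ x y, bcb Ω ω (e x) (e y) = JJ inv jj x y := by
    intro x y
    unfold JJ
    by_cases hy : y = inv x
    · rw [if_pos hy, hy]
    · rw [if_neg hy]
      by_contra h0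
      exact hy (huniq x y (hprod x y h0))
  obtain ⟨E, σ, hEmem, hEroot⟩ := exists_transfer hP.ne_zero Ω
  have hσ : Function.Injective σ := σ.toRingHom.injective
  let s : P.rootSet Ω → ℂ := fun x => σ ⟨x, hEmem x x.2⟩
  have hsr : ∀ x, s x ∈ P.rootSet ℂ := fun x => hEroot _ _ x.2
  have hsmul : ∀ (x y z w : P.rootSet Ω), (x : Ω) * y = z * w ↔ s x * s y = s z * s w := by
    intro x y z w
    simp only [s]
    rw [← map_mul, ← map_mul, hσ.eq_iff, ← Subtype.coe_inj]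
    rfl
  have hsq : ∀ (x y : P.rootSet Ω), (x : Ω) * y = q ↔ s x * s y = q := by
    intro x y
    simp only [s]
    rw [← map_mul, ← map_natCast σ q, hσ.eq_iff, ← Subtype.coe_inj]
    push_cast
    rfl
  have hsinj : ∀ x y, s x = s y → x = y := by
    intro x y hxy
    have h1 := hσ hxy
    exact Subtype.coe_injective (congrArg (fun t : E => (t : Ω)) h1)
  have hdist : ∀ M : ℕ, 0 < M → ∀ x y : P.rootSet Ω, (x : Ω) ^ M = (y : Ω) ^ M → x = y := by
    intro M hM x y hxy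
    apply hsinj
    apply h4.dist M hM _ (hsr x) _ (hsr y)
    simp only [s]
    rw [← map_pow, ← map_pow]
    congr 1
    exact Subtype.coe_injective (by push_cast; exact hxy)
  have hsqr : ∀ x y z : P.rootSet Ω, (y : Ω) * z = x * x → y = x := by
    intro x y z hxy
    apply hsinj
    exact h4.square _ (hsr x) _ (hsr y) _ (hsr z) ((hsmul _ _ _ _).1 hxy)
  have hQs : ∀ (x y : P.rootSet Ω), SameBlock e (bcr ρ Ω) x y → ∀ Q ∈ 𝒬,
      aeval (s x) Q = aeval (s y) Q := by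
    intro x y hxy Q hQ
    obtain ⟨Δ, hΔ, hcomm⟩ := h𝒬 Q hQ
    have h1 : aeval (bcr ρ Ω γ) (Q.map (algebraMap ℚ Ω)) =
        dg e (fun x : P.rootSet Ω => aeval (x : Ω) Q) :=
      aeval_dg e (bcr ρ Ω γ) _ he Q
    have h2 : AlmostEquivariant (bcr ρ Ω) (aeval (bcr ρ Ω γ) (Q.map (algebraMap ℚ Ω))) := by
      refine ⟨Δ, hΔ, fun t ht v => ?_⟩
      have h3 : aeval (bcr ρ Ω γ) (Q.map (algebraMap ℚ Ω)) =
          (aeval (ρ γ) (Q.map (algebraMap ℚ k))).baseChange Ω := by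
        have e1 : Q.map (algebraMap ℚ Ω) =
            (Q.map (algebraMap ℚ k)).map (algebraMap k Ω) := by
          rw [Polynomial.map_map]
          congr 1
        rw [e1, Polynomial.aeval_map_algebraMap]
        exact Polynomial.aeval_algHom_apply (Module.End.baseChangeHom k Ω V) (ρ γ)
          (Q.map (algebraMap ℚ k))
      rw [h3]
      induction v using TensorProduct.induction_on with
      | zero => simp
      | tmul c v =>
        rw [bcr_tmul, LinearMap.baseChange_tmul, LinearMap.baseChange_tmul, bcr_tmul, hcomm t ht]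
      | add u v hu hv => rw [map_add, map_add, hu, hv, map_add, map_add]
    rw [h1] at h2
    have h3 := hxy _ h2
    have h5 : ∀ x : P.rootSet Ω, aeval (s x) Q = σ (aeval (⟨x, hEmem x x.2⟩ : E) Q) := fun x =>
      Polynomial.aeval_algHom_apply σ _ Q
    rw [h5, h5]
    congr 1
    apply Subtype.coe_injective
    have h6 : ∀ x : E, ((aeval x Q : E) : Ω) = aeval (x : Ω) Q := fun x =>
      (Polynomial.aeval_algebraMap_apply Ω x Q).symm
    exact (h6 ⟨x, hEmem x x.2⟩).trans (h3.trans (h6 ⟨y, hEmem y y.2⟩).symm)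
  have hblk : ∀ x y z w : P.rootSet Ω, SameBlock e (bcr ρ Ω) x y → SameBlock e (bcr ρ Ω) x z →
      SameBlock e (bcr ρ Ω) x w → (x : Ω) * y * z * w = (q : Ω) ^ 2 →
      (y = inv x ∧ w = inv z) ∨ (z = inv x ∧ w = inv y) ∨ (w = inv x ∧ z = inv y) := by
    intro x y z w hxy hxz hxw hrel
    have h1 : s x * s y * s z * s w = (q : ℂ) ^ 2 := by
      simp only [s]
      rw [← map_mul, ← map_mul, ← map_mul, ← map_natCast σ q, ← map_pow]
      congr 1
      apply Subtype.coe_injective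
      push_cast
      exact hrel
    rcases h4.four _ (hsr x) _ (hsr y) _ (hsr z) _ (hsr w) (fun Q hQ =>
      ⟨hQs _ _ hxy Q hQ, hQs _ _ hxz Q hQ, hQs _ _ hxw Q hQ⟩) h1 with h | h | h
    · exact Or.inl ⟨huniq _ _ ((hsq _ _).2 h.1), huniq _ _ ((hsq _ _).2 h.2)⟩
    · exact Or.inr (Or.inl ⟨huniq _ _ ((hsq _ _).2 h.1), huniq _ _ ((hsq _ _).2 h.2)⟩)
    · exact Or.inr (Or.inr ⟨huniq _ _ ((hsq _ _).2 h.1), huniq _ _ ((hsq _ _).2 h.2)⟩)
  have hproj : HasProj (bcr ρ Ω) := by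
    intro Δ hΔ U hU
    obtain ⟨P', hP1, hP2, hP3⟩ := exists_proj_baseChange (Ω := Ω) (ρ '' (Δ : Set Γ)) (hss Δ hΔ) U
      (by
        rintro _ ⟨s, hs, rfl⟩ u hu
        exact hU s hs u hu)
    exact ⟨P', hP1, hP2, fun s hs v => hP3 _ ⟨s, hs, rfl⟩ v⟩
  refine tate_descentG (Ω := Ω) b ρ χ ?_ φ hφ
  intro φ' hφ'
  refine block_mem e hinv hne hjj hj0 (bcb Ω ω) hω (bcr ρ Ω) (bcc χ Ω) he hq0 hxinv hq
    (bcb_inv ρ χ ω hωρ) hproj hdist hsqr hblk ?_ φ' hφ'
  rintro B hB1 ⟨Δ, hΔ, hB2⟩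
  by_contra hB3
  -- the form on `V` with values in `Ω`
  let B' : V →ₗ[k] V →ₗ[k] Ω := LinearMap.mk₂ k
    (fun u v => B ((1 : Ω) ⊗ₜ[k] u) ((1 : Ω) ⊗ₜ[k] v))
    (fun u u' v => by rw [TensorProduct.tmul_add, map_add, LinearMap.add_apply])
    (fun c u v => by
      rw [TensorProduct.tmul_smul, ← algebraMap_smul Ω c ((1 : Ω) ⊗ₜ[k] u), map_smul,
        LinearMap.smul_apply, algebraMap_smul])
    (fun u v v' => by rw [TensorProduct.tmul_add, map_add])
    (fun c u v => by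
      rw [TensorProduct.tmul_smul, ← algebraMap_smul Ω c ((1 : Ω) ⊗ₜ[k] v), map_smul,
        algebraMap_smul])
  have hB'a : ∀ u v, B' u v = B ((1 : Ω) ⊗ₜ[k] u) ((1 : Ω) ⊗ₜ[k] v) := fun _ _ => rfl
  have h1 := symmetric_zero h hR (formRank B') Ω B' ⟨fun u v => by rw [hB'a, hB'a, hB1], Δ, hΔ,
    fun s hs u v => by
      have h2 := hB2 s hs ((1 : Ω) ⊗ₜ[k] u) ((1 : Ω) ⊗ₜ[k] v)
      rw [bcr_tmul, bcr_tmul, bcc_apply] at h2
      rw [hB'a, hB'a, h2, Algebra.smul_def]⟩ (by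
    intro h
    apply hB3
    refine (b.baseChange Ω).ext fun i => (b.baseChange Ω).ext fun l => ?_
    have h2 := congrArg (fun F : V →ₗ[k] V →ₗ[k] Ω => F (b i) (b l)) h
    simp only [hB'a, LinearMap.zero_apply] at h2
    rw [Basis.baseChange_apply, Basis.baseChange_apply, h2, LinearMap.zero_apply,
      LinearMap.zero_apply])
  exact lt_irrefl _ h1

/-- The main theorem for alternating forms on the powers. -/
theorem generated_of_blocks {k V Γ : Type} [Field k] [CharZero k] [AddCommGroup V] [Module k V]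
    [FiniteDimensional k V] [Group Γ] {ρ : Representation k Γ V} {χ : Γ →* k}
    {ω : V →ₗ[k] V →ₗ[k] k} (h : IsTateModule ρ χ ω) (hR : RosatiTrivial ρ ω)
    {γ : Γ} {q : ℕ} (hχ : χ γ = q) {P : Polynomial ℚ} (hP : P.Separable)
    (hγ : (ρ γ).charpoly = P.map (algebraMap ℚ k)) {𝒬 : Set (Polynomial ℚ)}
    (h𝒬 : ∀ Q ∈ 𝒬, IsEndo ρ (aeval (ρ γ) (Q.map (algebraMap ℚ k)))) (h4 : NoRelations P q 𝒬) :
    TateGeneratedInDegreeTwo ρ χ := by
  intro n m f hf
  obtain ⟨Δ, hΔ, hf⟩ := hf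
  have h1 := altG_of_tate_mem ρ χ (n := n) (m := m) (fun φ hφ =>
    tate_of_blocks h hR hχ hP hγ h𝒬 h4 φ hφ) f Δ hΔ hf
  refine Submodule.span_mono ?_ h1
  rintro g ⟨B, hB, hg⟩
  refine ⟨B, fun l => ?_, hg⟩
  obtain ⟨Δ', hΔ', h2⟩ := hB l
  refine ⟨Δ', hΔ', fun s hs v => ?_⟩
  rw [pow_one]
  exact h2 s hs v

end

end Pool.Agent.V7H82.TG
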