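import Mathlib
import Pool.Agent.V7H82.TG.Ker
import Pool.Agent.V7H82.TG.Kern
import Pool.Agent.V7H82.TG.Top
import Pool.Agent.Y4.Aut

/-!
# Relations of length four: reduction to one class of linked embeddings
-/

set_option linter.unusedSectionVars false
set_option linter.unusedVariables false

namespace Pool.Agent.V7H82.TG

open NumberField Module Polynomial Pool.Agent.W527.TateRing

noncomputable section

section emb

variable {K : Type*} [Field K] [NumberField K] [IsCMField K]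

theorem conj_apply (x : K →+* ℂ) (t : K) :
    ComplexEmbedding.conjugate x t = x (IsCMField.complexConj K t) := by
  rw [ComplexEmbedding.conjugate_coe_eq]
  exact (IsCMField.complexEmbedding_complexConj K x t).symm

theorem conj_conj (x : K →+* ℂ) : ComplexEmbedding.conjugate (ComplexEmbedding.conjugate x) = x := by
  ext t
  rw [ComplexEmbedding.conjugate_coe_eq, ComplexEmbedding.conjugate_coe_eq, starRingEnd_self_apply]

theorem conj_ne (x : K →+* ℂ) : ComplexEmbedding.conjugate x ≠ x := by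
  intro h
  apply IsCMField.complexConj_ne_one K
  ext t
  apply x.injective
  rw [← conj_apply, h]
  rfl

theorem move_conj (σ : ℂ ≃+* ℂ) (x : K →+* ℂ) :
    move σ (ComplexEmbedding.conjugate x) = ComplexEmbedding.conjugate (move σ x) := by
  ext t
  change σ (ComplexEmbedding.conjugate x t) = _
  rw [conj_apply, conj_apply]
  rfl

theorem move_mul (σ τ : ℂ ≃+* ℂ) (x : K →+* ℂ) : move (σ * τ) x = move σ (move τ x) := rfl

theorem move_inv (σ : ℂ ≃+* ℂ) (x : K →+* ℂ) : move σ⁻¹ (move σ x) = x := by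
  rw [← move_mul, inv_mul_cancel]
  rfl

theorem move_inj {σ : ℂ ≃+* ℂ} {x y : K →+* ℂ} (h : move σ x = move σ y) : x = y := by
  rw [← move_inv σ x, h, move_inv]

theorem flipped_move {x y : K →+* ℂ} (τ : ℂ ≃+* ℂ) (h : Flipped x y) :
    Flipped (move τ x) (move τ y) := by
  obtain ⟨σ, h⟩ := h
  refine ⟨τ * σ * τ⁻¹, ?_⟩
  have e : ∀ z : K →+* ℂ, move (τ * σ * τ⁻¹) (move τ z) = move τ (move σ z) := by
    intro z
    rw [← move_mul, ← move_mul]
    congr 1
    group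
  rw [e, e]
  rcases h with ⟨h1, h2⟩ | ⟨h1, h2⟩
  · exact Or.inl ⟨by rw [h1], by rw [h2, move_conj]⟩
  · exact Or.inr ⟨by rw [h1], by rw [h2, move_conj]⟩

variable (E : IntermediateField ℚ K)

variable {E} in
theorem agreeOn_move {x y : K →+* ℂ} (τ : ℂ ≃+* ℂ) (h : AgreeOn E x y) :
    AgreeOn E (move τ x) (move τ y) := fun t ht => congrArg τ (h t ht)

variable {E}

theorem linked_move {x y : K →+* ℂ} (τ : ℂ ≃+* ℂ) (h : Linked E x y) :
    Linked E (move τ x) (move τ y) := by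
  unfold Linked at h
  induction h with
  | rel x y h =>
    refine Relation.EqvGen.rel _ _ ⟨agreeOn_move τ h.1, fun hf => h.2 ?_⟩
    have := flipped_move τ⁻¹ hf
    rwa [move_inv, move_inv] at this
  | refl x => exact Relation.EqvGen.refl _
  | symm x y _ ih => exact Relation.EqvGen.symm _ _ ih
  | trans x y z _ _ ih1 ih2 => exact Relation.EqvGen.trans _ _ _ ih1 ih2

theorem agreeOn_of_linked {x y : K →+* ℂ} (h : Linked E x y) : AgreeOn E x y := by
  unfold Linked at h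
  induction h with
  | rel x y h => exact h.1
  | refl x => exact fun t _ => rfl
  | symm x y _ ih => exact fun t ht => (ih t ht).symm
  | trans x y z _ _ ih1 ih2 => exact fun t ht => (ih1 t ht).trans (ih2 t ht)

theorem not_flipped_conj (x : K →+* ℂ) : ¬ Flipped x (ComplexEmbedding.conjugate x) := by
  rintro ⟨σ, ⟨h1, h2⟩ | ⟨h1, h2⟩⟩
  · rw [move_conj, h1, conj_conj] at h2
    exact conj_ne x h2
  · rw [move_conj, h1, conj_conj] at h2
    exact conj_ne x h2.symm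

theorem linked_conj (hE : ∀ t ∈ E, IsCMField.complexConj K t = t) (x : K →+* ℂ) :
    Linked E x (ComplexEmbedding.conjugate x) :=
  Relation.EqvGen.rel _ _ ⟨fun t ht => by rw [conj_apply, hE t ht], not_flipped_conj x⟩

end emb

variable {p m : ℕ} [hp : Fact p.Prime] {ι : Type} [Fintype ι] {X : ι → WeilNumber p m}

/-- The properties of the kernel. -/
structure IsKer (A : Em X → Em X → ℤ) : Prop where
  symm : ∀ x y, A x y = A y x
  odd : ∀ x y, A (bar x) y = - A x y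
  inv : ∀ σ x y, A (act σ x) (act σ y) = A x y
  le : ∀ x y, 2 * A x y ≤ A x x + A y y
  eq : ∀ x y, 2 * A x y = A x x + A y y → ∃ s : ℕ, 0 < s ∧ val x ^ s = val y ^ s
  rel : ∀ x₀ x₁ x₂ x₃ : Em X, val x₀ * val x₁ * val x₂ * val x₃ = ((p ^ m : ℕ) : ℂ) ^ 2 →
      ∀ y, A x₀ y + A x₁ y + A x₂ y + A x₃ y = 0

theorem exists_ker (X : ι → WeilNumber p m) : ∃ A : Em X → Em X → ℤ, IsKer A := by
  obtain ⟨A, h1, h2, h3, h4, h5, h6⟩ := exists_kernel X
  exact ⟨A, h1, h2, h3, h4, h5, h6⟩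

variable {A : Em X → Em X → ℤ} (hA : IsKer A) (hflip : PairwiseFlipped X)
  (hgen : ∀ i, ∀ M : ℕ, 0 < M → IntermediateField.adjoin ℚ {(X i).π ^ M} = ⊤)

theorem mk_bar (i : ι) (φ : (X i).K →+* ℂ) :
    (⟨i, ComplexEmbedding.conjugate φ⟩ : Em X) = bar ⟨i, φ⟩ := rfl

theorem mk_act (i : ι) (σ : ℂ ≃+* ℂ) (φ : (X i).K →+* ℂ) :
    (⟨i, move σ φ⟩ : Em X) = act σ ⟨i, φ⟩ := rfl

include hgen in
/-- Powers of conjugates determine the embedding. -/
theorem emb_of_pow {i : ι} {φ ψ : (X i).K →+* ℂ} {s : ℕ} (hs : 0 < s)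
    (h : φ (X i).π ^ s = ψ (X i).π ^ s) : φ = ψ := by
  apply Pool.Agent.H204R3.SP.emb_inj (hgen i s hs)
  rw [map_pow, map_pow, h]

theorem bar_ne (x : Em X) : bar x ≠ x := by
  obtain ⟨i, φ⟩ := x
  intro h
  exact conj_ne φ (eq_of_heq (Sigma.mk.inj h).2)

include hflip hgen in
theorem val_inj {x y : Em X} {s : ℕ} (hs : 0 < s) (h : val x ^ s = val y ^ s) : x = y := by
  obtain ⟨i, φ⟩ := x
  obtain ⟨j, ψ⟩ := y
  by_cases hij : i = j
  · subst hij
    rw [emb_of_pow hgen hs (φ := φ) (ψ := ψ) h]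
  · exfalso
    obtain ⟨σ, h1, h2⟩ := hflip i j hij φ ψ
    have h3 : φ (X i).π ^ s = ψ (X j).π ^ s := h
    have h4 := congrArg σ h3
    rw [map_pow, map_pow] at h4
    have e1 : σ (φ (X i).π) = φ (X i).π := RingHom.congr_fun h1 (X i).π
    have e2 : σ (ψ (X j).π) = ComplexEmbedding.conjugate ψ (X j).π := RingHom.congr_fun h2 (X j).π
    rw [e1, e2, h3] at h4
    exact conj_ne ψ (emb_of_pow hgen hs h4).symm

include hA

theorem odd_right' (x y : Em X) : A x (bar y) = - A x y := by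
  rw [hA.symm, hA.odd, hA.symm]

include hflip in
/-- The kernel vanishes between different fields. -/
theorem ker_zero {x y : Em X} (h : x.1 ≠ y.1) : A x y = 0 := by
  obtain ⟨i, φ⟩ := x
  obtain ⟨j, ψ⟩ := y
  obtain ⟨σ, h1, h2⟩ := hflip i j h φ ψ
  have h3 := hA.inv σ ⟨i, φ⟩ ⟨j, ψ⟩
  rw [← mk_act, ← mk_act, h1, h2, mk_bar, odd_right' hA] at h3
  omega

/-- The kernel vanishes on flipped embeddings. -/
theorem ker_flipped {i : ι} {φ ψ : (X i).K →+* ℂ} (h : Flipped φ ψ) : A ⟨i, φ⟩ ⟨i, ψ⟩ = 0 := by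
  obtain ⟨σ, ⟨h1, h2⟩ | ⟨h1, h2⟩⟩ := h
  · have h3 := hA.inv σ ⟨i, φ⟩ ⟨i, ψ⟩
    rw [← mk_act, ← mk_act, h1, h2, mk_bar, odd_right' hA] at h3
    omega
  · have h3 := hA.inv σ ⟨i, φ⟩ ⟨i, ψ⟩
    rw [← mk_act, ← mk_act, h1, h2, mk_bar, odd_right' hA, hA.symm ⟨i, ψ⟩] at h3
    omega

/-- The kernel is constant on the diagonal for one field. -/
theorem ker_diag {x y : Em X} (h : x.1 = y.1) : A x x = A y y := by
  obtain ⟨i, φ⟩ := x
  obtain ⟨j, ψ⟩ := y
  change i = j at h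
  subst h
  obtain ⟨σ, hσ⟩ := Pool.Agent.Y4.exists_aut_emb φ ψ
  have h3 := hA.inv σ ⟨i, φ⟩ ⟨i, φ⟩
  rw [← mk_act] at h3
  have h4 : move σ φ = ψ := hσ
  rw [h4] at h3
  exact h3.symm

include hflip hgen in
theorem ker_pos (x : Em X) : 0 < A x x := by
  have h1 := hA.le x (bar x)
  have h2 : A (bar x) (bar x) = A x x := by
    rw [hA.odd, odd_right' hA, neg_neg]
  rw [odd_right' hA, h2] at h1
  rcases lt_or_eq_of_le (show 0 ≤ A x x by omega) with h | h
  · exact h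
  · exfalso
    obtain ⟨s, hs, h3⟩ := hA.eq x (bar x) (by rw [odd_right' hA, h2]; omega)
    exact bar_ne x (val_inj hflip hgen hs h3).symm

include hflip hgen in
/-- The strict inequality. -/
theorem ker_lt {x y : Em X} (hxy : y ≠ x) : A x y < A x x := by
  by_cases h : x.1 = y.1
  · have h1 := hA.le x y
    have h2 := ker_diag hA h
    rw [← h2] at h1
    rcases lt_or_eq_of_le (show A x y ≤ A x x by omega) with h3 | h3
    · exact h3
    · exfalso
      obtain ⟨s, hs, h4⟩ := hA.eq x y (by rw [← h2]; omega)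
      exact hxy (val_inj hflip hgen hs h4).symm
  · rw [ker_zero hA hflip h]
    exact ker_pos hA hflip hgen x

include hflip hgen in
theorem ker_gt {x y : Em X} (hxy : y ≠ bar x) : - A x x < A x y := by
  have h1 : bar y ≠ x := fun h => hxy (by rw [← h, bar_bar])
  have h2 := ker_lt hA hflip hgen h1
  rw [odd_right' hA] at h2
  omega

omit hA in
/-- Linked embeddings of one of the fields. -/
def LinkedEm (E : ∀ i, IntermediateField ℚ (X i).K) (a b : Em X) : Prop :=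
  ∃ (i : ι) (φ ψ : (X i).K →+* ℂ), a = ⟨i, φ⟩ ∧ b = ⟨i, ψ⟩ ∧ Linked (E i) φ ψ

variable {E : ∀ i, IntermediateField ℚ (X i).K}

omit hA in
theorem LinkedEm.symm' {a b : Em X} (h : LinkedEm E a b) : LinkedEm E b a := by
  obtain ⟨i, φ, ψ, h1, h2, h3⟩ := h
  exact ⟨i, ψ, φ, h2, h1, Relation.EqvGen.symm _ _ h3⟩

omit hA in
theorem LinkedEm.trans' {a b c : Em X} (h : LinkedEm E a b) (h' : LinkedEm E b c) :
    LinkedEm E a c := by
  obtain ⟨i, φ, ψ, rfl, rfl, h3⟩ := h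
  obtain ⟨j, ψ', χ, h4, rfl, h5⟩ := h'
  obtain ⟨rfl, h6⟩ := Sigma.mk.inj h4
  have h7 := eq_of_heq h6
  subst h7
  exact ⟨i, φ, χ, rfl, rfl, Relation.EqvGen.trans _ _ _ h3 h5⟩

/-- Four embeddings with a relation, no two of them conjugate. -/
structure Quad (A : Em X → Em X → ℤ) (E : ∀ i, IntermediateField ℚ (X i).K) (a b c d : Em X) :
    Prop where
  rel : ∀ y, A a y + A b y + A c y + A d y = 0
  ab : b ≠ bar a
  ac : c ≠ bar a
  ad : d ≠ bar a
  bc : c ≠ bar b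
  bd : d ≠ bar b
  cd : d ≠ bar c
  agree : ∀ x y : Em X, (x = a ∨ x = b ∨ x = c ∨ x = d) → (y = a ∨ y = b ∨ y = c ∨ y = d) →
    ∀ (i : ι) (φ ψ : (X i).K →+* ℂ), x = ⟨i, φ⟩ → y = ⟨i, ψ⟩ → AgreeOn (E i) φ ψ

omit hA in
theorem ne_bar_symm {a b : Em X} (h : b ≠ bar a) : a ≠ bar b :=
  fun h' => h (by rw [h', bar_bar])

omit hA in
theorem Quad.swap {a b c d : Em X} (h : Quad A E a b c d) : Quad A E b a c d where
  rel y := by rw [← h.rel y]; ring
  ab := ne_bar_symm h.ab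
  ac := h.bc
  ad := h.bd
  bc := h.ac
  bd := h.ad
  cd := h.cd
  agree x y hx hy := h.agree x y (by tauto) (by tauto)

omit hA in
theorem Quad.rot {a b c d : Em X} (h : Quad A E a b c d) : Quad A E a c d b where
  rel y := by rw [← h.rel y]; ring
  ab := h.ac
  ac := h.ad
  ad := h.ab
  bc := h.cd
  bd := ne_bar_symm h.bc
  cd := ne_bar_symm h.bd
  agree x y hx hy := h.agree x y (by tauto) (by tauto)

include hflip hgen

theorem Quad.two_zero {a b c d : Em X} (h : Quad A E a b c d) (h1 : A c a = 0) (h2 : A d a = 0) :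
    False := by
  have h3 := h.rel a
  have h4 := ker_gt hA hflip hgen h.ab
  rw [h1, h2, hA.symm b a] at h3
  omega

theorem Quad.ne {a b c d : Em X} (h : Quad A E a b c d) : b ≠ a := by
  intro hab
  have h3 := h.rel a
  have h4 := ker_gt hA hflip hgen h.ac
  have h5 := ker_gt hA hflip hgen h.ad
  rw [hab, hA.symm c a, hA.symm d a] at h3
  have h6 := ker_pos hA hflip hgen a
  omega

omit hgen in
theorem linked_of_ne_zero {a b c d : Em X} (h : Quad A E a b c d) {x y : Em X}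
    (hx : x = a ∨ x = b ∨ x = c ∨ x = d) (hy : y = a ∨ y = b ∨ y = c ∨ y = d) (h0 : A x y ≠ 0) :
    LinkedEm E x y := by
  have h1 : x.1 = y.1 := by
    by_contra h1
    exact h0 (ker_zero hA hflip h1)
  have h2 := h.agree x y hx hy
  obtain ⟨i, φ⟩ := x
  obtain ⟨j, ψ⟩ := y
  change i = j at h1
  subst h1
  refine ⟨i, φ, ψ, rfl, rfl, Relation.EqvGen.rel _ _ ⟨h2 i φ ψ rfl rfl, fun hf => h0 ?_⟩⟩
  exact ker_flipped hA hf

theorem Quad.link {a b c d : Em X} (h : Quad A E a b c d) : LinkedEm E a b := by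
  by_cases h0 : A a b = 0
  · have h1 : A a c ≠ 0 := by
      intro h1
      -- `b` and `c` are zero, use the order `a d b c`
      exact h.rot.rot.two_zero hA hflip hgen (by rw [hA.symm]; exact h0) (by rw [hA.symm]; exact h1)
    have h2 : A b c ≠ 0 := by
      intro h2
      exact h.swap.rot.rot.two_zero hA hflip hgen h0 (by rw [hA.symm]; exact h2)
    exact (linked_of_ne_zero hA hflip h (Or.inl rfl) (Or.inr (Or.inr (Or.inl rfl))) h1).trans'
      (linked_of_ne_zero hA hflip h (Or.inr (Or.inl rfl)) (Or.inr (Or.inr (Or.inl rfl))) h2).symm'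
  · exact linked_of_ne_zero hA hflip h (Or.inl rfl) (Or.inr (Or.inl rfl)) h0

/-- All four embeddings are linked embeddings of one field, in different pairs. -/
theorem Quad.reduce {a b c d : Em X} (h : Quad A E a b c d) :
    ∃ (i : ι) (φ₀ φ₁ φ₂ φ₃ : (X i).K →+* ℂ), a = ⟨i, φ₀⟩ ∧ b = ⟨i, φ₁⟩ ∧ c = ⟨i, φ₂⟩ ∧ d = ⟨i, φ₃⟩ ∧
      Linked (E i) φ₀ φ₁ ∧ Linked (E i) φ₀ φ₂ ∧ Linked (E i) φ₀ φ₃ ∧
      ¬ SamePair φ₁ φ₀ ∧ ¬ SamePair φ₂ φ₀ ∧ ¬ SamePair φ₃ φ₀ ∧ ¬ SamePair φ₂ φ₁ ∧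
      ¬ SamePair φ₃ φ₁ ∧ ¬ SamePair φ₃ φ₂ := by
  obtain ⟨i, φ₀, φ₁, h0, h1, k1⟩ := h.link hA hflip hgen
  obtain ⟨i2, ψ₀, φ₂, h0', h2, k2⟩ := h.rot.link hA hflip hgen
  obtain ⟨i3, χ₀, φ₃, h0'', h3, k3⟩ := h.rot.rot.link hA hflip hgen
  rw [h0] at h0' h0''
  obtain ⟨rfl, e1⟩ := Sigma.mk.inj h0'
  have e2 := eq_of_heq e1
  subst e2
  obtain ⟨rfl, e3⟩ := Sigma.mk.inj h0''
  have e4 := eq_of_heq e3
  subst e4
  have key : ∀ {x y : Em X} {φ ψ : (X i).K →+* ℂ}, x = ⟨i, φ⟩ → y = ⟨i, ψ⟩ → y ≠ x → y ≠ bar x →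
      ¬ SamePair ψ φ := by
    rintro x y φ ψ rfl rfl h4 h5 (h6 | h6)
    · exact h4 (by rw [h6])
    · exact h5 (by rw [h6]; rfl)
  refine ⟨i, φ₀, φ₁, φ₂, φ₃, h0, h1, h2, h3, k1, k2, k3, ?_, ?_, ?_, ?_, ?_, ?_⟩
  · exact key h0 h1 (h.ne hA hflip hgen) h.ab
  · exact key h0 h2 (h.rot.ne hA hflip hgen) h.ac
  · exact key h0 h3 (h.rot.rot.ne hA hflip hgen) h.ad
  · exact key h1 h2 (h.swap.rot.ne hA hflip hgen) h.bc
  · exact key h1 h3 (h.swap.rot.rot.ne hA hflip hgen) h.bd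
  · exact key h2 h3 (h.rot.swap.rot.ne hA hflip hgen) h.cd

end

end Pool.Agent.V7H82.TG
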