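import Mathlib
import Pool.Agent.V7H82.TG.Rel

/-!
# Relations of length four in one class of linked embeddings
-/

set_option linter.unusedSectionVars false
set_option linter.unusedVariables false

namespace Pool.Agent.V7H82.TG

open NumberField Module Polynomial Pool.Agent.W527.TateRing

noncomputable section

variable {p m : ℕ} [hp : Fact p.Prime] {ι : Type} [Fintype ι] {X : ι → WeilNumber p m}
  {A : Em X → Em X → ℤ} (hA : IsKer A) (hflip : PairwiseFlipped X)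
  (hgen : ∀ i, ∀ M : ℕ, 0 < M → IntermediateField.adjoin ℚ {(X i).π ^ M} = ⊤)
  {i : ι} {E : IntermediateField ℚ (X i).K}
  (hreal : ∀ t ∈ E, IsCMField.complexConj (X i).K t = t)
  {φ₀ φ₁ φ₂ φ₃ : (X i).K →+* ℂ} (k1 : Linked E φ₀ φ₁) (k2 : Linked E φ₀ φ₂) (k3 : Linked E φ₀ φ₃)
  (n1 : ¬ SamePair φ₁ φ₀) (n2 : ¬ SamePair φ₂ φ₀) (n3 : ¬ SamePair φ₃ φ₀) (n21 : ¬ SamePair φ₂ φ₁)
  (n31 : ¬ SamePair φ₃ φ₁) (n32 : ¬ SamePair φ₃ φ₂)
  (hrel : ∀ ψ : (X i).K →+* ℂ, A ⟨i, φ₀⟩ ⟨i, ψ⟩ + A ⟨i, φ₁⟩ ⟨i, ψ⟩ + A ⟨i, φ₂⟩ ⟨i, ψ⟩ +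
    A ⟨i, φ₃⟩ ⟨i, ψ⟩ = 0)

/-- the class of linked embeddings -/
abbrev Cl (E : IntermediateField ℚ (X i).K) (φ₀ : (X i).K →+* ℂ) : Type :=
  {ψ : (X i).K →+* ℂ // Linked E φ₀ ψ}

/-- the conjugation on the class -/
def cl (hreal : ∀ t ∈ E, IsCMField.complexConj (X i).K t = t) (x : Cl E φ₀) : Cl E φ₀ :=
  ⟨ComplexEmbedding.conjugate x.1, Relation.EqvGen.trans _ _ _ x.2 (linked_conj hreal x.1)⟩

/-- the kernel on the class -/
def kc (A : Em X → Em X → ℤ) (x y : Cl E φ₀) : ℤ := A ⟨i, x.1⟩ ⟨i, y.1⟩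

theorem cl_cl (x : Cl E φ₀) : cl hreal (cl hreal x) = x := Subtype.ext (conj_conj x.1)

theorem cl_ne (x : Cl E φ₀) : cl hreal x ≠ x := fun h => conj_ne x.1 (congrArg Subtype.val h)

instance : Finite (Cl E φ₀) := inferInstanceAs (Finite {ψ : (X i).K →+* ℂ // Linked E φ₀ ψ})

theorem np_iff {x y : Cl E φ₀} : Kern.NP (cl hreal) x y ↔ ¬ SamePair y.1 x.1 := by
  unfold Kern.NP SamePair
  constructor
  · rintro ⟨h1, h2⟩ (h | h)
    · exact h1 (Subtype.ext h)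
    · exact h2 (Subtype.ext h)
  · intro h
    exact ⟨fun h' => h (Or.inl (congrArg Subtype.val h')),
      fun h' => h (Or.inr (congrArg Subtype.val h'))⟩

theorem samePair_symm {K : Type*} [Field K] [NumberField K] [IsCMField K] {x y : K →+* ℂ}
    (h : SamePair x y) : SamePair y x := by
  rcases h with rfl | rfl
  · exact Or.inl rfl
  · exact Or.inr (conj_conj y).symm

theorem linked_samePair (hreal : ∀ t ∈ E, IsCMField.complexConj (X i).K t = t)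
    {x y : (X i).K →+* ℂ} (h : SamePair x y) : Linked E y x := by
  rcases h with rfl | rfl
  · exact Relation.EqvGen.refl _
  · exact linked_conj hreal y

include hA

theorem kc_symm (x y : Cl E φ₀) : kc A x y = kc A y x := hA.symm _ _

theorem kc_odd (x y : Cl E φ₀) : kc A (cl hreal x) y = - kc A x y := by
  unfold kc cl
  rw [mk_bar, hA.odd]

include hflip hgen in
theorem kc_lt {x y : Cl E φ₀} (h : Kern.NP (cl hreal) x y) :
    |kc A x y| < A ⟨i, φ₀⟩ ⟨i, φ₀⟩ := by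
  have h1 : A ⟨i, φ₀⟩ ⟨i, φ₀⟩ = A ⟨i, x.1⟩ ⟨i, x.1⟩ := ker_diag hA rfl
  rw [h1, abs_lt]
  constructor
  · refine ker_gt hA hflip hgen fun h' => h.2 (Subtype.ext ?_)
    rw [← mk_bar] at h'
    exact eq_of_heq (Sigma.mk.inj h').2
  · refine ker_lt hA hflip hgen fun h' => h.1 (Subtype.ext ?_)
    exact eq_of_heq (Sigma.mk.inj h').2

theorem kc_move (σ : ℂ ≃+* ℂ) (x y : (X i).K →+* ℂ) :
    A ⟨i, move σ x⟩ ⟨i, move σ y⟩ = A ⟨i, x⟩ ⟨i, y⟩ := by
  rw [mk_act, mk_act, hA.inv]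

theorem kc_hom (hhom : HomClass E φ₀) [Fintype (Cl E φ₀)] {x y x' y' : Cl E φ₀}
    (h : Kern.NP (cl hreal) x y) (h' : Kern.NP (cl hreal) x' y') :
    ∃ ε : ℤ, (ε = 1 ∨ ε = -1) ∧ kc A x y = ε * kc A x' y' ∧
      ∑ z, kc A x z * kc A z y = ε * ∑ z, kc A x' z * kc A z y' := by
  rw [np_iff] at h h'
  obtain ⟨σ, hσ⟩ := hhom x.1 y.1 x'.1 y'.1 x.2 y.2 x'.2 y'.2
    (fun h1 => h (samePair_symm h1)) (fun h1 => h' (samePair_symm h1))
  have hstab : ∀ z : Cl E φ₀, Linked E φ₀ (move σ z.1) := by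
    intro z
    have h1 : Linked E φ₀ (move σ x.1) := by
      rcases hσ with ⟨h2, -⟩ | ⟨h2, -⟩
      · exact Relation.EqvGen.trans _ _ _ x'.2 (linked_samePair hreal h2)
      · exact Relation.EqvGen.trans _ _ _ y'.2 (linked_samePair hreal h2)
    refine Relation.EqvGen.trans _ _ _ h1 (linked_move σ ?_)
    exact Relation.EqvGen.trans _ _ _ (Relation.EqvGen.symm _ _ x.2) z.2
  have hval : ∀ {u v : Cl E φ₀}, SamePair (move σ u.1) v.1 →
      ((⟨move σ u.1, hstab u⟩ : Cl E φ₀) = v ∨ (⟨move σ u.1, hstab u⟩ : Cl E φ₀) = cl hreal v) := by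
    rintro u v (h1 | h1)
    · exact Or.inl (Subtype.ext h1)
    · exact Or.inr (Subtype.ext h1)
  refine Kern.hom_of_perm (c := cl hreal) (kc_symm hA) (kc_odd hA hreal)
    (fun z => ⟨move σ z.1, hstab z⟩) (fun z w hzw => Subtype.ext ?_) (fun z w => ?_) ?_
  · exact move_inj (congrArg Subtype.val hzw)
  · exact kc_move hA σ z.1 w.1
  · rcases hσ with ⟨h1, h2⟩ | ⟨h1, h2⟩
    · exact Or.inl ⟨hval h1, hval h2⟩
    · exact Or.inr ⟨hval h1, hval h2⟩

include hflip hgen hreal k1 k2 k3 n1 n2 n3 n21 n31 n32 hrel in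
/-- The number of pairs of a doubly homogeneous class with a relation of length four. -/
theorem class_card (hhom : HomClass E φ₀) : classCard E φ₀ = 8 ∨ classCard E φ₀ = 20 ∨
    classCard E φ₀ = 32 ∨ classCard E φ₀ = 56 := by
  classical
  have _ : Fintype (Cl E φ₀) := Fintype.ofFinite _
  have h1 := Kern.card_pairs (X := Cl E φ₀) (c := cl hreal) (cl_cl hreal) (cl_ne hreal)
    (A := kc A) (kc_symm hA) (kc_odd hA hreal) (β := A ⟨i, φ₀⟩ ⟨i, φ₀⟩)
    (fun x => (show A ⟨i, x.1⟩ ⟨i, x.1⟩ = A ⟨i, φ₀⟩ ⟨i, φ₀⟩ from ker_diag hA rfl))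
    (fun x y h => kc_lt hA hflip hgen hreal h)
    (fun x y x' y' h h' => kc_hom hA hreal hhom h h')
    (x₀ := ⟨φ₀, Relation.EqvGen.refl _⟩) (x₁ := ⟨φ₁, k1⟩) (x₂ := ⟨φ₂, k2⟩) (x₃ := ⟨φ₃, k3⟩)
    ((np_iff hreal).2 n1) ((np_iff hreal).2 n2) ((np_iff hreal).2 n3) ((np_iff hreal).2 n21)
    ((np_iff hreal).2 n31) ((np_iff hreal).2 n32) (fun y => hrel y.1)
  have h2 : classCard E φ₀ = Fintype.card (Cl E φ₀) := by
    unfold classCard
    rw [Nat.card_eq_fintype_card]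
  rw [h2]
  exact h1

omit hA in
include n1 n2 n3 n21 n31 n32 in
omit hp [Fintype ι] in
/-- Four different pairs consist of eight embeddings. -/
theorem eight_card [DecidableEq ((X i).K →+* ℂ)] :
    ({φ₀, φ₁, φ₂, φ₃} ∪ {ComplexEmbedding.conjugate φ₀, ComplexEmbedding.conjugate φ₁,
      ComplexEmbedding.conjugate φ₂, ComplexEmbedding.conjugate φ₃} :
      Finset ((X i).K →+* ℂ)).card = 8 ∧ ({φ₀, φ₁, φ₂, φ₃} : Finset ((X i).K →+* ℂ)).card = 4 := by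
  have hne : ∀ x y : (X i).K →+* ℂ, ¬ SamePair y x → x ≠ y ∧ y ≠ x ∧
      x ≠ ComplexEmbedding.conjugate y ∧ y ≠ ComplexEmbedding.conjugate x ∧
      ComplexEmbedding.conjugate x ≠ ComplexEmbedding.conjugate y := by
    intro x y h
    refine ⟨fun h' => h (Or.inl h'.symm), fun h' => h (Or.inl h'),
      fun h' => h (Or.inr (by rw [h', conj_conj])), fun h' => h (Or.inr h'), fun h' => h (Or.inl ?_)⟩
    rw [← conj_conj x, h', conj_conj]
  obtain ⟨a1, a2, a3, a4, a5⟩ := hne _ _ n1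
  obtain ⟨b1, b2, b3, b4, b5⟩ := hne _ _ n2
  obtain ⟨c1, c2, c3, c4, c5⟩ := hne _ _ n3
  obtain ⟨d1, d2, d3, d4, d5⟩ := hne _ _ n21
  obtain ⟨e1, e2, e3, e4, e5⟩ := hne _ _ n31
  obtain ⟨f1, f2, f3, f4, f5⟩ := hne _ _ n32
  have g0 := (conj_ne φ₀).symm
  have g1 := (conj_ne φ₁).symm
  have g2 := (conj_ne φ₂).symm
  have g3 := (conj_ne φ₃).symm
  have h4 : ({φ₀, φ₁, φ₂, φ₃} : Finset ((X i).K →+* ℂ)).card = 4 := by
    repeat rw [Finset.card_insert_of_notMem]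
    · rw [Finset.card_singleton]
    all_goals simp [*]
  have h4' : ({ComplexEmbedding.conjugate φ₀, ComplexEmbedding.conjugate φ₁,
      ComplexEmbedding.conjugate φ₂, ComplexEmbedding.conjugate φ₃} :
      Finset ((X i).K →+* ℂ)).card = 4 := by
    repeat rw [Finset.card_insert_of_notMem]
    · rw [Finset.card_singleton]
    all_goals simp [*]
  refine ⟨?_, h4⟩
  rw [Finset.card_union_of_disjoint, h4, h4']
  rw [Finset.disjoint_left]
  intro x hx hx'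
  simp only [Finset.mem_insert, Finset.mem_singleton] at hx hx'
  rcases hx with rfl | rfl | rfl | rfl <;> rcases hx' with h | h | h | h <;>
    exact absurd h (by assumption)

end

end Pool.Agent.V7H82.TG
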