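import Mathlib
import Pool.Agent.V7H82.TG.Defs

/-!
# Weil numbers with good classes of embeddings, and norms up to roots of unity: definitions
-/

namespace Pool.Agent.V7H82.TG

open NumberField Module Pool.Agent.W527.TateRing

variable {K : Type*} [Field K] [NumberField K] [IsCMField K]

/-- Up to a root of unity the number `c` is the norm of `π` to a subfield `F` with `[K : F] = 4` which
is not real. -/
def IsNormUpToRoots (c : ℕ) (π : K) : Prop :=
  ∃ F : IntermediateField ℚ K, finrank F K = 4 ∧ ¬ IsReal F ∧
    ∃ s : ℕ, 0 < s ∧ Algebra.norm F π ^ s = (c : F) ^ s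

/-- The conditions on a Weil `q`-number `π` of the CM field `K`: all powers of `π` generate `K`, the
classes of linked embeddings (relative to the subfield `ℚ`) are good, and up to roots of unity `q ^ 2` is
not the norm of `π` to a subfield `F` with `[K : F] = 4` which is not real. -/
structure IsGoodWeilNumber (q : ℕ) (π : K) : Prop where
  gen : GeneratedByPowers π
  cls : GoodClasses (⊥ : IntermediateField ℚ K)
  norm : ¬ IsNormUpToRoots (q ^ 2) π

end Pool.Agent.V7H82.TG
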