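import Mathlib
import Pool.Agent.V7H82.TG.Rel

/-!
# The subfield attached to a block of embeddings
-/

set_option linter.unusedSectionVars false
set_option linter.unusedVariables false

namespace Pool.Agent.V7H82.TG

open NumberField Module Polynomial Pool.Agent.H204R3.CM Pool.Agent.W527

noncomputable section

variable {K : Type} [Field K] [NumberField K] {C : Finset (K →+* ℂ)} {φ₀ : K →+* ℂ} (h0 : φ₀ ∈ C)
  (hblock : ∀ σ : ℂ ≃+* ℂ, (∃ φ ∈ C, move σ φ ∈ C) → ∀ φ ∈ C, move σ φ ∈ C)

/-- the subfield on which the embeddings of the block agree -/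
def blockField (C : Finset (K →+* ℂ)) (φ₀ : K →+* ℂ) : IntermediateField ℚ K where
  carrier := {t | ∀ φ ∈ C, φ t = φ₀ t}
  mul_mem' := by
    intro a b ha hb φ hφ
    rw [map_mul, map_mul, ha φ hφ, hb φ hφ]
  add_mem' := by
    intro a b ha hb φ hφ
    rw [map_add, map_add, ha φ hφ, hb φ hφ]
  algebraMap_mem' := by
    intro r φ hφ
    rw [eq_ratCast, map_ratCast, map_ratCast]
  inv_mem' := by
    intro a ha φ hφ
    rw [map_inv₀, map_inv₀, ha φ hφ]

theorem mem_blockField {t : K} : t ∈ blockField C φ₀ ↔ ∀ φ ∈ C, φ t = φ₀ t := Iff.rfl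

theorem move_inj' {σ : ℂ ≃+* ℂ} {x y : K →+* ℂ} (h : move σ x = move σ y) : x = y := by
  ext t
  exact σ.injective (RingHom.congr_fun h t)

include h0 hblock in
/-- The embeddings that agree with `φ₀` on the subfield are in the block. -/
theorem mem_of_agree {ψ : K →+* ℂ} (hψ : ∀ t ∈ blockField C φ₀, ψ t = φ₀ t) : ψ ∈ C := by
  classical
  obtain ⟨θ, hθ⟩ := Field.exists_primitive_element ℚ K
  obtain ⟨L, _, _, j, h⟩ := exists_galois (fun _ : Unit => K)
  choose lf hlf using fun φ : K →+* ℂ => h () φ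
  let f : ℂ[X] := ∏ φ ∈ C, (Polynomial.X - Polynomial.C (φ θ))
  let f' : L[X] := ∏ φ ∈ C, (Polynomial.X - Polynomial.C (lf φ θ))
  have hf : f = f'.map j := by
    simp only [f, f', Polynomial.map_prod, Polynomial.map_sub, Polynomial.map_X,
      Polynomial.map_C]
    refine Finset.prod_congr rfl fun φ _ => ?_
    rw [← RingHom.congr_fun (hlf φ) θ]
    rfl
  -- automorphisms which preserve the block fix the coefficients
  have hfix : ∀ σ : ℂ ≃+* ℂ, (∃ φ ∈ C, move σ φ ∈ C) → ∀ k, σ (f.coeff k) = f.coeff k := by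
    intro σ hσ k
    have h1 := hblock σ hσ
    have h2 : f.map (σ : ℂ →+* ℂ) = f := by
      simp only [f, Polynomial.map_prod, Polynomial.map_sub, Polynomial.map_X, Polynomial.map_C]
      have h3 : C.image (move σ) = C := by
        apply Finset.eq_of_subset_of_card_le
        · intro x hx
          obtain ⟨φ, hφ, rfl⟩ := Finset.mem_image.1 hx
          exact h1 φ hφ
        · rw [Finset.card_image_of_injective _ fun x y hxy => move_inj' hxy]
      conv_rhs => rw [← h3]
      rw [Finset.prod_image fun x _ y _ hxy => move_inj' hxy]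
      rfl
    conv_rhs => rw [← h2]
    rw [Polynomial.coeff_map]
    rfl
  have hex : ∀ k, ∃ t ∈ blockField C φ₀, φ₀ t = f.coeff k := by
    intro k
    have h1 : f.coeff k = j (f'.coeff k) := by rw [hf, Polynomial.coeff_map]
    let a : K →ₐ[ℚ] L := (lf φ₀).toRatAlgHom
    have h2 : f'.coeff k ∈ a.fieldRange := by
      rw [← IsGalois.fixedField_fixingSubgroup a.fieldRange, IntermediateField.mem_fixedField_iff]
      intro g hg
      obtain ⟨σ, hσ⟩ := exists_lift' j g
      apply j.injective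
      have h3 : move σ φ₀ = φ₀ := by
        ext t
        change σ (φ₀ t) = φ₀ t
        rw [← RingHom.congr_fun (hlf φ₀) t]
        change σ (j (lf φ₀ t)) = j (lf φ₀ t)
        rw [hσ]
        congr 1
        exact (IntermediateField.mem_fixingSubgroup_iff _ _).1 hg _ ⟨t, rfl⟩
      have h4 := hfix σ ⟨φ₀, h0, by rw [h3]; exact h0⟩ k
      rw [h1] at h4
      rw [← hσ, h4]
    obtain ⟨t, ht⟩ := h2
    have ht' : φ₀ t = f.coeff k := by
      rw [h1, ← ht, ← RingHom.congr_fun (hlf φ₀) t]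
      rfl
    refine ⟨t, fun φ hφ => ?_, ht'⟩
    obtain ⟨σ, hσ⟩ := Pool.Agent.Y4.exists_aut_emb φ₀ φ
    have h5 := hfix σ ⟨φ₀, h0, by rw [show move σ φ₀ = φ from hσ]; exact hφ⟩ k
    rw [← ht'] at h5
    rw [← RingHom.congr_fun hσ t]
    exact h5
  choose t ht ht' using hex
  let N := f.natDegree
  let u : K := ∑ k ∈ Finset.range (N + 1), t k * θ ^ k
  have hu : ∀ χ : K →+* ℂ, (∀ s ∈ blockField C φ₀, χ s = φ₀ s) → χ u = f.eval (χ θ) := by
    intro χ hχ
    rw [Polynomial.eval_eq_sum_range, map_sum]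
    refine Finset.sum_congr rfl fun k _ => ?_
    rw [map_mul, map_pow, hχ _ (ht k), ht']
  have hroot : ∀ x : ℂ, f.eval x = 0 → ∃ φ ∈ C, x = φ θ := by
    intro x hx
    rw [Polynomial.eval_prod, Finset.prod_eq_zero_iff] at hx
    obtain ⟨φ, hφ, h1⟩ := hx
    rw [Polynomial.eval_sub, Polynomial.eval_X, Polynomial.eval_C, sub_eq_zero] at h1
    exact ⟨φ, hφ, h1⟩
  have hu0 : u = 0 := by
    apply φ₀.injective
    rw [map_zero, hu φ₀ fun _ _ => rfl, Polynomial.eval_prod]
    refine Finset.prod_eq_zero h0 ?_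
    rw [Polynomial.eval_sub, Polynomial.eval_X, Polynomial.eval_C, sub_self]
  have h1 := hu ψ hψ
  rw [hu0, map_zero] at h1
  obtain ⟨φ, hφ, h2⟩ := hroot _ h1.symm
  rw [Pool.Agent.H204R3.SP.emb_inj hθ h2]
  exact hφ

include h0 hblock in
/-- The degree and the norm. -/
theorem blockField_degree : finrank (blockField C φ₀) K = C.card ∧
    ∀ a : K, φ₀ (Algebra.norm (blockField C φ₀) a : blockField C φ₀) = ∏ φ ∈ C, φ a := by
  classical
  let _ : Algebra (blockField C φ₀) ℂ := (φ₀.comp (algebraMap (blockField C φ₀) K)).toAlgebra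
  have halg : ∀ s : blockField C φ₀, algebraMap (blockField C φ₀) ℂ s = φ₀ s := fun _ => rfl
  let e : C ≃ (K →ₐ[blockField C φ₀] ℂ) :=
    { toFun := fun φ => { φ.1 with commutes' := fun s => s.2 φ.1 φ.2 }
      invFun := fun ψ => ⟨ψ.toRingHom, mem_of_agree h0 hblock fun s hs => ψ.commutes ⟨s, hs⟩⟩
      left_inv := fun φ => rfl
      right_inv := fun ψ => rfl }
  constructor
  · rw [← AlgHom.card (blockField C φ₀) K ℂ, ← Fintype.card_coe C]
    exact (Fintype.card_congr e).symm
  · intro a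
    rw [← halg, Algebra.norm_eq_prod_embeddings (blockField C φ₀) ℂ a,
      ← Finset.prod_coe_sort C (fun φ => φ a)]
    exact (Fintype.prod_equiv e _ _ fun φ => rfl).symm

end

end Pool.Agent.V7H82.TG
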