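import Mathlib
import Pool.Agent.V7H82.TG.Class
import Pool.Agent.V7H82.TG.Fld

/-!
# A class of four pairs with a relation of length four
-/

set_option linter.unusedSectionVars false
set_option linter.unusedVariables false

namespace Pool.Agent.V7H82.TG

open NumberField Module Polynomial Pool.Agent.W527.TateRing

noncomputable section

variable {p m : ℕ} [hp : Fact p.Prime] {ι : Type} [Fintype ι] {X : ι → WeilNumber p m}
  {A : Em X → Em X → ℤ} (hA : IsKer A) (hflip : PairwiseFlipped X)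
  (hgen : ∀ i, ∀ M : ℕ, 0 < M → IntermediateField.adjoin ℚ {(X i).π ^ M} = ⊤)
  {i : ι} {E : IntermediateField ℚ (X i).K}
  (hreal : ∀ t ∈ E, IsCMField.complexConj (X i).K t = t)
  {φ₀ φ₁ φ₂ φ₃ : (X i).K →+* ℂ} (k1 : Linked E φ₀ φ₁) (k2 : Linked E φ₀ φ₂) (k3 : Linked E φ₀ φ₃)
  (n1 : ¬ SamePair φ₁ φ₀) (n2 : ¬ SamePair φ₂ φ₀) (n3 : ¬ SamePair φ₃ φ₀) (n21 : ¬ SamePair φ₂ φ₁)
  (n31 : ¬ SamePair φ₃ φ₁) (n32 : ¬ SamePair φ₃ φ₂)
  (hrel : ∀ ψ : (X i).K →+* ℂ, A ⟨i, φ₀⟩ ⟨i, ψ⟩ + A ⟨i, φ₁⟩ ⟨i, ψ⟩ + A ⟨i, φ₂⟩ ⟨i, ψ⟩ +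
    A ⟨i, φ₃⟩ ⟨i, ψ⟩ = 0)

include hA hflip hgen hreal k1 k2 k3 n1 n2 n3 n21 n31 n32 hrel in
/-- The fixed field of the block of the four embeddings. -/
theorem four_field (hhom : HomClass E φ₀) (hcard : classCard E φ₀ = 8)
    (hprod : φ₀ (X i).π * φ₁ (X i).π * φ₂ (X i).π * φ₃ (X i).π = ((p ^ m : ℕ) : ℂ) ^ 2) :
    ∃ F : IntermediateField ℚ (X i).K, E ≤ F ∧ finrank F (X i).K = 4 ∧
      (∃ t ∈ F, IsCMField.complexConj (X i).K t ≠ t) ∧
      Algebra.norm F (X i).π = ((p ^ m) ^ 2 : ℕ) := by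
  classical
  have _ : Fintype (Cl E φ₀) := Fintype.ofFinite _
  obtain ⟨α, hα, hβ, habs, s01, s02, s03, s12, s13, s23⟩ :=
    Kern.signs (X := Cl E φ₀) (c := cl hreal)
    (A := kc A) (kc_symm hA) (β := A ⟨i, φ₀⟩ ⟨i, φ₀⟩)
    (fun x => (show A ⟨i, x.1⟩ ⟨i, x.1⟩ = A ⟨i, φ₀⟩ ⟨i, φ₀⟩ from ker_diag hA rfl))
    (fun x y h => kc_lt hA hflip hgen hreal h)
    (fun x y x' y' h h' => kc_hom hA hreal hhom h h')
    (x₀ := ⟨φ₀, Relation.EqvGen.refl _⟩) (x₁ := ⟨φ₁, k1⟩) (x₂ := ⟨φ₂, k2⟩) (x₃ := ⟨φ₃, k3⟩)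
    ((np_iff hreal).2 n1) ((np_iff hreal).2 n2) ((np_iff hreal).2 n3) ((np_iff hreal).2 n21)
    ((np_iff hreal).2 n31) ((np_iff hreal).2 n32) (fun y => hrel y.1)
  obtain ⟨hc8, hc4⟩ := eight_card (X := X) n1 n2 n3 n21 n31 n32
  set C : Finset ((X i).K →+* ℂ) := {φ₀, φ₁, φ₂, φ₃} with hC
  set C' : Finset ((X i).K →+* ℂ) := {ComplexEmbedding.conjugate φ₀,
    ComplexEmbedding.conjugate φ₁, ComplexEmbedding.conjugate φ₂,
    ComplexEmbedding.conjugate φ₃} with hC'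
  have hCl : ∀ φ ∈ C, Linked E φ₀ φ := by
    intro φ hφ
    simp only [hC, Finset.mem_insert, Finset.mem_singleton] at hφ
    rcases hφ with rfl | rfl | rfl | rfl
    · exact Relation.EqvGen.refl _
    · exact k1
    · exact k2
    · exact k3
  have hC'C : ∀ φ, φ ∈ C' ↔ ComplexEmbedding.conjugate φ ∈ C := by
    have key : ∀ x y : (X i).K →+* ℂ, x = ComplexEmbedding.conjugate y ↔
        ComplexEmbedding.conjugate x = y := fun x y =>
      ⟨fun h => by rw [h, conj_conj], fun h => by rw [← h, conj_conj]⟩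
    intro φ
    simp only [hC, hC', Finset.mem_insert, Finset.mem_singleton]
    rw [key, key, key, key]
  have hcls : ∀ ψ, Linked E φ₀ ψ → ψ ∈ C ∨ ψ ∈ C' := by
    have h1 : (C ∪ C') = Finset.univ.filter (fun ψ => Linked E φ₀ ψ) := by
      apply Finset.eq_of_subset_of_card_le
      · intro ψ hψ
        rw [Finset.mem_union] at hψ
        refine Finset.mem_filter.2 ⟨Finset.mem_univ _, ?_⟩
        rcases hψ with h | h
        · exact hCl ψ h
        · have h2 := hCl _ ((hC'C ψ).1 h)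
          refine Relation.EqvGen.trans _ _ _ h2 (Relation.EqvGen.symm _ _ (linked_conj hreal ψ))
      · rw [hc8, ← hcard]
        unfold classCard
        rw [Nat.card_eq_fintype_card, Fintype.card_subtype]
    intro ψ hψ
    rw [← Finset.mem_union, h1]
    exact Finset.mem_filter.2 ⟨Finset.mem_univ _, hψ⟩
  have hval : ∀ φ ∈ C, ∀ ψ ∈ C, φ ≠ ψ → A ⟨i, φ⟩ ⟨i, ψ⟩ = -α := by
    have s10 : A ⟨i, φ₁⟩ ⟨i, φ₀⟩ = -α := by rw [hA.symm]; exact s01
    have s20 : A ⟨i, φ₂⟩ ⟨i, φ₀⟩ = -α := by rw [hA.symm]; exact s02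
    have s30 : A ⟨i, φ₃⟩ ⟨i, φ₀⟩ = -α := by rw [hA.symm]; exact s03
    have s21 : A ⟨i, φ₂⟩ ⟨i, φ₁⟩ = -α := by rw [hA.symm]; exact s12
    have s31 : A ⟨i, φ₃⟩ ⟨i, φ₁⟩ = -α := by rw [hA.symm]; exact s13
    have s32 : A ⟨i, φ₃⟩ ⟨i, φ₂⟩ = -α := by rw [hA.symm]; exact s23
    intro φ hφ ψ hψ hne
    simp only [hC, Finset.mem_insert, Finset.mem_singleton] at hφ hψ
    rcases hφ with rfl | rfl | rfl | rfl <;> rcases hψ with rfl | rfl | rfl | rfl <;>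
      first | exact absurd rfl hne | assumption
  have hdiag : ∀ φ : (X i).K →+* ℂ, A ⟨i, φ⟩ ⟨i, φ⟩ = 3 * α := by
    intro φ
    rw [← hβ]
    exact ker_diag hA rfl
  have hblock : ∀ σ : ℂ ≃+* ℂ, (∃ φ ∈ C, move σ φ ∈ C) → ∀ φ ∈ C, move σ φ ∈ C := by
    rintro σ ⟨φ, hφ, hσφ⟩ ψ hψ
    by_cases hne : φ = ψ
    · rw [← hne]
      exact hσφ
    have h1 : Linked E φ₀ (move σ ψ) := by
      refine Relation.EqvGen.trans _ _ _ (hCl _ hσφ) (linked_move σ ?_)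
      exact Relation.EqvGen.trans _ _ _ (Relation.EqvGen.symm _ _ (hCl _ hφ)) (hCl _ hψ)
    rcases hcls _ h1 with h2 | h2
    · exact h2
    · exfalso
      have h3 := (hC'C _).1 h2
      have h4 : A ⟨i, move σ φ⟩ ⟨i, move σ ψ⟩ = -α := by
        rw [kc_move hA, hval φ hφ ψ hψ hne]
      have h5 : A ⟨i, move σ φ⟩ ⟨i, ComplexEmbedding.conjugate (move σ ψ)⟩ = α := by
        rw [mk_bar, odd_right' hA, h4, neg_neg]
      by_cases h6 : move σ φ = ComplexEmbedding.conjugate (move σ ψ)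
      · rw [← h6, hdiag] at h5
        omega
      · rw [hval _ hσφ _ h3 h6] at h5
        omega
  have h0C : φ₀ ∈ C := by simp [hC]
  obtain ⟨hdeg, hnorm⟩ := blockField_degree h0C hblock
  refine ⟨blockField C φ₀, ?_, by rw [hdeg, hc4], ?_, ?_⟩
  · intro t ht φ hφ
    exact (agreeOn_of_linked (hCl φ hφ) t ht).symm
  · by_contra hcon
    push Not at hcon
    have h1 : ComplexEmbedding.conjugate φ₀ ∈ C := mem_of_agree h0C hblock fun t ht => by
      rw [conj_apply, hcon t ht]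
    have h2 : ComplexEmbedding.conjugate φ₀ ∉ C := by
      have key : ∀ x : (X i).K →+* ℂ, ¬ SamePair x φ₀ → ComplexEmbedding.conjugate φ₀ ≠ x :=
        fun x hx h => hx (Or.inr h.symm)
      simp only [hC, Finset.mem_insert, Finset.mem_singleton, not_or]
      exact ⟨conj_ne φ₀, key _ n1, key _ n2, key _ n3⟩
    exact h2 h1
  · have h1 := hnorm (X i).π
    obtain ⟨a1, a2, a3, a4⟩ : (φ₀ ∉ ({φ₁, φ₂, φ₃} : Finset ((X i).K →+* ℂ))) ∧
        (φ₁ ∉ ({φ₂, φ₃} : Finset ((X i).K →+* ℂ))) ∧ (φ₂ ∉ ({φ₃} : Finset ((X i).K →+* ℂ))) ∧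
        True := by
      have key : ∀ x y : (X i).K →+* ℂ, ¬ SamePair x y → y ≠ x :=
        fun x y hx h => hx (Or.inl h.symm)
      simp only [Finset.mem_insert, Finset.mem_singleton, not_or]
      exact ⟨⟨key _ _ n1, key _ _ n2, key _ _ n3⟩, ⟨key _ _ n21, key _ _ n31⟩, key _ _ n32,
        trivial⟩
    rw [hC, Finset.prod_insert a1, Finset.prod_insert a2, Finset.prod_insert a3,
      Finset.prod_singleton] at h1
    have h2 : φ₀ (Algebra.norm (blockField C φ₀) (X i).π : blockField C φ₀) =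
        ((p ^ m : ℕ) : ℂ) ^ 2 := by
      rw [← hprod]
      rw [← hC] at h1
      rw [h1]
      ring
    apply Subtype.ext
    apply φ₀.injective
    rw [h2]
    push_cast
    rw [map_pow, map_pow, map_natCast]

end

end Pool.Agent.V7H82.TG
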