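import Mathlib
import Pool.Agent.V7H82.TG.Class
import Pool.Agent.TH127.SC.Good

/-!
# A class of a prime number of pairs has no relation of length four
-/

set_option linter.unusedSectionVars false
set_option linter.unusedVariables false

namespace Pool.Agent.V7H82.TG

open NumberField Module Polynomial Pool.Agent.W527.TateRing Pool.Agent.TH127.SC

noncomputable section

section grp

variable {K : Type} [Field K] [NumberField K] [IsCMField K] (E : IntermediateField ℚ K)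
  (φ₀ : K →+* ℂ)

/-- the embeddings which agree with `φ₀` on `E` -/
abbrev Bl : Type := {ψ : K →+* ℂ // AgreeOn E φ₀ ψ}

/-- the permutations which are induced by automorphisms of the complex numbers -/
def permG : Subgroup (Equiv.Perm (Bl E φ₀)) where
  carrier := {g | ∃ σ : ℂ ≃+* ℂ, ∀ y, (g y).1 = move σ y.1}
  one_mem' := ⟨1, fun y => rfl⟩
  mul_mem' := by
    rintro a b ⟨σ, hσ⟩ ⟨τ, hτ⟩
    refine ⟨σ * τ, fun y => ?_⟩
    rw [Equiv.Perm.mul_apply, hσ, hτ, move_mul]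
  inv_mem' := by
    rintro a ⟨σ, hσ⟩
    refine ⟨σ⁻¹, fun y => ?_⟩
    have h1 := hσ (a⁻¹ y)
    rw [← Equiv.Perm.mul_apply, mul_inv_cancel, Equiv.Perm.one_apply] at h1
    rw [h1, move_inv]

instance : Finite (Bl E φ₀) := inferInstanceAs (Finite {ψ : K →+* ℂ // AgreeOn E φ₀ ψ})

instance : Finite (permG E φ₀) := inferInstance

variable {E φ₀}

/-- conjugation -/
def bcj (hreal : ∀ t ∈ E, IsCMField.complexConj K t = t) (y : Bl E φ₀) : Bl E φ₀ :=
  ⟨ComplexEmbedding.conjugate y.1, fun t ht => by rw [conj_apply, hreal t ht, y.2 t ht]⟩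

theorem exists_perm (σ : ℂ ≃+* ℂ) {y : Bl E φ₀} (h : AgreeOn E φ₀ (move σ y.1)) :
    ∃ g : permG E φ₀, ∀ z : Bl E φ₀, (g • z).1 = move σ z.1 := by
  have hst : ∀ z : Bl E φ₀, AgreeOn E φ₀ (move σ z.1) := by
    intro z t ht
    rw [h t ht]
    change σ (y.1 t) = σ (z.1 t)
    rw [← y.2 t ht, ← z.2 t ht]
  let f : Bl E φ₀ → Bl E φ₀ := fun z => ⟨move σ z.1, hst z⟩
  have hf : Function.Injective f := fun z w hzw => Subtype.ext (move_inj (congrArg Subtype.val hzw))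
  exact ⟨⟨Equiv.ofBijective f (Finite.injective_iff_bijective.1 hf), σ, fun z => rfl⟩, fun z => rfl⟩

variable (hreal : ∀ t ∈ E, IsCMField.complexConj K t = t)

theorem bcj_bcj (y : Bl E φ₀) : bcj hreal (bcj hreal y) = y := Subtype.ext (conj_conj y.1)

theorem bcj_ne (y : Bl E φ₀) : bcj hreal y ≠ y := fun h => conj_ne y.1 (congrArg Subtype.val h)

theorem smul_bcj (g : permG E φ₀) (y : Bl E φ₀) : g • bcj hreal y = bcj hreal (g • y) := by
  obtain ⟨g, σ, hσ⟩ := g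
  apply Subtype.ext
  change (g (bcj hreal y)).1 = ComplexEmbedding.conjugate (g y).1
  rw [hσ, hσ]
  exact move_conj σ y.1

theorem flip_iff (y z : Bl E φ₀) : Flip (permG E φ₀) (bcj hreal) y z ↔ Flipped y.1 z.1 := by
  constructor
  · rintro ⟨⟨g, σ, hσ⟩, h⟩
    have e : ∀ w : Bl E φ₀, ((⟨g, σ, hσ⟩ : permG E φ₀) • w).1 = move σ w.1 := fun w => hσ w
    rcases h with ⟨h1, h2⟩ | ⟨h1, h2⟩ | ⟨h1, h2⟩
    · exact ⟨σ, Or.inl ⟨by rw [← e, h1], by rw [← e, h2]; rfl⟩⟩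
    · refine ⟨(starRingAut : ℂ ≃+* ℂ) * σ, Or.inl ⟨?_, ?_⟩⟩
      · rw [move_mul, ← e, h1]
        exact conj_conj y.1
      · rw [move_mul, ← e, h2]
        rfl
    · exact ⟨σ, Or.inr ⟨by rw [← e, h1], by rw [← e, h2]; rfl⟩⟩
  · rintro ⟨σ, ⟨h1, h2⟩ | ⟨h1, h2⟩⟩
    · obtain ⟨g, hg⟩ := exists_perm (E := E) σ (y := y) (by rw [h1]; exact y.2)
      exact ⟨g, Or.inl ⟨Subtype.ext (by rw [hg, h1]), Subtype.ext (by rw [hg, h2]; rfl)⟩⟩
    · obtain ⟨g, hg⟩ := exists_perm (E := E) σ (y := y) (by rw [h1]; exact z.2)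
      exact ⟨g, Or.inr (Or.inr ⟨Subtype.ext (by rw [hg, h1]), Subtype.ext (by rw [hg, h2]; rfl)⟩)⟩

theorem link_of_linked {x y : K →+* ℂ} (h : Linked E x y) :
    ∀ (hx : AgreeOn E φ₀ x) (hy : AgreeOn E φ₀ y),
      Link (permG E φ₀) (bcj hreal) ⟨x, hx⟩ ⟨y, hy⟩ := by
  unfold Linked at h
  induction h with
  | rel x y h =>
    intro hx hy
    refine Relation.EqvGen.rel _ _ fun hf => h.2 ?_
    exact (flip_iff hreal ⟨x, hx⟩ ⟨y, hy⟩).1 hf
  | refl x => exact fun hx hy => Relation.EqvGen.refl _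
  | symm x y _ ih => exact fun hx hy => Relation.EqvGen.symm _ _ (ih hy hx)
  | trans x y z h1 h2 ih1 ih2 =>
    intro hx hz
    have hy : AgreeOn E φ₀ y := fun t ht => (hx t ht).trans (agreeOn_of_linked h1 t ht)
    exact Relation.EqvGen.trans _ _ _ (ih1 hx hy) (ih2 hy hz)

theorem linked_of_link {y z : Bl E φ₀} (h : Link (permG E φ₀) (bcj hreal) y z) :
    Linked E y.1 z.1 := by
  unfold Link at h
  induction h with
  | rel y z h =>
    refine Relation.EqvGen.rel _ _ ⟨fun t ht => ?_, fun hf => h ((flip_iff hreal y z).2 hf)⟩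
    rw [← y.2 t ht, ← z.2 t ht]
  | refl x => exact Relation.EqvGen.refl _
  | symm x y _ ih => exact Relation.EqvGen.symm _ _ ih
  | trans x y z _ _ ih1 ih2 => exact Relation.EqvGen.trans _ _ _ ih1 ih2

theorem link_card (h0 : AgreeOn E φ₀ φ₀) :
    Nat.card (Cls (permG E φ₀) (bcj hreal) ⟨φ₀, h0⟩) = classCard E φ₀ := by
  unfold classCard
  refine Nat.card_congr
    { toFun := fun z => ⟨z.1.1, linked_of_link hreal z.2⟩
      invFun := fun z => ⟨⟨z.1, agreeOn_of_linked z.2⟩, link_of_linked hreal z.2 _ _⟩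
      left_inv := fun z => rfl
      right_inv := fun z => rfl }

end grp

variable {p m : ℕ} [hp : Fact p.Prime] {ι : Type} [Fintype ι] {X : ι → WeilNumber p m}
  {A : Em X → Em X → ℤ} (hA : IsKer A) (hflip : PairwiseFlipped X)
  (hgen : ∀ i, ∀ M : ℕ, 0 < M → IntermediateField.adjoin ℚ {(X i).π ^ M} = ⊤)
  {i : ι} {E : IntermediateField ℚ (X i).K}
  (hreal : ∀ t ∈ E, IsCMField.complexConj (X i).K t = t)
  {φ₀ φ₁ φ₂ φ₃ : (X i).K →+* ℂ} (k1 : Linked E φ₀ φ₁) (k2 : Linked E φ₀ φ₂) (k3 : Linked E φ₀ φ₃)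
  (n1 : ¬ SamePair φ₁ φ₀) (n2 : ¬ SamePair φ₂ φ₀) (n3 : ¬ SamePair φ₃ φ₀) (n21 : ¬ SamePair φ₂ φ₁)
  (n31 : ¬ SamePair φ₃ φ₁) (n32 : ¬ SamePair φ₃ φ₂)
  (hrel : ∀ ψ : (X i).K →+* ℂ, A ⟨i, φ₀⟩ ⟨i, ψ⟩ + A ⟨i, φ₁⟩ ⟨i, ψ⟩ + A ⟨i, φ₂⟩ ⟨i, ψ⟩ +
    A ⟨i, φ₃⟩ ⟨i, ψ⟩ = 0)

include hA hflip hgen hreal k1 k2 k3 n1 n2 n3 n21 n31 n32 hrel in
theorem no_prime {b : ℕ} (hb : b.Prime) (hcard : classCard E φ₀ = 2 * b) : False := by
  classical
  have _ : Fintype (Bl E φ₀) := Fintype.ofFinite _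
  have _ : Fintype (permG E φ₀) := Fintype.ofFinite _
  have h00 : AgreeOn E φ₀ φ₀ := fun _ _ => rfl
  let y₀ : Bl E φ₀ := ⟨φ₀, h00⟩
  let y₁ : Bl E φ₀ := ⟨φ₁, agreeOn_of_linked k1⟩
  let y₂ : Bl E φ₀ := ⟨φ₂, agreeOn_of_linked k2⟩
  let y₃ : Bl E φ₀ := ⟨φ₃, agreeOn_of_linked k3⟩
  have hcb := bcj_bcj (φ₀ := φ₀) hreal
  have hne := bcj_ne (φ₀ := φ₀) hreal
  have hG := smul_bcj (φ₀ := φ₀) hreal
  have htr2 : ∀ x z : Bl E φ₀, ∃ g : permG E φ₀, g • x = z := by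
    intro x z
    obtain ⟨σ, hσ⟩ := Pool.Agent.Y4.exists_aut_emb x.1 z.1
    have hσ' : move σ x.1 = z.1 := hσ
    obtain ⟨g, hg⟩ := exists_perm (E := E) σ (y := x) (by rw [hσ']; exact z.2)
    exact ⟨g, Subtype.ext (by rw [hg, hσ'])⟩
  have hcard' : Nat.card (Cls (permG E φ₀) (bcj hreal) y₀) = 2 * b := by
    rw [link_card hreal, hcard]
  -- the kernel
  let B : Bl E φ₀ → Bl E φ₀ → ℤ := fun x y => A ⟨i, x.1⟩ ⟨i, y.1⟩
  have hBG : ∀ (g : permG E φ₀) (x y : Bl E φ₀), B (g • x) (g • y) = B x y := by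
    rintro ⟨g, σ, hσ⟩ x y
    change A ⟨i, (g x).1⟩ ⟨i, (g y).1⟩ = A ⟨i, x.1⟩ ⟨i, y.1⟩
    rw [hσ, hσ, kc_move hA]
  have hBodd : ∀ x y, B x (bcj hreal y) = - B x y := by
    intro x y
    change A ⟨i, x.1⟩ ⟨i, ComplexEmbedding.conjugate y.1⟩ = _
    rw [mk_bar, odd_right' hA]
  have hBlt : ∀ x y, y ≠ x → B x y ≠ B x x := by
    intro x y hxy h
    have h1 := ker_lt hA hflip hgen (x := ⟨i, x.1⟩) (y := ⟨i, y.1⟩)
      (fun h' => hxy (Subtype.ext (eq_of_heq (Sigma.mk.inj h').2)))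
    exact h1.ne h
  let W : Bl E φ₀ → ℤ := fun y => B y₀ y
  have hW : ∀ y, W (bcj hreal y) = - W y := fun y => hBodd y₀ y
  have hsep : ∀ x y : Bl E φ₀, x ≠ y → ∃ g : permG E φ₀, W (g • x) ≠ W (g • y) := by
    intro x y hxy
    obtain ⟨g, hg⟩ := htr2 y₀ y
    refine ⟨g⁻¹, fun h => hBlt y x hxy ?_⟩
    have h1 : ∀ z, W (g⁻¹ • z) = B y z := by
      intro z
      change B y₀ (g⁻¹ • z) = _
      rw [← hBG g y₀, smul_inv_smul, hg]
    rw [h1, h1] at h
    exact h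
  -- the relation
  let c : Bl E φ₀ → ℤ := fun y => ((if y = y₀ then 1 else 0) + (if y = y₁ then 1 else 0) +
    (if y = y₂ then 1 else 0) + (if y = y₃ then 1 else 0)) -
    ((if bcj hreal y = y₀ then 1 else 0) + (if bcj hreal y = y₁ then 1 else 0) +
    (if bcj hreal y = y₂ then 1 else 0) + (if bcj hreal y = y₃ then 1 else 0))
  have hc : ∀ y, c (bcj hreal y) = - c y := by
    intro y
    simp only [c]
    rw [hcb]
    ring
  have hcW : ∀ x : Bl E φ₀, ∑ y, c y * B x y = 0 := by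
    intro x
    have hs : ∀ z : Bl E φ₀, ∑ y, (if y = z then (1 : ℤ) else 0) * B x y = B x z := by
      intro z
      simp only [ite_mul, one_mul, zero_mul, Finset.sum_ite_eq', Finset.mem_univ, if_true]
    have hs' : ∀ z : Bl E φ₀, ∑ y, (if bcj hreal y = z then (1 : ℤ) else 0) * B x y = - B x z := by
      intro z
      have h1 : ∀ y, (bcj hreal y = z) ↔ y = bcj hreal z := fun y =>
        ⟨fun h => by rw [← h, hcb], fun h => by rw [h, hcb]⟩
      simp only [h1]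
      rw [hs, hBodd]
    have h2 : ∑ y, c y * B x y =
        ((∑ y, (if y = y₀ then (1 : ℤ) else 0) * B x y) + (∑ y, (if y = y₁ then (1 : ℤ) else 0) * B x y) +
        (∑ y, (if y = y₂ then (1 : ℤ) else 0) * B x y) +
        (∑ y, (if y = y₃ then (1 : ℤ) else 0) * B x y)) -
        ((∑ y, (if bcj hreal y = y₀ then (1 : ℤ) else 0) * B x y) +
        (∑ y, (if bcj hreal y = y₁ then (1 : ℤ) else 0) * B x y) +
        (∑ y, (if bcj hreal y = y₂ then (1 : ℤ) else 0) * B x y) +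
        (∑ y, (if bcj hreal y = y₃ then (1 : ℤ) else 0) * B x y)) := by
      rw [← Finset.sum_add_distrib, ← Finset.sum_add_distrib, ← Finset.sum_add_distrib,
        ← Finset.sum_add_distrib, ← Finset.sum_add_distrib, ← Finset.sum_add_distrib,
        ← Finset.sum_sub_distrib]
      refine Finset.sum_congr rfl fun y _ => ?_
      simp only [c]
      ring
    rw [h2, hs, hs, hs, hs, hs', hs', hs', hs']
    have h3 := hrel x.1
    have e : ∀ z : Bl E φ₀, B x z = A ⟨i, z.1⟩ ⟨i, x.1⟩ := fun z => hA.symm _ _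
    rw [e, e, e, e]
    change A ⟨i, φ₀⟩ ⟨i, x.1⟩ + A ⟨i, φ₁⟩ ⟨i, x.1⟩ + A ⟨i, φ₂⟩ ⟨i, x.1⟩ + A ⟨i, φ₃⟩ ⟨i, x.1⟩ -
      (-A ⟨i, φ₀⟩ ⟨i, x.1⟩ + -A ⟨i, φ₁⟩ ⟨i, x.1⟩ + -A ⟨i, φ₂⟩ ⟨i, x.1⟩ + -A ⟨i, φ₃⟩ ⟨i, x.1⟩) = 0
    linarith
  have hcgW : ∀ g g' : permG E φ₀, ∑ y, c (g • y) * W (g' • y) = 0 := by
    intro g g'
    rw [← hcW ((g * g'⁻¹) • y₀)]
    refine Fintype.sum_equiv (MulAction.toPerm g) _ _ fun y => ?_
    rw [MulAction.toPerm_apply]
    congr 1
    change B y₀ (g' • y) = B ((g * g'⁻¹) • y₀) (g • y)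
    rw [← hBG (g * g'⁻¹) y₀, mul_smul g g'⁻¹ (g' • y), inv_smul_smul]
  have hcl : ∀ g g' : permG E φ₀, ∑ z ∈ Finset.univ.filter
      (fun z => Link (permG E φ₀) (bcj hreal) y₀ z), c (g • z) * W (g' • z) = 0 := by
    intro g g'
    exact core_split hG hW (c := fun z => c (g • z)) (fun τ => hcgW g τ) y₀ g'
  obtain ⟨h, y, hy, hmove, hper, hdis, hall⟩ : ∃ (h : permG E φ₀) (y : Bl E φ₀),
      Link (permG E φ₀) (bcj hreal) y₀ y ∧ h • y ≠ y ∧
      h ^ b • y = y ∧ (∀ k l : ℕ, bcj hreal (h ^ k • y) ≠ h ^ l • y) ∧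
      ∀ z, Link (permG E φ₀) (bcj hreal) y z ↔
        ∃ k : ℕ, z = h ^ k • y ∨ z = bcj hreal (h ^ k • y) := by
    by_cases hb2 : b = 2
    · subst hb2
      exact exists_cycle_two hcb hne hG y₀ (fun z _ => htr2 _ z) hcard'
    · exact exists_cycle_odd hcb hne hG y₀ (fun z _ => htr2 _ z) hb hb2 hcard'
  have : Fact b.Prime := ⟨hb⟩
  have hconst : ∀ g : permG E φ₀, c (g • h • y) = c (g • y) := by
    intro g
    refine cycle_const hcb hG (r := b) hW hc hmove hper hdis hall (hsep _ _ hmove) g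
      fun g' => ?_
    rw [← hcl g g']
    refine Finset.sum_congr ?_ fun _ _ => rfl
    ext z
    simp only [Finset.mem_filter, Finset.mem_univ, true_and, link_iff_of_link hy]
  have hpow : ∀ k : ℕ, c (h ^ k • y) = c y := by
    intro k
    induction k with
    | zero => rw [pow_zero, one_smul]
    | succ k ih =>
      rw [pow_succ, mul_smul, hconst, ih]
  have habs : ∀ z, Link (permG E φ₀) (bcj hreal) y₀ z → |c z| = |c y| := by
    intro z hz
    obtain ⟨k, hk | hk⟩ := (hall z).1 (link_trans (link_symm hy) hz)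
    · rw [hk, hpow]
    · rw [hk, hc, abs_neg, hpow]
  -- the value at `y₀`
  have hneq : ∀ u v : Bl E φ₀, ¬ SamePair v.1 u.1 → u ≠ v ∧ bcj hreal u ≠ v := by
    intro u v huv
    exact ⟨fun h' => huv (Or.inl (by rw [h'])), fun h' => huv (Or.inr (by rw [← h']; rfl))⟩
  have hc0 : c y₀ = 1 := by
    simp only [c]
    obtain ⟨a1, a2⟩ := hneq y₀ y₁ n1
    obtain ⟨b1, b2⟩ := hneq y₀ y₂ n2
    obtain ⟨d1, d2⟩ := hneq y₀ y₃ n3
    rw [if_pos trivial, if_neg a1, if_neg b1, if_neg d1, if_neg (hne y₀), if_neg a2, if_neg b2,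
      if_neg d2]
    norm_num
  have hnz : ∀ z, Link (permG E φ₀) (bcj hreal) y₀ z → c z ≠ 0 := by
    intro z hz h0
    have h1 := habs z hz
    have h2 := habs y₀ (link_refl _)
    rw [h0, abs_zero] at h1
    rw [← h1, hc0, abs_one] at h2
    exact one_ne_zero h2
  have hmem : ∀ z, c z ≠ 0 → z = y₀ ∨ z = y₁ ∨ z = y₂ ∨ z = y₃ ∨ bcj hreal z = y₀ ∨
      bcj hreal z = y₁ ∨ bcj hreal z = y₂ ∨ bcj hreal z = y₃ := by
    intro z hz
    by_contra hcon
    push Not at hcon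
    obtain ⟨c1, c2, c3, c4, c5, c6, c7, c8⟩ := hcon
    apply hz
    simp only [c]
    rw [if_neg c1, if_neg c2, if_neg c3, if_neg c4, if_neg c5, if_neg c6, if_neg c7, if_neg c8]
    norm_num
  -- the class has exactly eight elements
  have h8 : (Finset.univ.filter (fun ψ => Linked E φ₀ ψ)) =
      ({φ₀, φ₁, φ₂, φ₃} ∪ {ComplexEmbedding.conjugate φ₀, ComplexEmbedding.conjugate φ₁,
      ComplexEmbedding.conjugate φ₂, ComplexEmbedding.conjugate φ₃} :
      Finset ((X i).K →+* ℂ)) := by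
    ext ψ
    simp only [Finset.mem_filter, Finset.mem_univ, true_and, Finset.mem_union, Finset.mem_insert,
      Finset.mem_singleton]
    constructor
    · intro hψ
      have h1 := hmem ⟨ψ, agreeOn_of_linked hψ⟩ (hnz _ (link_of_linked hreal hψ h00 _))
      have key : ∀ w : Bl E φ₀, bcj hreal ⟨ψ, agreeOn_of_linked hψ⟩ = w →
          ψ = ComplexEmbedding.conjugate w.1 := by
        intro w hw
        rw [← hw]
        exact (conj_conj ψ).symm
      rcases h1 with h | h | h | h | h | h | h | h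
      · exact Or.inl (Or.inl (congrArg Subtype.val h))
      · exact Or.inl (Or.inr (Or.inl (congrArg Subtype.val h)))
      · exact Or.inl (Or.inr (Or.inr (Or.inl (congrArg Subtype.val h))))
      · exact Or.inl (Or.inr (Or.inr (Or.inr (congrArg Subtype.val h))))
      · exact Or.inr (Or.inl (key _ h))
      · exact Or.inr (Or.inr (Or.inl (key _ h)))
      · exact Or.inr (Or.inr (Or.inr (Or.inl (key _ h))))
      · exact Or.inr (Or.inr (Or.inr (Or.inr (key _ h))))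
    · have key : ∀ χ, Linked E φ₀ χ → Linked E φ₀ (ComplexEmbedding.conjugate χ) := fun χ hχ =>
        Relation.EqvGen.trans _ _ _ hχ (linked_conj hreal χ)
      rintro ((rfl | rfl | rfl | rfl) | (rfl | rfl | rfl | rfl))
      · exact Relation.EqvGen.refl _
      · exact k1
      · exact k2
      · exact k3
      · exact linked_conj hreal _
      · exact key _ k1
      · exact key _ k2
      · exact key _ k3
  obtain ⟨hc8, -⟩ := eight_card (X := X) n1 n2 n3 n21 n31 n32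
  rw [← h8, ← Fintype.card_subtype, ← Nat.card_eq_fintype_card] at hc8
  have h9 : 2 * b = 8 := by
    rw [← hcard]
    exact hc8
  have h10 : b = 4 := by omega
  rw [h10] at hb
  revert hb
  decide

end

end Pool.Agent.V7H82.TG
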