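import Mathlib
import Pool.Agent.TH776.FM.FourMain
import Pool.Agent.V7H82.TG.Four
import Pool.Agent.V7H82.TG.Prime

/-!
# The invariant kernel, with relations up to roots of unity
-/

set_option linter.unusedSectionVars false
set_option linter.unusedVariables false

namespace Pool.Agent.V7H82.TG

open NumberField Module Pool.Agent.H204R3.CM Pool.Agent.H977R3.WN Pool.Agent.W527
  Pool.Agent.W527.Dec Pool.Agent.W527.TateRing Pool.Agent.H485R3.Exact Pool.Agent.TH776.FM

noncomputable section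

variable {p m : ℕ} [hp : Fact p.Prime] {ι : Type} [Fintype ι] (X : ι → WeilNumber p m)

/-- The kernel, with relations up to roots of unity. -/
theorem exists_kernelU (X : ι → WeilNumber p m) : ∃ A : Em X → Em X → ℤ,
    (∀ x y, A x y = A y x) ∧ (∀ x y, A (bar x) y = - A x y) ∧
    (∀ σ x y, A (act σ x) (act σ y) = A x y) ∧ (∀ x y, 2 * A x y ≤ A x x + A y y) ∧
    (∀ x y, 2 * A x y = A x x + A y y → ∃ s : ℕ, 0 < s ∧ val x ^ s = val y ^ s) ∧
    ∀ {r : ℕ} (μ : Fin r → Em X) (s : ℕ), 0 < s →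
      (∏ l, val (μ l)) ^ (2 * s) = ((p ^ m : ℕ) : ℂ) ^ (s * r) → ∀ y, ∑ l, A (μ l) y = 0 := by
  classical
  obtain ⟨D, N, κ, u, hD, hN, hκ, hNκ, hu⟩ := exists_weights X
  obtain ⟨L, _, _, j, h⟩ := exists_galois (fun i => (X i).K)
  let jp : L →+* PadicAlgCl p := ((IsAlgClosed.lift : L →ₐ[ℚ] PadicAlgCl p) : L →+* PadicAlgCl p)
  let lf : Em X → Σ i, ((X i).K →+* L) := fun x => ⟨x.1, (h x.1 x.2).choose⟩
  have hlf : ∀ x : Em X, j.comp (lf x).2 = x.2 := fun x => (h x.1 x.2).choose_spec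
  have hodd : ∀ i, ∀ φ : (X i).K →+* L, ww N u jp i (cbar φ) = - ww N u jp i φ :=
    fun i φ => ww_odd hκ hu jp i φ
  have hlfbar : ∀ x : Em X, lf (bar x) = ⟨x.1, cbar (lf x).2⟩ := by
    intro x
    have h1 : (lf (bar x)).2 = cbar (lf x).2 := by
      apply Pool.Agent.W527.comp_injective j
      change j.comp (lf (bar x)).2 = j.comp (cbar (lf x).2)
      rw [hlf, comp_cbar, hlf]
      rfl
    exact Sigma.ext rfl (heq_of_eq h1)
  have hlfact : ∀ (σ : ℂ ≃+* ℂ) (g : L ≃ₐ[ℚ] L), Lifts j σ g → ∀ x : Em X,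
      lf (act σ x) = ⟨x.1, g • (lf x).2⟩ := by
    intro σ g hg x
    have h1 : (lf (act σ x)).2 = g • (lf x).2 := by
      apply Pool.Agent.W527.comp_injective j
      change j.comp (lf (act σ x)).2 = j.comp (g • (lf x).2)
      rw [hlf, ← lifts_comp j hg, hlf]
      rfl
    exact Sigma.ext rfl (heq_of_eq h1)
  let wt : Em X → (L ≃ₐ[ℚ] L) → ℤ := fun x g => wtS (ww N u jp) g (lf x)
  have hval : ∀ x : Em X, val x = j ((lf x).2 (X (lf x).1).π) := by
    intro x
    have h1 := RingHom.congr_fun (hlf x) (X x.1).π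
    exact h1.symm
  have hwbar : ∀ x g, wt (bar x) g = - wt x g := by
    intro x g
    change wtS (ww N u jp) g (lf (bar x)) = - wtS (ww N u jp) g (lf x)
    rw [hlfbar]
    exact hodd x.1 (g • (lf x).2)
  -- relations and sums
  have hrel : ∀ {k : ℕ} (μ : Fin k → Em X), ∀ s : ℕ, 0 < s →
      (∏ l, val (μ l)) ^ (2 * s) = ((p ^ m : ℕ) : ℂ) ^ (s * k) → ∀ g, ∑ l, wt (μ l) g = 0 := by
    intro k μ s hs hμ g
    refine sum_of_rel hD hNκ hu jp (fun l => lf (μ l)) hs ?_ g
    apply j.injective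
    rw [map_pow, map_pow, map_natCast, Fintype.card_fin, ← hμ]
    congr 1
    unfold PP
    rw [map_prod]
    exact Finset.prod_congr rfl fun l _ => (hval (μ l)).symm
  have hsum : ∀ {k : ℕ} (μ : Fin k → Em X), (∀ g, ∑ l, wt (μ l) g = 0) →
      ∃ s : ℕ, 0 < s ∧ (∏ l, val (μ l)) ^ (2 * s) = ((p ^ m : ℕ) : ℂ) ^ (s * k) := by
    intro k μ hμ
    obtain ⟨s, hs, h1⟩ := rel_of_sum hD hNκ hu jp (fun l => lf (μ l)) hμ
    refine ⟨s, hs, ?_⟩
    have h2 := congrArg j h1
    rw [map_pow, map_pow, map_natCast, Fintype.card_fin] at h2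
    rw [← h2]
    congr 1
    unfold PP
    rw [map_prod]
    exact Finset.prod_congr rfl fun l _ => hval (μ l)
  refine ⟨fun x y => ∑ g, wt x g * wt y g, fun x y => ?_, fun x y => ?_, fun σ x y => ?_,
    fun x y => ?_, fun x y hxy => ?_, fun {r} μ s₀ hs₀ hμ y => ?_⟩
  · exact Finset.sum_congr rfl fun g _ => mul_comm _ _
  · simp only
    rw [← Finset.sum_neg_distrib]
    exact Finset.sum_congr rfl fun g _ => by rw [hwbar]; ring
  · obtain ⟨g₀, hg₀⟩ := exists_lift j σ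
    simp only
    have h1 : ∀ (x : Em X) (g : L ≃ₐ[ℚ] L), wt (act σ x) g = wt x (g * g₀) := by
      intro x g
      change wtS (ww N u jp) g (lf (act σ x)) = wtS (ww N u jp) (g * g₀) (lf x)
      rw [hlfact σ g₀ hg₀]
      change ww N u jp x.1 (g • (g₀ • (lf x).2)) = ww N u jp x.1 ((g * g₀) • (lf x).2)
      rw [mul_smul]
    simp only [h1]
    exact Fintype.sum_equiv (Equiv.mulRight g₀) _ _ fun g => rfl
  · have h1 : 0 ≤ ∑ g, (wt x g - wt y g) ^ 2 := Finset.sum_nonneg fun g _ => sq_nonneg _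
    have h2 : ∑ g, (wt x g - wt y g) ^ 2 =
        ∑ g, wt x g * wt x g + ∑ g, wt y g * wt y g - 2 * ∑ g, wt x g * wt y g := by
      rw [Finset.mul_sum, ← Finset.sum_add_distrib, ← Finset.sum_sub_distrib]
      exact Finset.sum_congr rfl fun g _ => by ring
    simp only
    linarith
  · simp only at hxy
    have h2 : ∑ g, (wt x g - wt y g) ^ 2 =
        ∑ g, wt x g * wt x g + ∑ g, wt y g * wt y g - 2 * ∑ g, wt x g * wt y g := by
      rw [Finset.mul_sum, ← Finset.sum_add_distrib, ← Finset.sum_sub_distrib]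
      exact Finset.sum_congr rfl fun g _ => by ring
    rw [hxy, sub_self] at h2
    have h3 := (Finset.sum_eq_zero_iff_of_nonneg fun g _ => sq_nonneg _).1 h2
    obtain ⟨s, hs, h4⟩ := hsum ![x, bar y] (fun g => by
      rw [Fin.sum_univ_two]
      have h5 := h3 g (Finset.mem_univ _)
      have h6 : wt x g - wt y g = 0 := by simpa using h5
      simp only [Matrix.cons_val_zero, Matrix.cons_val_one]
      rw [hwbar]
      linarith)
    refine ⟨2 * s, by omega, ?_⟩
    rw [Fin.prod_univ_two] at h4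
    simp only [Matrix.cons_val_zero, Matrix.cons_val_one] at h4
    have h5 := val_bar y
    have hq : ((p ^ m : ℕ) : ℂ) ≠ 0 := by exact_mod_cast (pow_pos hp.out.pos m).ne'
    have hb : val (bar y) ≠ 0 := by
      intro h6
      rw [h6, mul_zero] at h5
      exact hq h5.symm
    have h7 : (val x ^ (2 * s)) * val (bar y) ^ (2 * s) = val y ^ (2 * s) * val (bar y) ^ (2 * s) := by
      rw [← mul_pow, ← mul_pow, h4, h5, mul_comm]
    exact mul_right_cancel₀ (pow_ne_zero _ hb) h7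
  · have h1 := hrel μ s₀ hs₀ hμ
    simp only
    rw [Finset.sum_comm]
    refine Finset.sum_eq_zero fun g _ => ?_
    rw [← Finset.sum_mul, h1 g, zero_mul]

variable {X}

/-- The kernel, with relations of any length. -/
theorem exists_kerU (X : ι → WeilNumber p m) : ∃ A : Em X → Em X → ℤ, IsKer A ∧
    ∀ {r : ℕ} (μ : Fin r → Em X) (s : ℕ), 0 < s →
      (∏ l, val (μ l)) ^ (2 * s) = ((p ^ m : ℕ) : ℂ) ^ (s * r) → ∀ y, ∑ l, A (μ l) y = 0 := by
  obtain ⟨A, h1, h2, h3, h4, h5, h6⟩ := exists_kernelU X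
  refine ⟨A, ⟨h1, h2, h3, h4, h5, fun x₀ x₁ x₂ x₃ hx y => ?_⟩, h6⟩
  have h7 := h6 ![x₀, x₁, x₂, x₃] 1 one_pos (by
    rw [Fin.prod_univ_four]
    simp only [Matrix.cons_val]
    rw [mul_one, hx]
    ring) y
  rw [Fin.sum_univ_four] at h7
  exact h7

end

end Pool.Agent.V7H82.TG
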