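import Mathlib
import Pool.Agent.V7H82.TG.Four
import Pool.Agent.V7H82.TG.Prime

/-!
# Only trivial relations of length four between embeddings which agree on the fields of
endomorphisms, and the main theorem
-/

set_option linter.unusedSectionVars false
set_option linter.unusedVariables false

namespace Pool.Agent.V7H82.TG

open NumberField Module Polynomial Pool.Agent.H204R3.GP Pool.Agent.W527.TateRing
  Pool.Agent.TH776.FM Pool.Agent.TH776.FL

noncomputable section

variable {p m : ℕ} [hp : Fact p.Prime] {ι : Type} [Fintype ι] {X : ι → WeilNumber p m}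

theorem exists_em {a : ℂ} (ha : a ∈ (∏ i, minpoly ℚ (X i).π).rootSet ℂ) : ∃ x : Em X, val x = a := by
  obtain ⟨i, σ, h⟩ := exists_root ha
  exact ⟨⟨i, σ⟩, h⟩

theorem q_ne : ((p ^ m : ℕ) : ℂ) ≠ 0 := by exact_mod_cast (pow_pos hp.out.pos m).ne'

theorem val_bar_eq {x y : Em X} (h : y = bar x) : val x * val y = ((p ^ m : ℕ) : ℂ) := by
  rw [h, val_bar]

/-- The product of the minimal polynomials is separable. -/
theorem separable_of_flipped (hflip : PairwiseFlipped X)
    (hgen : ∀ i, ∀ M : ℕ, 0 < M → IntermediateField.adjoin ℚ {(X i).π ^ M} = ⊤) :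
    (∏ i, minpoly ℚ (X i).π).Separable := by
  classical
  refine Polynomial.separable_prod' (fun i _ i' _ hne => ?_)
    (fun i _ => (minpoly.irreducible (X i).integral.tower_top).separable)
  by_contra hcop
  have hdvd : minpoly ℚ (X i).π ∣ minpoly ℚ (X i').π := by
    by_contra hnd
    exact hcop (((minpoly.irreducible (X i).integral.tower_top).coprime_iff_not_dvd).2 hnd)
  let φ : (X i).K →+* ℂ := Classical.arbitrary _
  have h1 : Polynomial.aeval (φ (X i).π) (minpoly ℚ (X i).π) = 0 := by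
    have h2 : φ (X i).π ∈ (minpoly ℚ (X i).π).rootSet ℂ := by
      rw [← NumberField.Embeddings.range_eval_eq_rootSet_minpoly]
      exact ⟨φ, rfl⟩
    exact (Polynomial.mem_rootSet.1 h2).2
  obtain ⟨q, hq⟩ := hdvd
  have h2 : φ (X i).π ∈ (minpoly ℚ (X i').π).rootSet ℂ := by
    rw [Polynomial.mem_rootSet]
    refine ⟨minpoly.ne_zero (X i').integral.tower_top, ?_⟩
    rw [hq, map_mul, h1, zero_mul]
  rw [← NumberField.Embeddings.range_eval_eq_rootSet_minpoly] at h2
  obtain ⟨φ', hφ'⟩ := h2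
  have h3 := val_inj hflip hgen (x := ⟨i, φ⟩) (y := ⟨i', φ'⟩) one_pos (by
    rw [pow_one, pow_one]
    exact hφ'.symm)
  exact hne (Sigma.mk.inj h3).1

/-- There are only trivial relations of length four between embeddings that agree on the fields of
endomorphisms. -/
theorem noRelations {E : ∀ i, IntermediateField ℚ (X i).K} (hX : ∀ i, IsAdmissible (p ^ m) (X i).π (E i))
    (hflip : PairwiseFlipped X) {𝒬 : Set (Polynomial ℚ)}
    (h𝒬 : ∀ i, ∀ t ∈ E i, ∃ Q ∈ 𝒬, aeval (X i).π Q = t) :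
    NoRelations (∏ i, minpoly ℚ (X i).π) (p ^ m) 𝒬 := by
  obtain ⟨A, hA⟩ := exists_ker X
  have hgen : ∀ i, ∀ M : ℕ, 0 < M → IntermediateField.adjoin ℚ {(X i).π ^ M} = ⊤ :=
    fun i => (hX i).gen
  refine ⟨?_, ?_, ?_⟩
  · intro M hM a ha b hb hab
    obtain ⟨x, rfl⟩ := exists_em ha
    obtain ⟨y, rfl⟩ := exists_em hb
    rw [val_inj hflip hgen hM hab]
  · intro a ha b hb c hc habc
    obtain ⟨x, rfl⟩ := exists_em ha
    obtain ⟨y, rfl⟩ := exists_em hb
    obtain ⟨z, rfl⟩ := exists_em hc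
    have h1 := hA.rel x x (bar y) (bar z) (by
      have hy := val_bar y
      have hz := val_bar z
      rw [← habc]
      linear_combination (val z * val (bar z)) * hy + ((p ^ m : ℕ) : ℂ) * hz) x
    rw [hA.odd, hA.odd] at h1
    by_cases hyx : y = x
    · rw [hyx]
    · exfalso
      have h2 := ker_lt hA hflip hgen hyx
      have h3 : A x z ≤ A x x := by
        by_cases hzx : z = x
        · rw [hzx]
        · exact (ker_lt hA hflip hgen hzx).le
      rw [hA.symm y x, hA.symm z x] at h1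
      omega
  · intro a ha b hb c hc d hd hQ habcd
    obtain ⟨x, rfl⟩ := exists_em ha
    obtain ⟨y, rfl⟩ := exists_em hb
    obtain ⟨z, rfl⟩ := exists_em hc
    obtain ⟨w, rfl⟩ := exists_em hd
    have hq := q_ne (p := p) (m := m)
    by_cases hxy : y = bar x
    · left
      have h1 := val_bar_eq hxy
      refine ⟨h1, mul_left_cancel₀ hq ?_⟩
      rw [← h1]
      linear_combination habcd - (val x * val y + ((p ^ m : ℕ) : ℂ)) * h1
    by_cases hzw : w = bar z
    · left
      have h1 := val_bar_eq hzw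
      refine ⟨mul_left_cancel₀ hq ?_, h1⟩
      rw [← h1]
      linear_combination habcd - (val z * val w + ((p ^ m : ℕ) : ℂ)) * h1
    by_cases hxz : z = bar x
    · right; left
      have h1 := val_bar_eq hxz
      refine ⟨h1, mul_left_cancel₀ hq ?_⟩
      rw [← h1]
      linear_combination habcd - (val x * val z + ((p ^ m : ℕ) : ℂ)) * h1
    by_cases hyw : w = bar y
    · right; left
      have h1 := val_bar_eq hyw
      refine ⟨mul_left_cancel₀ hq ?_, h1⟩
      rw [← h1]
      linear_combination habcd - (val y * val w + ((p ^ m : ℕ) : ℂ)) * h1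
    by_cases hxw : w = bar x
    · right; right
      have h1 := val_bar_eq hxw
      refine ⟨h1, mul_left_cancel₀ hq ?_⟩
      rw [← h1]
      linear_combination habcd - (val x * val w + ((p ^ m : ℕ) : ℂ)) * h1
    by_cases hyz : z = bar y
    · right; right
      have h1 := val_bar_eq hyz
      refine ⟨mul_left_cancel₀ hq ?_, h1⟩
      rw [← h1]
      linear_combination habcd - (val y * val z + ((p ^ m : ℕ) : ℂ)) * h1
    exfalso
    have hval : ∀ u : Em X, (u = x ∨ u = y ∨ u = z ∨ u = w) → ∀ Q ∈ 𝒬,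
        aeval (val x) Q = aeval (val u) Q := by
      intro u hu Q hQm
      obtain ⟨e1, e2, e3⟩ := hQ Q hQm
      rcases hu with rfl | rfl | rfl | rfl
      · rfl
      · exact e1
      · exact e2
      · exact e3
    have hquad : Quad A E x y z w :=
      { rel := hA.rel x y z w habcd
        ab := hxy
        ac := hxz
        ad := hxw
        bc := hyz
        bd := hyw
        cd := hzw
        agree := by
          intro u v hu hv i φ ψ hφ hψ t ht
          obtain ⟨Q, hQm, hQt⟩ := h𝒬 i t ht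
          have h1 := (hval u hu Q hQm).symm.trans (hval v hv Q hQm)
          have h2 : ∀ χ : (X i).K →+* ℂ, aeval (val (⟨i, χ⟩ : Em X)) Q = χ t := by
            intro χ
            rw [← hQt]
            exact Polynomial.aeval_algHom_apply χ.toRatAlgHom (X i).π Q
          rw [hφ, hψ, h2, h2] at h1
          exact h1 }
    obtain ⟨i, φ₀, φ₁, φ₂, φ₃, rfl, rfl, rfl, rfl, k1, k2, k3, n1, n2, n3, n21, n31, n32⟩ :=
      hquad.reduce hA hflip hgen
    have hrel : ∀ ψ : (X i).K →+* ℂ, A ⟨i, φ₀⟩ ⟨i, ψ⟩ + A ⟨i, φ₁⟩ ⟨i, ψ⟩ + A ⟨i, φ₂⟩ ⟨i, ψ⟩ +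
        A ⟨i, φ₃⟩ ⟨i, ψ⟩ = 0 := fun ψ => hquad.rel _
    rcases (hX i).cls φ₀ with ⟨b, hb, hcard⟩ | ⟨hhom, h20, h32, h56⟩
    · exact no_prime hA hflip hgen (hX i).real k1 k2 k3 n1 n2 n3 n21 n31 n32 hrel hb hcard
    · rcases class_card hA hflip hgen (hX i).real k1 k2 k3 n1 n2 n3 n21 n31 n32 hrel hhom with
        h8 | h | h | h
      · obtain ⟨F, hEF, hF, hreal, hnorm⟩ := four_field hA hflip hgen (hX i).real k1 k2 k3 n1 n2 n3
          n21 n31 n32 hrel hhom h8 habcd
        obtain ⟨t, ht, ht'⟩ := hreal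
        exact (hX i).norm ⟨F, hEF, hF, fun h => ht' (h t ht), hnorm⟩
      · exact h20 h
      · exact h32 h
      · exact h56 h

/-- The main theorem. -/
theorem tate_main {k : Type} [Field k] [CharZero k] {E : ∀ i, IntermediateField ℚ (X i).K}
    (hX : ∀ i, IsAdmissible (p ^ m) (X i).π (E i)) (hflip : PairwiseFlipped X)
    {V : Type} [AddCommGroup V] [Module k V] [FiniteDimensional k V] {Γ : Type} [Group Γ]
    {ρ : Representation k Γ V} {χ : Γ →* k} {ω : V →ₗ[k] V →ₗ[k] k}
    (h : IsTateModule ρ χ ω) (hR : RosatiTrivial ρ ω) {γ : Γ} (hχ : χ γ = (p ^ m : ℕ))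
    (hγ : (ρ γ).charpoly = (∏ i, minpoly ℚ (X i).π).map (algebraMap ℚ k))
    (hE : ∀ i, ∀ t ∈ E i, ∃ Q : ℚ[X], aeval (X i).π Q = t ∧
      IsEndo ρ (aeval (ρ γ) (Q.map (algebraMap ℚ k)))) :
    TateGeneratedInDegreeTwo ρ χ := by
  refine generated_of_blocks h hR hχ (separable_of_flipped hflip fun i => (hX i).gen) hγ
    (𝒬 := {Q : ℚ[X] | IsEndo ρ (aeval (ρ γ) (Q.map (algebraMap ℚ k)))}) (fun Q hQ => hQ)
    (noRelations hX hflip fun i t ht => ?_)
  obtain ⟨Q, h1, h2⟩ := hE i t ht
  exact ⟨Q, h2, h1⟩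

end

end Pool.Agent.V7H82.TG
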