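import Mathlib
import Pool.Agent.V7H82.TG.KerU
import Pool.Agent.V7H82.TG.DefsU
import Pool.Agent.V7H82.TG.Main

/-!
# Only trivial relations of length four, up to roots of unity
-/

set_option linter.unusedSectionVars false
set_option linter.unusedVariables false

namespace Pool.Agent.V7H82.TG

open NumberField Module Polynomial Pool.Agent.W527.TateRing Pool.Agent.W516.FT

noncomputable section

section block

variable {p m : ℕ} [hp : Fact p.Prime] {ι : Type} [Fintype ι] {X : ι → WeilNumber p m}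
  {A : Em X → Em X → ℤ} (hA : IsKer A) (hflip : PairwiseFlipped X)
  (hgen : ∀ i, ∀ M : ℕ, 0 < M → IntermediateField.adjoin ℚ {(X i).π ^ M} = ⊤)
  {i : ι} {E : IntermediateField ℚ (X i).K}
  (hreal : ∀ t ∈ E, IsCMField.complexConj (X i).K t = t)
  {φ₀ φ₁ φ₂ φ₃ : (X i).K →+* ℂ} (k1 : Linked E φ₀ φ₁) (k2 : Linked E φ₀ φ₂) (k3 : Linked E φ₀ φ₃)
  (n1 : ¬ SamePair φ₁ φ₀) (n2 : ¬ SamePair φ₂ φ₀) (n3 : ¬ SamePair φ₃ φ₀) (n21 : ¬ SamePair φ₂ φ₁)
  (n31 : ¬ SamePair φ₃ φ₁) (n32 : ¬ SamePair φ₃ φ₂)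
  (hrel : ∀ ψ : (X i).K →+* ℂ, A ⟨i, φ₀⟩ ⟨i, ψ⟩ + A ⟨i, φ₁⟩ ⟨i, ψ⟩ + A ⟨i, φ₂⟩ ⟨i, ψ⟩ +
    A ⟨i, φ₃⟩ ⟨i, ψ⟩ = 0)

include hA hflip hgen hreal k1 k2 k3 n1 n2 n3 n21 n31 n32 hrel in
/-- The fixed field of the block of the four embeddings. -/
theorem four_block (hhom : HomClass E φ₀) (hcard : classCard E φ₀ = 8) :
    ∃ F : IntermediateField ℚ (X i).K, E ≤ F ∧ finrank F (X i).K = 4 ∧
      (∃ t ∈ F, IsCMField.complexConj (X i).K t ≠ t) ∧
      φ₀ (Algebra.norm F (X i).π : F) =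
        φ₀ (X i).π * φ₁ (X i).π * φ₂ (X i).π * φ₃ (X i).π := by
  classical
  have _ : Fintype (Cl E φ₀) := Fintype.ofFinite _
  obtain ⟨α, hα, hβ, habs, s01, s02, s03, s12, s13, s23⟩ :=
    Kern.signs (X := Cl E φ₀) (c := cl hreal)
    (A := kc A) (kc_symm hA) (β := A ⟨i, φ₀⟩ ⟨i, φ₀⟩)
    (fun x => (show A ⟨i, x.1⟩ ⟨i, x.1⟩ = A ⟨i, φ₀⟩ ⟨i, φ₀⟩ from ker_diag hA rfl))
    (fun x y h => kc_lt hA hflip hgen hreal h)
    (fun x y x' y' h h' => kc_hom hA hreal hhom h h')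
    (x₀ := ⟨φ₀, Relation.EqvGen.refl _⟩) (x₁ := ⟨φ₁, k1⟩) (x₂ := ⟨φ₂, k2⟩) (x₃ := ⟨φ₃, k3⟩)
    ((np_iff hreal).2 n1) ((np_iff hreal).2 n2) ((np_iff hreal).2 n3) ((np_iff hreal).2 n21)
    ((np_iff hreal).2 n31) ((np_iff hreal).2 n32) (fun y => hrel y.1)
  obtain ⟨hc8, hc4⟩ := eight_card (X := X) n1 n2 n3 n21 n31 n32
  set C : Finset ((X i).K →+* ℂ) := {φ₀, φ₁, φ₂, φ₃} with hC
  set C' : Finset ((X i).K →+* ℂ) := {ComplexEmbedding.conjugate φ₀,
    ComplexEmbedding.conjugate φ₁, ComplexEmbedding.conjugate φ₂,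
    ComplexEmbedding.conjugate φ₃} with hC'
  have hCl : ∀ φ ∈ C, Linked E φ₀ φ := by
    intro φ hφ
    simp only [hC, Finset.mem_insert, Finset.mem_singleton] at hφ
    rcases hφ with rfl | rfl | rfl | rfl
    · exact Relation.EqvGen.refl _
    · exact k1
    · exact k2
    · exact k3
  have hC'C : ∀ φ, φ ∈ C' ↔ ComplexEmbedding.conjugate φ ∈ C := by
    have key : ∀ x y : (X i).K →+* ℂ, x = ComplexEmbedding.conjugate y ↔
        ComplexEmbedding.conjugate x = y := fun x y =>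
      ⟨fun h => by rw [h, conj_conj], fun h => by rw [← h, conj_conj]⟩
    intro φ
    simp only [hC, hC', Finset.mem_insert, Finset.mem_singleton]
    rw [key, key, key, key]
  have hcls : ∀ ψ, Linked E φ₀ ψ → ψ ∈ C ∨ ψ ∈ C' := by
    have h1 : (C ∪ C') = Finset.univ.filter (fun ψ => Linked E φ₀ ψ) := by
      apply Finset.eq_of_subset_of_card_le
      · intro ψ hψ
        rw [Finset.mem_union] at hψ
        refine Finset.mem_filter.2 ⟨Finset.mem_univ _, ?_⟩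
        rcases hψ with h | h
        · exact hCl ψ h
        · have h2 := hCl _ ((hC'C ψ).1 h)
          refine Relation.EqvGen.trans _ _ _ h2 (Relation.EqvGen.symm _ _ (linked_conj hreal ψ))
      · rw [hc8, ← hcard]
        unfold classCard
        rw [Nat.card_eq_fintype_card, Fintype.card_subtype]
    intro ψ hψ
    rw [← Finset.mem_union, h1]
    exact Finset.mem_filter.2 ⟨Finset.mem_univ _, hψ⟩
  have hval : ∀ φ ∈ C, ∀ ψ ∈ C, φ ≠ ψ → A ⟨i, φ⟩ ⟨i, ψ⟩ = -α := by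
    have s10 : A ⟨i, φ₁⟩ ⟨i, φ₀⟩ = -α := by rw [hA.symm]; exact s01
    have s20 : A ⟨i, φ₂⟩ ⟨i, φ₀⟩ = -α := by rw [hA.symm]; exact s02
    have s30 : A ⟨i, φ₃⟩ ⟨i, φ₀⟩ = -α := by rw [hA.symm]; exact s03
    have s21 : A ⟨i, φ₂⟩ ⟨i, φ₁⟩ = -α := by rw [hA.symm]; exact s12
    have s31 : A ⟨i, φ₃⟩ ⟨i, φ₁⟩ = -α := by rw [hA.symm]; exact s13
    have s32 : A ⟨i, φ₃⟩ ⟨i, φ₂⟩ = -α := by rw [hA.symm]; exact s23
    intro φ hφ ψ hψ hne
    simp only [hC, Finset.mem_insert, Finset.mem_singleton] at hφ hψ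
    rcases hφ with rfl | rfl | rfl | rfl <;> rcases hψ with rfl | rfl | rfl | rfl <;>
      first | exact absurd rfl hne | assumption
  have hdiag : ∀ φ : (X i).K →+* ℂ, A ⟨i, φ⟩ ⟨i, φ⟩ = 3 * α := by
    intro φ
    rw [← hβ]
    exact ker_diag hA rfl
  have hblock : ∀ σ : ℂ ≃+* ℂ, (∃ φ ∈ C, move σ φ ∈ C) → ∀ φ ∈ C, move σ φ ∈ C := by
    rintro σ ⟨φ, hφ, hσφ⟩ ψ hψ
    by_cases hne : φ = ψ
    · rw [← hne]
      exact hσφ
    have h1 : Linked E φ₀ (move σ ψ) := by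
      refine Relation.EqvGen.trans _ _ _ (hCl _ hσφ) (linked_move σ ?_)
      exact Relation.EqvGen.trans _ _ _ (Relation.EqvGen.symm _ _ (hCl _ hφ)) (hCl _ hψ)
    rcases hcls _ h1 with h2 | h2
    · exact h2
    · exfalso
      have h3 := (hC'C _).1 h2
      have h4 : A ⟨i, move σ φ⟩ ⟨i, move σ ψ⟩ = -α := by
        rw [kc_move hA, hval φ hφ ψ hψ hne]
      have h5 : A ⟨i, move σ φ⟩ ⟨i, ComplexEmbedding.conjugate (move σ ψ)⟩ = α := by
        rw [mk_bar, odd_right' hA, h4, neg_neg]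
      by_cases h6 : move σ φ = ComplexEmbedding.conjugate (move σ ψ)
      · rw [← h6, hdiag] at h5
        omega
      · rw [hval _ hσφ _ h3 h6] at h5
        omega
  have h0C : φ₀ ∈ C := by simp [hC]
  obtain ⟨hdeg, hnorm⟩ := blockField_degree h0C hblock
  refine ⟨blockField C φ₀, ?_, by rw [hdeg, hc4], ?_, ?_⟩
  · intro t ht φ hφ
    exact (agreeOn_of_linked (hCl φ hφ) t ht).symm
  · by_contra hcon
    push Not at hcon
    have h1 : ComplexEmbedding.conjugate φ₀ ∈ C := mem_of_agree h0C hblock fun t ht => by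
      rw [conj_apply, hcon t ht]
    have h2 : ComplexEmbedding.conjugate φ₀ ∉ C := by
      have key : ∀ x : (X i).K →+* ℂ, ¬ SamePair x φ₀ → ComplexEmbedding.conjugate φ₀ ≠ x :=
        fun x hx h => hx (Or.inr h.symm)
      simp only [hC, Finset.mem_insert, Finset.mem_singleton, not_or]
      exact ⟨conj_ne φ₀, key _ n1, key _ n2, key _ n3⟩
    exact h2 h1
  · have h1 := hnorm (X i).π
    obtain ⟨a1, a2, a3, a4⟩ : (φ₀ ∉ ({φ₁, φ₂, φ₃} : Finset ((X i).K →+* ℂ))) ∧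
        (φ₁ ∉ ({φ₂, φ₃} : Finset ((X i).K →+* ℂ))) ∧ (φ₂ ∉ ({φ₃} : Finset ((X i).K →+* ℂ))) ∧
        True := by
      have key : ∀ x y : (X i).K →+* ℂ, ¬ SamePair x y → y ≠ x :=
        fun x y hx h => hx (Or.inl h.symm)
      simp only [Finset.mem_insert, Finset.mem_singleton, not_or]
      exact ⟨⟨key _ _ n1, key _ _ n2, key _ _ n3⟩, ⟨key _ _ n21, key _ _ n31⟩, key _ _ n32,
        trivial⟩
    rw [hC, Finset.prod_insert a1, Finset.prod_insert a2, Finset.prod_insert a3,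
      Finset.prod_singleton] at h1
    rw [← hC] at h1
    rw [h1]
    ring

end block

variable {p m : ℕ} [hp : Fact p.Prime] {ι : Type} [Fintype ι] {X : ι → WeilNumber p m}

theorem real_bot {K : Type*} [Field K] [NumberField K] [IsCMField K] :
    IsReal (⊥ : IntermediateField ℚ K) := by
  intro t ht
  obtain ⟨r, rfl⟩ := IntermediateField.mem_bot.1 ht
  rw [eq_ratCast, map_ratCast]

theorem agree_bot {K : Type*} [Field K] [NumberField K] (x y : K →+* ℂ) :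
    AgreeOn (⊥ : IntermediateField ℚ K) x y := by
  intro t ht
  obtain ⟨r, rfl⟩ := IntermediateField.mem_bot.1 ht
  rw [eq_ratCast, map_ratCast, map_ratCast]

/-- There are only trivial relations of length four, up to roots of unity. -/
theorem onlyTrivialU (hX : ∀ i, IsGoodWeilNumber (p ^ m) (X i).π) (hflip : PairwiseFlipped X) :
    OnlyTrivialRelationsOfLengthFour (∏ i, minpoly ℚ (X i).π) (p ^ m) := by
  obtain ⟨A, hA, hAU⟩ := exists_kerU X
  have hgen : ∀ i, ∀ M : ℕ, 0 < M → IntermediateField.adjoin ℚ {(X i).π ^ M} = ⊤ :=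
    fun i => (hX i).gen
  intro M hM a ha b hb c hc d hd habcd
  obtain ⟨x, rfl⟩ := exists_em ha
  obtain ⟨y, rfl⟩ := exists_em hb
  obtain ⟨z, rfl⟩ := exists_em hc
  obtain ⟨w, rfl⟩ := exists_em hd
  have hq := q_ne (p := p) (m := m)
  -- if two factors are conjugate, so are the others
  have key : ∀ x y z w : Em X, (val x * val y * val z * val w) ^ M = ((p ^ m : ℕ) : ℂ) ^ (2 * M) →
      y = bar x → val x * val y = ((p ^ m : ℕ) : ℂ) ∧ val z * val w = ((p ^ m : ℕ) : ℂ) := by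
    intro x y z w h hxy
    have h1 := val_bar_eq hxy
    refine ⟨h1, ?_⟩
    have h2 : (val z * val w) ^ M = ((p ^ m : ℕ) : ℂ) ^ M := by
      apply mul_left_cancel₀ (pow_ne_zero M hq)
      rw [← mul_pow, ← pow_add, ← two_mul, ← h]
      congr 1
      rw [← h1]
      ring
    have h3 := val_bar z
    have h4 : val w ^ M = val (bar z) ^ M := by
      have hz : val z ≠ 0 := by
        intro h5
        rw [h5, zero_mul] at h3
        exact hq h3.symm
      apply mul_left_cancel₀ (pow_ne_zero M hz)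
      rw [← mul_pow, ← mul_pow, h2, h3]
    rw [val_inj hflip hgen hM h4, h3]
  have hperm : ∀ u : ℂ, u = val x * val y * val z * val w → u ^ M =
      ((p ^ m : ℕ) : ℂ) ^ (2 * M) := fun u hu => by rw [hu, habcd]
  by_cases hxy : y = bar x
  · exact Or.inl (key x y z w habcd hxy)
  by_cases hzw : w = bar z
  · exact Or.inl (key z w x y (hperm _ (by ring)) hzw).symm
  by_cases hxz : z = bar x
  · exact Or.inr (Or.inl (key x z y w (hperm _ (by ring)) hxz))
  by_cases hyw : w = bar y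
  · exact Or.inr (Or.inl (key y w x z (hperm _ (by ring)) hyw).symm)
  by_cases hxw : w = bar x
  · exact Or.inr (Or.inr (key x w y z (hperm _ (by ring)) hxw))
  by_cases hyz : z = bar y
  · exact Or.inr (Or.inr (key y z x w (hperm _ (by ring)) hyz).symm)
  exfalso
  have hrel0 : ∀ u, A x u + A y u + A z u + A w u = 0 := by
    intro u
    have h7 := hAU ![x, y, z, w] M hM (by
      rw [Fin.prod_univ_four]
      simp only [Matrix.cons_val]
      rw [mul_comm 2 M, pow_mul, habcd, ← pow_mul]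
      congr 1
      ring) u
    rw [Fin.sum_univ_four] at h7
    exact h7
  have hquad : Quad A (fun i => (⊥ : IntermediateField ℚ (X i).K)) x y z w :=
    { rel := hrel0
      ab := hxy
      ac := hxz
      ad := hxw
      bc := hyz
      bd := hyw
      cd := hzw
      agree := fun u v hu hv i φ ψ hφ hψ => agree_bot φ ψ }
  obtain ⟨i, φ₀, φ₁, φ₂, φ₃, rfl, rfl, rfl, rfl, k1, k2, k3, n1, n2, n3, n21, n31, n32⟩ :=
    hquad.reduce hA hflip hgen
  have hrel : ∀ ψ : (X i).K →+* ℂ, A ⟨i, φ₀⟩ ⟨i, ψ⟩ + A ⟨i, φ₁⟩ ⟨i, ψ⟩ + A ⟨i, φ₂⟩ ⟨i, ψ⟩ +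
      A ⟨i, φ₃⟩ ⟨i, ψ⟩ = 0 := fun ψ => hquad.rel _
  rcases (hX i).cls φ₀ with ⟨b, hb, hcard⟩ | ⟨hhom, h20, h32, h56⟩
  · exact no_prime hA hflip hgen real_bot k1 k2 k3 n1 n2 n3 n21 n31 n32 hrel hb hcard
  · rcases class_card hA hflip hgen real_bot k1 k2 k3 n1 n2 n3 n21 n31 n32 hrel hhom with
      h8 | h | h | h
    · obtain ⟨F, hEF, hF, hreal, hnorm⟩ := four_block hA hflip hgen real_bot k1 k2 k3 n1 n2 n3
        n21 n31 n32 hrel hhom h8
      obtain ⟨t, ht, ht'⟩ := hreal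
      refine (hX i).norm ⟨F, hF, fun h => ht' (h t ht), M, hM, ?_⟩
      apply Subtype.ext
      apply φ₀.injective
      have h9 : φ₀ (((Algebra.norm F (X i).π) ^ M : F) : (X i).K) =
          (φ₀ (Algebra.norm F (X i).π : F)) ^ M := by
        rw [← map_pow φ₀, SubmonoidClass.coe_pow]
      rw [h9, hnorm]
      have h10 : φ₀ ((((((p ^ m) ^ 2 : ℕ) : F) ^ M : F)) : (X i).K) =
          ((p ^ m : ℕ) : ℂ) ^ (2 * M) := by
        push_cast
        rw [map_pow, map_pow, map_pow, map_natCast, ← pow_mul]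
      rw [h10]
      exact habcd
    · exact h20 h
    · exact h32 h
    · exact h56 h

end

end Pool.Agent.V7H82.TG
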